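import Mathlib
import Pool.Agent.Helper19.PercBasic

namespace Pool.Agent.Helper70.Duo
end Pool.Agent.Helper70.Duo

/-!
# General thresholds: the design
-/

set_option linter.unusedSectionVars false
set_option linter.unusedVariables false

namespace Pool.Agent.Helper70.Gen

open Set SimpleGraph Pool.Agent.Helper19.Perco Pool.Agent.Helper70.Duo

/-- the data in the remaining coordinates: `μ` earlier neighbours, at most `ρ` neighbours in the
sparse set outside the sparse set -/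
structure YG {Y : Type} (GY : SimpleGraph Y) (μ ρ : ℕ) where
  F : ℕ
  hF : 1 ≤ F
  hF2 : F % 2 = 0
  line : ℕ → Y
  Fu : Set Y
  P : ℕ → Set Y
  col : ℕ → ℕ
  C : ℕ
  inj : ∀ i ≤ F, ∀ j ≤ F, line i = line j → i = j
  lineFu : ∀ i ≤ F, line i ∉ Fu
  inn : ∀ i ≤ F, cnt GY {y | y ∈ Fu ∨ ∃ l < i, y = line l} (line i) = μ
  out : ∀ y, y ∉ Fu → (∀ i ≤ F, y ≠ line i) → cnt GY {y | y ∈ Fu ∨ ∃ l ≤ F, y = line l} y ≤ ρ
  colC : ∀ j < F, col j < C
  P0 : ∀ j < F, line j ∈ P j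
  P1 : ∀ j < F, line (j + 1) ∈ P j
  geo : ∀ j < F, ∀ u, cnt GY (P j) u ≤ 2
  far : ∀ i < F, ∀ j < F, i ≠ j → i % 2 = j % 2 → col i = col j → ∀ u ∈ P i, ∀ v ∈ P j,
    u ≠ v ∧ ¬ GY.Adj u v ∧ ∀ x, ¬ (GY.Adj x u ∧ GY.Adj x v)
  ends : ∀ j < F, ∀ y, (y ∈ Fu ∨ ∃ l ≤ F, y = line l) →
    ¬ (GY.Adj y (line j) ∧ GY.Adj y (line (j + 1)))
  walk : ∀ j < F, ∀ S : Set Y, line j ∈ S → (∀ y ∈ S, ∀ y' ∈ P j, GY.Adj y y' → y' ∈ S) →
    line (j + 1) ∈ S

/-- the data in the cross-section coordinates -/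
structure WS {W : Type} (GW : SimpleGraph W) (e μ : ℕ) where
  o : W
  Θp : Set W
  Θ : Set W
  Λ : Set W
  sub : Θp ⊆ Θ
  nb : ∀ w ∈ Θ, GW.Adj o w
  bip : ∀ w w', GW.Adj o w → GW.Adj w w' → ¬ GW.Adj o w'
  cod : ∀ w, w ≠ o → cnt GW {w' | GW.Adj o w'} w ≤ 2
  cp : cnt GW Θp o = e
  cΘ : cnt GW Θ o = e + μ
  oΛ : o ∈ Λ
  pΛ : ∀ w ∈ Θp, w ∉ Λ
  cΛ : ∀ w ∈ Λ, cnt GW {w' | w' ∉ Λ ∨ w' = o} w ≤ e

namespace YG

variable {Y : Type} {GY : SimpleGraph Y} {μ ρ : ℕ} (X : YG GY μ ρ)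

/-- the sparse set -/
def D : Set Y := {y | y ∈ X.Fu ∨ ∃ l ≤ X.F, y = X.line l}

/-- time at which the line `i` is available on the side `s` -/
def tt (dur s i : ℕ) : ℕ := if i % 2 = s then (i + 1) * dur else i * dur

/-- the column over `y` on the side `s` is counted at time `t` -/
def on (dur t s : ℕ) (y : Y) : Prop := y ∈ X.Fu ∨ ∃ i ≤ X.F, y = X.line i ∧ tt dur s i ≤ t

/-- level of the link `j` -/
def pl (j : ℕ) : ℕ := 5 * X.col j + 3

/-- number of levels beyond the walls -/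
def H : ℕ := 5 * X.C + 3

/-- the region of the link `j` -/
def rg (j β : ℕ) (y : Y) : Prop :=
  (1 ≤ β ∧ β ≤ 4 ∧ (y = X.line j ∨ y = X.line (j + 1))) ∨ (β = 1 ∧ y ∈ X.P j)

/-- the link `j` is on the side `s` -/
def lk (s j : ℕ) : Prop := j < X.F ∧ j % 2 = s

variable {W : Type} {GW : SimpleGraph W} {e μ' : ℕ} (Z : WS GW e μ') (Bx : ℕ → W → Prop)

/-- the seeds beyond the walls -/
def seedH (s h β : ℕ) (w : W) (y : Y) : Prop :=
  (h = 0 ∧ y ∈ X.D ∧ Bx β w ∧ ¬ (β = 5 ∧ w ∈ Z.Λ)) ∨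
  (1 ≤ h ∧ h ≤ X.H ∧ y ∈ X.D ∧ ((β = 5 ∧ w ∈ Z.Θp) ∨
    (w = Z.o ∧ ((β = 6 ∧ h % 5 ≠ 4) ∨ (β = 4 ∧ h % 5 = 4))))) ∨
  (∃ j, X.lk s j ∧ X.rg j β y ∧ ((h = X.pl j ∧ w ∈ Z.Θ) ∨ (h = X.pl j + 1 ∧ w = Z.o)))

/-- the vertices beyond the walls counted at time `t` -/
def memH (dur t s h β : ℕ) (w : W) (y : Y) : Prop :=
  X.seedH Z Bx s h β w y ∨ (h ≤ X.H ∧ β = 5 ∧ w = Z.o ∧ X.on dur t s y) ∨
    (w = Z.o ∧ ∃ j, X.lk s j ∧ X.rg j β y ∧ h = X.pl j ∧ (j + 1) * dur ≤ t)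

variable {X Z Bx}

lemma on_D {dur t s : ℕ} {y : Y} (h : X.on dur t s y) : y ∈ X.D := by
  rcases h with h | ⟨i, h1, h2, _⟩
  · exact Or.inl h
  · exact Or.inr ⟨i, h1, h2⟩

lemma line_D {i : ℕ} (h : i ≤ X.F) : X.line i ∈ X.D := Or.inr ⟨i, h, rfl⟩

lemma out' {y : Y} (h : y ∉ X.D) : cnt GY X.D y ≤ ρ :=
  X.out y (fun h' => h (Or.inl h')) (fun i hi h' => h (Or.inr ⟨i, hi, h'⟩))

lemma pl_mod (j : ℕ) : X.pl j % 5 = 3 := by unfold pl; omega
lemma pl_le {s j : ℕ} (h : X.lk s j) : X.pl j + 5 ≤ X.H := by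
  have := X.colC j h.1
  unfold pl H; omega
lemma pl_col {i j : ℕ} (h : X.pl i = X.pl j) : X.col i = X.col j := by unfold pl at h; omega

lemma rg_P {s j β : ℕ} {y : Y} (h : X.lk s j) (h' : X.rg j β y) : y ∈ X.P j := by
  rcases h' with ⟨_, _, h1 | h1⟩ | h1
  · rw [h1]; exact X.P0 j h.1
  · rw [h1]; exact X.P1 j h.1
  · exact h1.2

lemma rg_bd {j β : ℕ} {y : Y} (h' : X.rg j β y) : 1 ≤ β ∧ β ≤ 4 := by
  rcases h' with h1 | h1
  · exact ⟨h1.1, h1.2.1⟩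
  · omega

lemma rg_port {j β : ℕ} {y : Y} (h' : X.rg j β y) (hβ : 2 ≤ β) :
    y = X.line j ∨ y = X.line (j + 1) := by
  rcases h' with h1 | h1
  · exact h1.2.2
  · omega

lemma port_rg {j β : ℕ} {y : Y} (h' : y = X.line j ∨ y = X.line (j + 1)) (h1 : 1 ≤ β)
    (h4 : β ≤ 4) : X.rg j β y := Or.inl ⟨h1, h4, h'⟩

lemma port_D {s j : ℕ} {y : Y} (h : X.lk s j) (h' : y = X.line j ∨ y = X.line (j + 1)) :
    y ∈ X.D := by
  have := h.1
  rcases h' with h' | h' <;> rw [h']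
  · exact line_D (by omega)
  · exact line_D (by omega)

lemma rg_D {s j β : ℕ} {y : Y} (h : X.lk s j) (h' : X.rg j β y) (hβ : 2 ≤ β) : y ∈ X.D :=
  port_D h (rg_port h' hβ)

/-- uniqueness of the link -/
lemma rg_eq {s i j β β' : ℕ} {y : Y} (h1 : X.lk s i) (h2 : X.lk s j) (h3 : X.rg i β y)
    (h4 : X.rg j β' y) (h5 : X.pl i = X.pl j) : i = j := by
  by_contra hne
  exact (X.far i h1.1 j h2.1 hne (h1.2.trans h2.2.symm) (pl_col h5) y (rg_P h1 h3) y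
    (rg_P h2 h4)).1 rfl

lemma rg_adj {s i j β β' : ℕ} {y y' : Y} (h1 : X.lk s i) (h2 : X.lk s j) (h3 : X.rg i β y)
    (h4 : X.rg j β' y') (h5 : X.pl i = X.pl j) (hadj : GY.Adj y y') : i = j := by
  by_contra hne
  exact (X.far i h1.1 j h2.1 hne (h1.2.trans h2.2.symm) (pl_col h5) y (rg_P h1 h3) y'
    (rg_P h2 h4)).2.1 hadj

lemma rg_two {s i j β β' : ℕ} {x y y' : Y} (h1 : X.lk s i) (h2 : X.lk s j) (h3 : X.rg i β y)
    (h4 : X.rg j β' y') (h5 : X.pl i = X.pl j) (ha : GY.Adj x y) (hb : GY.Adj x y') : i = j := by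
  by_contra hne
  exact (X.far i h1.1 j h2.1 hne (h1.2.trans h2.2.symm) (pl_col h5) y (rg_P h1 h3) y'
    (rg_P h2 h4)).2.2 x ⟨ha, hb⟩

/-- time of a port -/
lemma port_tt {dur t s j : ℕ} {y : Y} (h : X.lk s j) (h' : y = X.line j ∨ y = X.line (j + 1)) :
    X.on dur t s y ↔ (j + 1) * dur ≤ t := by
  obtain ⟨h1, h2⟩ := h
  have e1 : tt dur s j = (j + 1) * dur := by unfold tt; rw [if_pos h2]
  have e2 : tt dur s (j + 1) = (j + 1) * dur := by unfold tt; rw [if_neg (by omega)]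
  constructor
  · rintro (h3 | ⟨i, h3, h4, h5⟩)
    · exfalso
      rcases h' with h' | h' <;> rw [h'] at h3
      · exact X.lineFu j (by omega) h3
      · exact X.lineFu _ (by omega) h3
    · rcases h' with h' | h'
      · have := X.inj i h3 j (by omega) (h4.symm.trans h')
        subst this
        rwa [e1] at h5
      · have := X.inj i h3 (j + 1) (by omega) (h4.symm.trans h')
        subst this
        rwa [e2] at h5
  · intro h3
    rcases h' with h' | h'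
    · exact Or.inr ⟨j, by omega, h', by rw [e1]; exact h3⟩
    · exact Or.inr ⟨j + 1, by omega, h', by rw [e2]; exact h3⟩

/-- times of the lines increase -/
lemma tt_mono {dur s i l : ℕ} (h : i < l) : tt dur s i ≤ tt dur s l := by
  have h1 : (i + 1) * dur ≤ l * dur := Nat.mul_le_mul_right _ h
  have h2 : l * dur ≤ (l + 1) * dur := Nat.mul_le_mul_right _ (by omega)
  have h3 : i * dur ≤ (i + 1) * dur := Nat.mul_le_mul_right _ (by omega)
  unfold tt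
  split_ifs <;> omega

lemma on_mono {dur t t' s : ℕ} {y : Y} (ht : t ≤ t') (h : X.on dur t s y) : X.on dur t' s y := by
  rcases h with h | ⟨i, h1, h2, h3⟩
  · exact Or.inl h
  · exact Or.inr ⟨i, h1, h2, h3.trans ht⟩

/-- counted columns next to a column which is not counted -/
lemma on_cnt [Finite Y] {dur t s : ℕ} {y : Y} (hy : y ∈ X.D) (h : ¬ X.on dur t s y) :
    cnt GY {y' | X.on dur t s y'} y ≤ μ := by
  rcases hy with hy | ⟨i, hi, hy⟩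
  · exact absurd (Or.inl hy) h
  · rw [hy]
    refine le_trans ?_ (X.inn i hi).le
    apply cnt_mono
    rintro y' (h' | ⟨l, h1, h2, h3⟩)
    · exact Or.inl h'
    · right
      refine ⟨l, ?_, h2⟩
      by_contra hlt
      rcases Nat.eq_or_lt_of_le (not_lt.1 hlt) with h4 | h4
      · subst h4
        exact h (Or.inr ⟨i, hi, hy, h3⟩)
      · have := tt_mono (dur := dur) (s := s) h4
        exact h (Or.inr ⟨i, hi, hy, this.trans h3⟩)

lemma memH_mono {dur t t' s h β : ℕ} {w : W} {y : Y} (ht : t ≤ t')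
    (hm : X.memH Z Bx dur t s h β w y) : X.memH Z Bx dur t' s h β w y := by
  rcases hm with h1 | h1 | ⟨h1, j, h2, h3, h4, h5⟩
  · exact Or.inl h1
  · exact Or.inr (Or.inl ⟨h1.1, h1.2.1, h1.2.2.1, on_mono ht h1.2.2.2⟩)
  · exact Or.inr (Or.inr ⟨h1, j, h2, h3, h4, h5.trans ht⟩)

end YG

end Pool.Agent.Helper70.Gen
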