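import Mathlib

namespace Pool.Agent.Helper19.Perco
end Pool.Agent.Helper19.Perco

/-!
# The ignition system: definitions

The grid is `[n]^(m+1+k)`, the threshold is `m + 1`.  The coordinates `a < m` are the quadrant
coordinates, the coordinate `m` is the height, the coordinates `a > m` are the remaining ones.
-/

set_option linter.unusedSectionVars false
set_option linter.unusedVariables false

namespace Pool.Agent.Helper70.Gen

open Set SimpleGraph Pool.Agent.Helper19.Perco

/-- the parameters of the ignition system -/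
structure IgD (m k n : ℕ) where
  /-- height of the final part -/
  zf : ℕ
  /-- the corner (the value at `m` is not used) -/
  c : Fin (m + 1 + k) → ℕ
  hm : 3 ≤ m
  hk : 1 ≤ k
  c1 : ∀ a, 1 ≤ c a
  cn : ∀ a, c a + (4 * (m + 1) + 8) ≤ n
  z2 : 2 ≤ zf
  zn : zf + (4 * (m + 1) + 8) ≤ n

namespace IgD

variable {m k n : ℕ} (I : IgD m k n) (x : Fin (m + 1 + k) → Fin n)

/-- the index of the height -/
def hz : Fin (m + 1 + k) := ⟨m, by omega⟩

/-- the index zero -/
def h0 : Fin (m + 1 + k) := ⟨0, by omega⟩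

/-- the height -/
def Z : ℕ := (x hz).val

/-- the quadrant -/
def quad : Prop := ∀ a : Fin (m + 1 + k), a.val < m → I.c a ≤ (x a).val

/-- distance from the corner -/
def del : ℕ := ∑ a : Fin (m + 1 + k), if a.val < m then (x a).val - I.c a else 0

/-- first code -/
def cod1 : ℕ := ∑ a : Fin (m + 1 + k), if a.val < m then (a.val + 1) * (x a).val else 0

/-- second code -/
def cod2 : ℕ := ∑ a : Fin (m + 1 + k), if a.val ≤ m then a.val * (x a).val else 0

/-- all remaining coordinates maximal -/
def top : Prop := ∀ a : Fin (m + 1 + k), m < a.val → (x a).val + 1 = n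

/-- the pattern of the helpers of the fuse -/
def pat : Prop := (∀ a : Fin (m + 1 + k), m < a.val → (x a).val = I.c a) ∧
  ∃ b : Fin (m + 1 + k), b.val < m ∧ (x b).val = I.c b + 1 ∧
    ∀ a : Fin (m + 1 + k), a.val < m → a ≠ b → (x a).val = I.c a

/-- the corner -/
def cor : Prop := ∀ a : Fin (m + 1 + k), a.val ≠ m → (x a).val = I.c a

/-- helpers of the fuse -/
def J1 : Prop := Z x + 1 = I.zf ∧ I.pat x

/-- above, outside the quadrant -/
def Sg : Prop := I.zf ≤ Z x ∧ ¬ I.quad x

/-- starters of the first stage -/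
def S1 : Prop := Z x = I.zf + 2 + 2 * (cod1 x % (2 * (m + 1))) ∧ top x ∧ I.quad x ∧ 2 ≤ I.del x

/-- slabs -/
def slab : Prop := Z x < I.zf ∧ ∃ a : Fin (m + 1 + k), 1 ≤ a.val ∧ a.val < m ∧ n ≤ (x a).val + 2

/-- starters of the second stage -/
def S2 : Prop := Z x < I.zf ∧ ¬ I.slab x ∧ (x h0).val + 2 + 2 * (cod2 x % (2 * (m + 1))) = n ∧ top x

/-- the ignition system -/
def J : Set (Fin (m + 1 + k) → Fin n) := {x | I.J1 x ∨ I.Sg x ∨ I.S1 x ∨ I.slab x ∨ I.S2 x}

/-- away from the upper faces (except for the height and the coordinate zero) -/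
def safe : Prop := ∀ a : Fin (m + 1 + k), 1 ≤ a.val → a.val ≠ m → (x a).val + 4 ≤ n

end IgD

end Pool.Agent.Helper70.Gen
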