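import Mathlib
import Pool.Agent.Helper70.Thr3.BaseInst

/-!
# Cross-sections of the tubes with coordinates
-/

set_option linter.unusedSectionVars false
set_option linter.unusedVariables false

namespace Pool.Agent.Helper70.Gen

open Set SimpleGraph Pool.Agent.Helper19.Perco Pool.Agent.Helper70.Duo Pool.Agent.Helper70.Thr3

/-- a cross-section with two slice types and coordinates -/
structure Tb (e L : ℕ) (sz : Fin e → ℕ) where
  V : Type
  fin : Finite V
  G : SimpleGraph V
  P : Ty V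
  Q : Ty V
  T : ℕ
  b : V → ℕ
  w : V → Fin e → ℕ
  bL : ∀ v, b v < L
  wL : ∀ v i, w v i < sz i
  ex : ∀ (β : ℕ) (ω : Fin e → ℕ), β < L → (∀ i, ω i < sz i) → ∃ v, b v = β ∧ w v = ω
  inj : ∀ u v, b u = b v → w u = w v → u = v
  adj : ∀ u v, G.Adj u v ↔ (((b u + 1 = b v ∨ b v + 1 = b u) ∧ w u = w v) ∨
    (b u = b v ∧ ∃ i, (w u i + 1 = w v i ∨ w v i + 1 = w u i) ∧ ∀ j, j ≠ i → w u j = w v j))
  hP : Cond G (e + 1) T P Q
  hQ : Cond G (e + 1) T Q P
  sb : b P.s = 0
  sw : ∀ i, w P.s i = 1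
  hΛ : ∀ v, b v = 0 → (∀ i, w v i ≤ 1) → v ≠ P.s → v ∈ P.A

/-- the first cross-section -/
theorem tb_base {L : ℕ} (hL : 10 ≤ L) (hL2 : L % 2 = 0) (sz : Fin 1 → ℕ) (hsz : sz = fun _ => L) :
    ∃ X : Tb 1 L sz, X.T = w L 4 + L - 3 := by
  subst hsz
  have hB := base_inst hL hL2
  refine ⟨
    { V := Fin L × Fin L
      fin := inferInstance
      G := Sq L
      P := (YT L hL).comap (eM L).toEquiv
      Q := (XT L hL).comap (eM L).toEquiv
      T := w L 4 + L - 3
      b := fun v => v.2.val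
      w := fun v _ => v.1.val
      bL := fun v => v.2.isLt
      wL := fun v _ => v.1.isLt
      ex := ?_, inj := ?_, adj := ?_
      hP := hB.hP
      hQ := hB.hQ
      sb := hB.s2
      sw := fun _ => hB.s1
      hΛ := ?_ }, rfl⟩
  · intro β ω h1 h2
    refine ⟨(⟨ω 0, h2 0⟩, ⟨β, h1⟩), rfl, ?_⟩
    funext i
    rw [Subsingleton.elim i 0]
  · intro u v h1 h2
    exact Prod.ext (Fin.ext (congrFun h2 0)) (Fin.ext h1)
  · rintro ⟨u1, u2⟩ ⟨v1, v2⟩
    rw [sq_adj]
    constructor
    · rintro (⟨h1, h2⟩ | ⟨h1, h2⟩)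
      · right
        exact ⟨h2, 0, h1, fun j hj => absurd (Subsingleton.elim j 0) hj⟩
      · left
        exact ⟨h1, funext fun _ => h2⟩
    · rintro (⟨h1, h2⟩ | ⟨h1, i, h2, h3⟩)
      · right
        exact ⟨h1, congrFun h2 0⟩
      · left
        exact ⟨h2, h1⟩
  · intro v h1 h2 h3
    have h4 : v.1.val ≤ 1 := h2 0
    apply hB.o v ?_ h1
    by_contra h5
    apply h3
    have h6 := hB.s1
    have h7 := hB.s2
    exact Prod.ext (Fin.ext (by omega)) (Fin.ext (h1.trans h7.symm))

/-- sizes -/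
def szf (L K e : ℕ) : Fin e → ℕ := fun i => if i.val = 0 then L else K + 1

/-- the next cross-section -/
theorem tb_step {e L K : ℕ} (he : 1 ≤ e) (hK : 6 ≤ K) (hK2 : K % 2 = 0)
    (X : Tb e L (szf L K e)) :
    ∃ X' : Tb (e + 1) L (szf L K (e + 1)), X'.T = (K - 4) * X.T + 1 := by
  have := X.fin
  have h1 := stack_cond X.hP X.hQ hK2 hK
  have h2 : Cond (X.G □ pathGraph (K + 1)) (e + 1 + 1) ((K - 4) * X.T + 1)
      ((stack X.T K X.P X.Q hK).comap (mir X.G (K + 1)).toEquiv) (stack X.T K X.P X.Q hK) := by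
    have h3 := h1.comap (mir X.G (K + 1))
    rwa [Duo.comap_comap] at h3
  -- extension of the coordinates
  let ww : X.V × Fin (K + 1) → Fin (e + 1) → ℕ := fun p i =>
    if h : i.val < e then X.w p.1 ⟨i.val, h⟩ else p.2.val
  have ww1 : ∀ p (i : Fin (e + 1)) (h : i.val < e), ww p i = X.w p.1 ⟨i.val, h⟩ := fun p i h =>
    dif_pos h
  have ww2 : ∀ p (i : Fin (e + 1)), ¬ i.val < e → ww p i = p.2.val := fun p i h => dif_neg h
  have wweq : ∀ p q : X.V × Fin (K + 1), ww p = ww q ↔ (X.w p.1 = X.w q.1 ∧ p.2 = q.2) := by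
    intro p q
    constructor
    · intro h
      refine ⟨funext fun i => ?_, ?_⟩
      · have h3 := congrFun h ⟨i.val, by omega⟩
        rw [ww1 p _ i.isLt, ww1 q _ i.isLt] at h3
        exact h3
      · have h3 := congrFun h ⟨e, by omega⟩
        rw [ww2 p _ (by simp), ww2 q _ (by simp)] at h3
        exact Fin.ext h3
    · rintro ⟨h3, h4⟩
      funext i
      by_cases h : i.val < e
      · rw [ww1 p i h, ww1 q i h, h3]
      · rw [ww2 p i h, ww2 q i h, h4]
  refine ⟨
    { V := X.V × Fin (K + 1)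
      fin := inferInstance
      G := X.G □ pathGraph (K + 1)
      P := stack X.T K X.P X.Q hK
      Q := (stack X.T K X.P X.Q hK).comap (mir X.G (K + 1)).toEquiv
      T := (K - 4) * X.T + 1
      b := fun p => X.b p.1
      w := ww
      bL := fun p => X.bL p.1
      wL := ?_, ex := ?_, inj := ?_, adj := ?_
      hP := h1
      hQ := h2
      sb := X.sb
      sw := ?_, hΛ := ?_ }, rfl⟩
  · intro p i
    by_cases h : i.val < e
    · rw [ww1 p i h]; exact X.wL p.1 _
    · rw [ww2 p i h]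
      have : i.val ≠ 0 := by omega
      unfold szf
      rw [if_neg this]; exact p.2.isLt
  · intro β ω hβ hω
    obtain ⟨v, h3, h4⟩ := X.ex β (fun i => ω ⟨i.val, by omega⟩) hβ (fun i => hω _)
    have h5 : ω ⟨e, by omega⟩ < K + 1 := by
      have := hω ⟨e, by omega⟩
      unfold szf at this
      rw [if_neg (by show ¬ e = 0; omega)] at this
      exact this
    refine ⟨(v, ⟨ω ⟨e, by omega⟩, h5⟩), h3, ?_⟩
    funext i
    by_cases h : i.val < e
    · rw [ww1 _ i h]
      exact congrFun h4 ⟨i.val, h⟩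
    · rw [ww2 _ i h]
      show ω _ = ω _
      congr 1
      exact Fin.ext (by show e = i.val; omega)
  · intro u v h3 h4
    rw [wweq] at h4
    exact Prod.ext (X.inj _ _ h3 h4.1) h4.2
  · rintro ⟨u, z⟩ ⟨v, z'⟩
    rw [boxProd_adj, pathGraph_adj, X.adj]
    constructor
    · rintro (⟨h3 | ⟨h3, i, h4, h5⟩, h6⟩ | ⟨h3, h4⟩)
      · left
        exact ⟨h3.1, (wweq _ _).2 ⟨h3.2, h6⟩⟩
      · right
        refine ⟨h3, ⟨i.val, by omega⟩, ?_, ?_⟩
        · rw [ww1 _ _ i.isLt, ww1 _ _ i.isLt]; exact h4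
        · intro j hj
          by_cases h : j.val < e
          · rw [ww1 _ _ h, ww1 _ _ h]
            exact h5 ⟨j.val, h⟩ (fun h' => by
              have h8 : j.val = i.val := congrArg Fin.val h'
              exact hj (Fin.ext h8))
          · rw [ww2 _ _ h, ww2 _ _ h]
            exact congrArg Fin.val h6
      · right
        have h4' : u = v := h4
        subst h4'
        refine ⟨rfl, ⟨e, by omega⟩, ?_, ?_⟩
        · rw [ww2 _ _ (by simp), ww2 _ _ (by simp)]; exact h3
        · intro j hj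
          have h : j.val < e := by
            have : j.val ≠ e := fun h' => hj (Fin.ext h')
            have := j.isLt
            omega
          rw [ww1 _ _ h, ww1 _ _ h]
    · rintro (⟨h3, h4⟩ | ⟨h3, i, h4, h5⟩)
      · left
        rw [wweq] at h4
        exact ⟨Or.inl ⟨h3, h4.1⟩, h4.2⟩
      · by_cases h : i.val < e
        · left
          rw [ww1 _ _ h, ww1 _ _ h] at h4
          have h6 := h5 ⟨e, by omega⟩ (fun h' => by
            have : e = i.val := congrArg Fin.val h'
            omega)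
          rw [ww2 _ _ (by simp), ww2 _ _ (by simp)] at h6
          refine ⟨Or.inr ⟨h3, ⟨i.val, h⟩, h4, ?_⟩, Fin.ext h6⟩
          intro j hj
          have h7 := h5 ⟨j.val, by omega⟩ (fun h' => by
            have h8 : j.val = i.val := congrArg Fin.val h'
            exact hj (Fin.ext h8))
          rw [ww1 _ _ j.isLt, ww1 _ _ j.isLt] at h7
          exact h7
        · right
          rw [ww2 _ _ h, ww2 _ _ h] at h4
          refine ⟨h4, X.inj _ _ h3 (funext fun j => ?_)⟩
          have h7 := h5 ⟨j.val, by omega⟩ (fun h' => by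
            have h8 : j.val = i.val := congrArg Fin.val h'
            have := j.isLt
            omega)
          rw [ww1 _ _ j.isLt, ww1 _ _ j.isLt] at h7
          exact h7
  · intro i
    by_cases h : i.val < e
    · rw [ww1 _ _ h]; exact X.sw _
    · rw [ww2 _ _ h]; rfl
  · rintro ⟨v, z⟩ h3 h4 h5
    rw [mem_stackA]
    have h6 : z.val ≤ 1 := by
      have := h4 ⟨e, by omega⟩
      rwa [ww2 _ _ (by simp)] at this
    have h7 : ∀ i, X.w v i ≤ 1 := by
      intro i
      have := h4 ⟨i.val, by omega⟩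
      rwa [ww1 _ _ i.isLt] at this
    rcases Nat.eq_zero_or_pos z.val with h8 | h8
    · rw [AU_wall (Or.inl h8)]; exact Set.mem_univ _
    · have h9 : z.val = 1 := by omega
      rw [h9, AU_mid (by omega) (by omega), R_odd _ _ (by omega)]
      apply X.hΛ v h3 h7
      rintro rfl
      apply h5
      show (X.P.s, z) = (X.P.s, (⟨1, by omega⟩ : Fin (K + 1)))
      rw [Prod.mk.injEq]
      exact ⟨rfl, Fin.ext h9⟩

/-- all cross-sections -/
theorem tb_all {L K : ℕ} (hL : 10 ≤ L) (hL2 : L % 2 = 0) (hK : 6 ≤ K) (hK2 : K % 2 = 0) :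
    ∀ e, 1 ≤ e → ∃ X : Tb e L (szf L K e), (K - 4) ^ (e - 1) * (w L 4 + L - 3) ≤ X.T := by
  intro e he
  induction e with
  | zero => omega
  | succ e ih =>
    rcases Nat.eq_zero_or_pos e with h0 | h0
    · subst h0
      obtain ⟨X, hX⟩ := tb_base hL hL2 (szf L K 1) (by
        funext i
        unfold szf
        rw [if_pos (by omega)])
      refine ⟨X, ?_⟩
      rw [hX]
      simp
    · obtain ⟨X, hX⟩ := ih h0
      obtain ⟨X', hX'⟩ := tb_step h0 hK hK2 X
      refine ⟨X', ?_⟩
      rw [hX']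
      obtain ⟨f, hf⟩ : ∃ f, e = f + 1 := ⟨e - 1, by omega⟩
      subst hf
      have e1 : f + 1 + 1 - 1 = f + 1 := by omega
      have e2 : f + 1 - 1 = f := by omega
      rw [e1]
      rw [e2] at hX
      calc (K - 4) ^ (f + 1) * (w L 4 + L - 3) = (K - 4) * ((K - 4) ^ f * (w L 4 + L - 3)) := by
            ring
        _ ≤ (K - 4) * X.T := Nat.mul_le_mul_left _ hX
        _ ≤ (K - 4) * X.T + 1 := Nat.le_succ _

end Pool.Agent.Helper70.Gen
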