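import Mathlib
import Pool.Agent.Helper70.Gen.Tube

/-!
# The cross-sections inside the large grid
-/

set_option linter.unusedSectionVars false
set_option linter.unusedVariables false

namespace Pool.Agent.Helper70.Gen

open Set SimpleGraph Pool.Agent.Helper19.Perco Pool.Agent.Helper70.Duo Pool.Agent.Helper70.Thr3

/-- the large cross-section -/
abbrev Gv (e n : ℕ) : SimpleGraph (Fin n × (Fin e → Fin n)) := pathGraph n □ Gd e n

lemma Gv_adj {e n : ℕ} {x y : Fin n × (Fin e → Fin n)} : (Gv e n).Adj x y ↔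
    ((x.1.val + 1 = y.1.val ∨ y.1.val + 1 = x.1.val) ∧ x.2 = y.2) ∨
      ((Gd e n).Adj x.2 y.2 ∧ x.1 = y.1) := by
  rw [boxProd_adj, pathGraph_adj]

namespace Tb

variable {e L n : ℕ} {sz : Fin e → ℕ} (X : Tb e L sz)

/-- the sizes fit -/
structure Fit (L n : ℕ) {e : ℕ} (sz : Fin e → ℕ) : Prop where
  hL : L + 5 ≤ n
  hsz : ∀ i, sz i ≤ n

/-- the embedding -/
def ι (hf : Fit L n sz) (u : X.V) : Fin n × (Fin e → Fin n) :=
  (⟨X.b u + 5, by have := X.bL u; have := hf.hL; omega⟩,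
    fun i => ⟨X.w u i, lt_of_lt_of_le (X.wL u i) (hf.hsz i)⟩)

variable {X} (hf : Fit L n sz)

lemma ι_inj : Function.Injective (X.ι hf) := by
  intro u v h
  have h1 : X.b u + 5 = X.b v + 5 := congrArg (fun p => p.1.val) h
  have h2 : ∀ i, X.w u i = X.w v i := fun i => congrArg (fun p => (p.2 i).val) h
  exact X.inj _ _ (by omega) (funext h2)

lemma ι_adj {u v : X.V} : (Gv e n).Adj (X.ι hf u) (X.ι hf v) ↔ X.G.Adj u v := by
  rw [Gv_adj, X.adj]
  constructor
  · rintro (⟨h1, h2⟩ | ⟨⟨i, h1, h3⟩, h2⟩)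
    · left
      have h1' : X.b u + 5 + 1 = X.b v + 5 ∨ X.b v + 5 + 1 = X.b u + 5 := h1
      refine ⟨by omega, funext fun i => ?_⟩
      exact congrArg Fin.val (congrFun h2 i)
    · right
      have h2' : X.b u + 5 = X.b v + 5 := congrArg Fin.val h2
      exact ⟨by omega, i, h1, fun j hj => congrArg Fin.val (h3 j hj)⟩
  · rintro (⟨h1, h2⟩ | ⟨h2, i, h1, h3⟩)
    · left
      refine ⟨?_, ?_⟩
      · show X.b u + 5 + 1 = X.b v + 5 ∨ X.b v + 5 + 1 = X.b u + 5
        omega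
      · funext i
        apply Fin.ext
        exact congrFun h2 i
    · right
      refine ⟨⟨i, h1, fun j hj => Fin.ext (h3 j hj)⟩, Fin.ext ?_⟩
      show X.b u + 5 = X.b v + 5
      omega

lemma mem_range {v : Fin n × (Fin e → Fin n)} : v ∈ Set.range (X.ι hf) ↔
    (5 ≤ v.1.val ∧ v.1.val < 5 + L ∧ ∀ i, (v.2 i).val < sz i) := by
  constructor
  · rintro ⟨u, rfl⟩
    have := X.bL u
    refine ⟨?_, ?_, fun i => X.wL u i⟩
    · show 5 ≤ X.b u + 5; omega
    · show X.b u + 5 < 5 + L; omega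
  · rintro ⟨h1, h2, h3⟩
    obtain ⟨u, h4, h5⟩ := X.ex (v.1.val - 5) (fun i => (v.2 i).val) (by omega) h3
    refine ⟨u, Prod.ext (Fin.ext ?_) (funext fun i => Fin.ext ?_)⟩
    · show X.b u + 5 = v.1.val
      omega
    · exact congrFun h5 i

lemma cnt_emb_ge (S : Set (Fin n × (Fin e → Fin n))) (u : X.V) :
    cnt X.G (X.ι hf ⁻¹' S) u ≤ cnt (Gv e n) S (X.ι hf u) := by
  unfold cnt
  rw [← Set.ncard_image_of_injective _ (ι_inj hf)]
  apply Set.ncard_le_ncard _ (Set.toFinite _)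
  rintro _ ⟨v, ⟨h1, h2⟩, rfl⟩
  exact ⟨(ι_adj hf).2 h1, h2⟩

lemma cnt_emb_le (S : Set (Fin n × (Fin e → Fin n))) (u : X.V) (hS : S ⊆ Set.range (X.ι hf)) :
    cnt (Gv e n) S (X.ι hf u) ≤ cnt X.G (X.ι hf ⁻¹' S) u := by
  have := X.fin
  unfold cnt
  rw [← Set.ncard_image_of_injective (X.G.neighborSet u ∩ X.ι hf ⁻¹' S) (ι_inj hf)]
  apply Set.ncard_le_ncard _ (Set.toFinite _)
  rintro v ⟨h1, h2⟩
  obtain ⟨v', rfl⟩ := hS h2
  exact ⟨v', ⟨(ι_adj hf).1 h1, h2⟩, rfl⟩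

lemma cnt_out {v : Fin n × (Fin e → Fin n)} (hv : v ∉ Set.range (X.ι hf)) :
    cnt (Gv e n) (Set.range (X.ι hf)) v ≤ 1 := by
  rw [mem_range] at hv
  apply cnt_le_one
  intro x hx y hy h1 h2
  rw [mem_range] at hx hy
  rw [Gv_adj] at h1 h2
  obtain ⟨a1, a2, a3⟩ := hx
  obtain ⟨b1, b2, b3⟩ := hy
  rcases h1 with ⟨h1, h3⟩ | ⟨⟨i, h1, h3⟩, h4⟩ <;> rcases h2 with ⟨h2, h5⟩ | ⟨⟨j, h2, h5⟩, h6⟩
  · refine Prod.ext (Fin.ext ?_) (h3.symm.trans h5)
    by_contra hne
    apply hv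
    rw [← h3] at a3
    exact ⟨by omega, by omega, a3⟩
  · exfalso
    apply hv
    rw [← h3] at a3
    rw [← h6] at b1 b2
    exact ⟨b1, b2, a3⟩
  · exfalso
    apply hv
    rw [← h5] at b3
    rw [← h4] at a1 a2
    exact ⟨a1, a2, b3⟩
  · rw [← h4] at a1 a2
    by_cases hij : i = j
    · subst hij
      by_cases hw : x.2 i = y.2 i
      · refine Prod.ext (h4.symm.trans h6) (funext fun l => ?_)
        by_cases hl : l = i
        · rw [hl]; exact hw
        · rw [← h3 l hl, ← h5 l hl]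
      · exfalso
        apply hv
        have hne : (x.2 i).val ≠ (y.2 i).val := fun h => hw (Fin.ext h)
        refine ⟨a1, a2, fun l => ?_⟩
        by_cases hl : l = i
        · rw [hl]
          have := a3 i
          have := b3 i
          omega
        · rw [h3 l hl]; exact a3 l
    · exfalso
      apply hv
      refine ⟨a1, a2, fun l => ?_⟩
      by_cases hl : l = i
      · rw [hl, h5 i hij]; exact b3 i
      · rw [h3 l hl]; exact a3 l

end Tb

end Pool.Agent.Helper70.Gen
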