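import Mathlib
import Pool.Agent.Helper70.Gen.Def
import Pool.Agent.Helper70.PercDuoBase2

/-!
# General thresholds: counts beyond the walls
-/

set_option linter.unusedSectionVars false
set_option linter.unusedVariables false

namespace Pool.Agent.Helper70.Gen

open Set SimpleGraph Pool.Agent.Helper19.Perco Pool.Agent.Helper70.Duo

namespace YG

variable {Y : Type} {GY : SimpleGraph Y} {μ ρ : ℕ} {X : YG GY μ ρ}
variable {W : Type} {GW : SimpleGraph W} {e μ' : ℕ} {Z : WS GW e μ'} {Bx : ℕ → W → Prop}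
variable {dur t s h β : ℕ} {w : W} {y : Y}

/-- all members beyond the walls, off the axis -/
lemma mem_off (hw : w ≠ Z.o) (h1 : 1 ≤ h) (hm : X.memH Z Bx dur t s h β w y) :
    w ∈ Z.Θ ∧ ((β = 5 ∧ y ∈ X.D ∧ w ∈ Z.Θp) ∨ ∃ j, X.lk s j ∧ X.rg j β y ∧ h = X.pl j) := by
  rcases hm with (h2 | h2 | ⟨j, h2, h3, h4⟩) | h2 | h2
  · omega
  · rcases h2.2.2.2 with h3 | h3
    · exact ⟨Z.sub h3.2, Or.inl ⟨h3.1, h2.2.2.1, h3.2⟩⟩
    · exact absurd h3.1 hw
  · rcases h4 with h4 | h4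
    · exact ⟨h4.2, Or.inr ⟨j, h2, h3, h4.1⟩⟩
    · exact absurd h4.2 hw
  · exact absurd h2.2.2.1 hw
  · exact absurd h2.1 hw

/-- all members beyond the walls, on the axis -/
lemma mem_ax (h1 : 1 ≤ h) (hm : X.memH Z Bx dur t s h β Z.o y) :
    (β = 5 ∧ X.on dur t s y) ∨ (β = 6 ∧ h % 5 ≠ 4 ∧ y ∈ X.D) ∨ (β = 4 ∧ h % 5 = 4 ∧ y ∈ X.D) ∨
      ∃ j, X.lk s j ∧ X.rg j β y ∧ ((h = X.pl j ∧ (j + 1) * dur ≤ t) ∨ h = X.pl j + 1) := by
  have hoo : Z.o ∉ Z.Θ := fun h' => GW.irrefl (Z.nb _ h')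
  rcases hm with (h2 | h2 | ⟨j, h2, h3, h4⟩) | h2 | ⟨h2, j, h3, h4, h5, h6⟩
  · omega
  · rcases h2.2.2.2 with h3 | h3
    · exact absurd (Z.sub h3.2) hoo
    · rcases h3.2 with h4 | h4
      · exact Or.inr (Or.inl ⟨h4.1, h4.2, h2.2.2.1⟩)
      · exact Or.inr (Or.inr (Or.inl ⟨h4.1, h4.2, h2.2.2.1⟩))
  · rcases h4 with h4 | h4
    · exact absurd h4.2 hoo
    · exact Or.inr (Or.inr (Or.inr ⟨j, h2, h3, Or.inr h4.1⟩))
  · exact Or.inl ⟨h2.2.1, h2.2.2.2⟩
  · exact Or.inr (Or.inr (Or.inr ⟨j, h3, h4, Or.inl ⟨h5, h6⟩⟩))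

lemma mem_zero (hm : X.memH Z Bx dur t s 0 β w y) :
    y ∈ X.D ∧ ((Bx β w ∧ ¬ (β = 5 ∧ w ∈ Z.Λ)) ∨ (β = 5 ∧ w = Z.o ∧ X.on dur t s y)) := by
  rcases hm with (h2 | h2 | ⟨j, h2, h3, h4⟩) | h2 | ⟨h2, j, h3, h4, h5, h6⟩
  · exact ⟨h2.2.1, Or.inl h2.2.2⟩
  · omega
  · unfold pl at h4; omega
  · exact ⟨on_D h2.2.2.2, Or.inr ⟨h2.2.1, h2.2.2⟩⟩
  · unfold pl at h5; omega

/-- at `β ≥ 2` all members are over the sparse set -/
lemma mem_D (hβ : 2 ≤ β) (hm : X.memH Z Bx dur t s h β w y) : y ∈ X.D := by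
  rcases hm with (h2 | h2 | ⟨j, h2, h3, h4⟩) | h2 | ⟨h2, j, h3, h4, h5, h6⟩
  · exact h2.2.1
  · exact h2.2.2.1
  · exact rg_D h2 h3 hβ
  · exact on_D h2.2.2.2
  · exact rg_D h3 h4 hβ

/-- members at height `h + 1` -/
lemma mem_seven (h1 : 1 ≤ h) (hβ : 7 ≤ β) : ¬ X.memH Z Bx dur t s h β w y := by
  intro hm
  by_cases hw : w = Z.o
  · subst hw
    rcases mem_ax h1 hm with h2 | h2 | h2 | ⟨j, h2, h3, h4⟩
    · omega
    · omega
    · omega
    · have := rg_bd h3; omega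
  · rcases (mem_off hw h1 hm).2 with h2 | ⟨j, h2, h3, h4⟩
    · omega
    · have := rg_bd h3; omega

lemma mem_nil (h1 : 1 ≤ h) : ¬ X.memH Z Bx dur t s h 0 w y := by
  intro hm
  by_cases hw : w = Z.o
  · subst hw
    rcases mem_ax h1 hm with h2 | h2 | h2 | ⟨j, h2, h3, h4⟩
    · omega
    · omega
    · omega
    · have := rg_bd h3; omega
  · rcases (mem_off hw h1 hm).2 with h2 | ⟨j, h2, h3, h4⟩
    · omega
    · have := rg_bd h3; omega

/-- nothing above the last level -/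
lemma mem_high (h1 : X.H < h) : ¬ X.memH Z Bx dur t s h β w y := by
  intro hm
  rcases hm with (h2 | h2 | ⟨j, h2, h3, h4⟩) | h2 | ⟨h2, j, h3, h4, h5, h6⟩
  · omega
  · omega
  · have := pl_le h2; omega
  · omega
  · have := pl_le h3; omega

/-- the sum of all indicators -/
noncomputable def HC (X : YG GY μ ρ) (Z : WS GW e μ') (Bx : ℕ → W → Prop) (dur t s h β : ℕ) (w : W)
    (y : Y) : ℕ :=
  iv (0 < β ∧ X.memH Z Bx dur t s h (β - 1) w y) + iv (X.memH Z Bx dur t s h (β + 1) w y) +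
  cnt GW {w' | X.memH Z Bx dur t s h β w' y} w +
  (iv (X.memH Z Bx dur t s (h - 1) β w y) + iv (X.memH Z Bx dur t s (h + 1) β w y)) +
  cnt GY {y' | X.memH Z Bx dur t s h β w y'} y

variable [Finite Y] [Finite W]

/-- neighbours in the region of a link -/
lemma rgn_two (β' : ℕ) :
    cnt GY {y' | ∃ j, X.lk s j ∧ X.rg j β y' ∧ (h = X.pl j ∨ h = X.pl j + 1)} y ≤ 2 := by
  by_cases hex : ∃ y0 j, X.lk s j ∧ X.rg j β y0 ∧ (h = X.pl j ∨ h = X.pl j + 1) ∧ GY.Adj y y0
  · obtain ⟨y0, j, h1, h2, h3, h4⟩ := hex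
    refine le_trans (cnt_mono_pt GY y ?_) (X.geo j h1.1 y)
    rintro u hadj ⟨i, h5, h6, h7⟩
    have hp : X.pl j = X.pl i := by
      have := pl_mod (X := X) i
      have := pl_mod (X := X) j
      omega
    have := rg_two h1 h5 h2 h6 hp h4 hadj
    subst this
    exact rg_P h5 h6
  · rw [cnt_eq_zero]
    · omega
    · rintro u ⟨i, h5, h6, h7⟩ hadj
      exact hex ⟨u, i, h5, h6, h7, hadj⟩

/-- neighbours of a place of the sparse set over the ends of the links -/
lemma rgn_one (hβ : 2 ≤ β) (hy : y ∈ X.D) :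
    cnt GY {y' | ∃ j, X.lk s j ∧ X.rg j β y' ∧ (h = X.pl j ∨ h = X.pl j + 1)} y ≤ 1 := by
  apply cnt_le_one
  rintro u ⟨i, h1, h2, h3⟩ v ⟨j, h4, h5, h6⟩ h7 h8
  have hp : X.pl i = X.pl j := by
    have := pl_mod (X := X) i
    have := pl_mod (X := X) j
    omega
  have := rg_two h1 h4 h2 h5 hp h7 h8
  subst this
  have he := X.ends i h1.1 y hy
  rcases rg_port h2 hβ with h9 | h9 <;> rcases rg_port h5 hβ with h10 | h10
  · rw [h9, h10]
  · exfalso; subst h9; subst h10; exact he ⟨h7, h8⟩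
  · exfalso; subst h9; subst h10; exact he ⟨h8, h7⟩
  · rw [h9, h10]

/-- off the axis and not next to it -/
lemma hc_far (hw : w ≠ Z.o) (hn : ¬ GW.Adj Z.o w) (h1 : 1 ≤ h) :
    X.HC Z Bx dur t s h β w y ≤ 3 := by
  unfold HC
  have hin : ∀ h' β' y', 1 ≤ h' → ¬ X.memH Z Bx dur t s h' β' w y' := by
    intro h' β' y' h2 h3
    exact hn (Z.nb _ (mem_off hw h2 h3).1)
  have hY : cnt GY {y' | X.memH Z Bx dur t s h β w y'} y = 0 :=
    cnt_eq_zero _ _ _ (fun u hu _ => hin _ _ _ h1 hu)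
  have hW : cnt GW {w' | X.memH Z Bx dur t s h β w' y} w ≤ 2 := by
    refine le_trans (cnt_mono_pt GW w ?_) (Z.cod w hw)
    intro u hadj hu
    by_cases hu0 : u = Z.o
    · subst hu0
      exact absurd hadj.symm hn
    · exact Z.nb _ (mem_off hu0 h1 hu).1
  rw [hY, iv_zero (p := 0 < β ∧ X.memH Z Bx dur t s h (β - 1) w y) (fun h => hin _ _ _ h1 h.2),
    iv_zero (p := X.memH Z Bx dur t s h (β + 1) w y) (hin _ _ _ h1),
    iv_zero (p := X.memH Z Bx dur t s (h + 1) β w y) (hin _ _ _ (by omega))]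
  have := iv_le (X.memH Z Bx dur t s (h - 1) β w y)
  omega

/-- the cross-section count next to the axis -/
lemma cW_nb (hn : GW.Adj Z.o w) (h1 : 1 ≤ h) :
    cnt GW {w' | X.memH Z Bx dur t s h β w' y} w ≤ iv (X.memH Z Bx dur t s h β Z.o y) := by
  by_cases hm : X.memH Z Bx dur t s h β Z.o y
  · rw [iv_one hm]
    apply cnt_le_one
    intro u hu v hv h2 h3
    have key : ∀ u, X.memH Z Bx dur t s h β u y → GW.Adj w u → u = Z.o := by
      intro u hu hadj
      by_contra hu0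
      exact Z.bip w u hn hadj (Z.nb _ (mem_off hu0 h1 hu).1)
    rw [key u hu h2, key v hv h3]
  · rw [iv_zero hm, Nat.le_zero]
    apply cnt_eq_zero
    intro u hu hadj
    by_cases hu0 : u = Z.o
    · subst hu0; exact hm hu
    · exact Z.bip w u hn hadj (Z.nb _ (mem_off hu0 h1 hu).1)

/-- next to the axis -/
lemma hc_nb (hn : GW.Adj Z.o w) (h1 : 1 ≤ h) (hH : h ≤ X.H) (hρ : 3 ≤ ρ)
    (hB : ∀ β w, Bx β w → 5 ≤ β) (hv : ¬ X.memH Z Bx dur t s h β w y) :
    X.HC Z Bx dur t s h β w y ≤ ρ := by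
  have hw : w ≠ Z.o := fun h' => by rw [h'] at hn; exact GW.irrefl hn
  have hW := cW_nb (X := X) (Bx := Bx) (dur := dur) (t := t) (s := s) (h := h) (β := β) (y := y)
    hn h1
  have hwall : β ≤ 4 → h = 1 → ¬ X.memH Z Bx dur t s (h - 1) β w y := by
    rintro h2 rfl h3
    rcases (mem_zero h3).2 with h4 | h4
    · have := hB _ _ h4.1; omega
    · omega
  -- not in the region of a link
  have hreg : ∀ j, X.lk s j → X.rg j β y → h = X.pl j → w ∉ Z.Θ := by
    intro j h2 h3 h4 h5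
    exact hv (Or.inl (Or.inr (Or.inr ⟨j, h2, h3, Or.inl ⟨h4, h5⟩⟩)))
  unfold HC
  have i0 := iv_le (X.memH Z Bx dur t s h β Z.o y)
  have i1 := iv_le (0 < β ∧ X.memH Z Bx dur t s h (β - 1) w y)
  have i2 := iv_le (X.memH Z Bx dur t s h (β + 1) w y)
  have i3 := iv_le (X.memH Z Bx dur t s (h - 1) β w y)
  have i4 := iv_le (X.memH Z Bx dur t s (h + 1) β w y)
  rcases Nat.lt_or_ge 6 β with hb | hb
  · -- β ≥ 7
    have hY : cnt GY {y' | X.memH Z Bx dur t s h β w y'} y = 0 :=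
      cnt_eq_zero _ _ _ (fun u hu _ => mem_seven h1 (by omega) hu)
    rw [hY, iv_zero (p := X.memH Z Bx dur t s h (β + 1) w y) (mem_seven h1 (by omega)),
      iv_zero (p := X.memH Z Bx dur t s (h + 1) β w y) (mem_seven (by omega) (by omega))]
    rw [iv_zero (p := X.memH Z Bx dur t s h β Z.o y) (mem_seven h1 (by omega))] at hW
    omega
  rcases Nat.lt_or_ge 5 β with hb5 | hb5
  · -- β = 6
    have hb6 : β = 6 := by omega
    subst hb6
    have hoff : ∀ h' y', 1 ≤ h' → ¬ X.memH Z Bx dur t s h' 6 w y' := by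
      intro h' y' h2 h3
      rcases (mem_off hw h2 h3).2 with h4 | ⟨j, h4, h5, h6⟩
      · omega
      · have := rg_bd h5; omega
    have hY : cnt GY {y' | X.memH Z Bx dur t s h 6 w y'} y = 0 :=
      cnt_eq_zero _ _ _ (fun u hu _ => hoff _ _ h1 hu)
    rw [hY, iv_zero (p := X.memH Z Bx dur t s h (6 + 1) w y) (mem_seven h1 (by omega)),
      iv_zero (p := X.memH Z Bx dur t s (h + 1) 6 w y) (hoff _ _ (by omega))]
    omega
  rcases Nat.lt_or_ge 4 β with hb4 | hb4
  · -- β = 5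
    have hb6 : β = 5 := by omega
    subst hb6
    have hs6 : ¬ X.memH Z Bx dur t s h (5 + 1) w y := by
      intro h3
      rcases (mem_off hw h1 h3).2 with h4 | ⟨j, h4, h5, h6⟩
      · omega
      · have := rg_bd h5; omega
    rw [iv_zero (p := X.memH Z Bx dur t s h (5 + 1) w y) hs6]
    by_cases hy : y ∈ X.D
    · have hΘ : w ∉ Z.Θp := fun h' => hv (Or.inl (Or.inr (Or.inl ⟨h1, hH, hy, Or.inl ⟨rfl, h'⟩⟩)))
      have hoff : ∀ h' y', 1 ≤ h' → ¬ X.memH Z Bx dur t s h' 5 w y' := by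
        intro h' y' h2 h3
        rcases (mem_off hw h2 h3).2 with h4 | ⟨j, h4, h5, h6⟩
        · exact hΘ h4.2.2
        · have := rg_bd h5; omega
      have hY : cnt GY {y' | X.memH Z Bx dur t s h 5 w y'} y = 0 :=
        cnt_eq_zero _ _ _ (fun u hu _ => hoff _ _ h1 hu)
      rw [hY, iv_zero (p := X.memH Z Bx dur t s (h + 1) 5 w y) (hoff _ _ (by omega))]
      omega
    · have hD : ∀ h' β' w', 2 ≤ β' → ¬ X.memH Z Bx dur t s h' β' w' y := fun h' β' w' h2 h3 =>
        hy (mem_D h2 h3)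
      rw [iv_zero (p := X.memH Z Bx dur t s h 5 Z.o y) (hD _ _ _ (by omega))] at hW
      rw [iv_zero (p := 0 < 5 ∧ X.memH Z Bx dur t s h (5 - 1) w y) (fun h' => hD _ _ _ (by omega) h'.2),
        iv_zero (p := X.memH Z Bx dur t s (h - 1) 5 w y) (hD _ _ _ (by omega)),
        iv_zero (p := X.memH Z Bx dur t s (h + 1) 5 w y) (hD _ _ _ (by omega))]
      have hY : cnt GY {y' | X.memH Z Bx dur t s h 5 w y'} y ≤ cnt GY X.D y :=
        cnt_mono GY (fun u hu => mem_D (by omega) hu) y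
      have := out' hy
      omega
  -- β ≤ 4
  rcases Nat.eq_zero_or_pos β with hb0 | hb0
  · subst hb0
    have hY : cnt GY {y' | X.memH Z Bx dur t s h 0 w y'} y = 0 :=
      cnt_eq_zero _ _ _ (fun u hu _ => mem_nil h1 hu)
    rw [hY, iv_zero (p := 0 < 0 ∧ X.memH Z Bx dur t s h (0 - 1) w y) (by omega),
      iv_zero (p := X.memH Z Bx dur t s (h + 1) 0 w y) (mem_nil (by omega))]
    rw [iv_zero (p := X.memH Z Bx dur t s h 0 Z.o y) (mem_nil h1)] at hW
    omega
  by_cases hΘ : w ∈ Z.Θ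
  · have hreg' : ∀ j, X.lk s j → X.rg j β y → h ≠ X.pl j := fun j h2 h3 h4 =>
      hreg j h2 h3 h4 hΘ
    -- levels next to this one
    have hlev : ∀ h', 1 ≤ h' → X.memH Z Bx dur t s h' β w y → h' % 5 = 3 := by
      intro h' h2 h3
      rcases (mem_off hw h2 h3).2 with h4 | ⟨j, h4, h5, h6⟩
      · omega
      · rw [h6]; exact pl_mod j
    have j3 : iv (X.memH Z Bx dur t s (h - 1) β w y) ≤ iv (h % 5 = 4) := iv_mono (by
      intro h3
      rcases eq_or_ne h 1 with h4 | h4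
      · exact absurd h3 (hwall (by omega) h4)
      · have := hlev (h - 1) (by omega) h3
        omega)
    have j4 : iv (X.memH Z Bx dur t s (h + 1) β w y) ≤ iv (h % 5 = 2) := iv_mono (by
      intro h3
      have := hlev (h + 1) (by omega) h3
      omega)
    have hYs : ∀ u, X.memH Z Bx dur t s h β w u →
        ∃ j, X.lk s j ∧ X.rg j β u ∧ (h = X.pl j ∨ h = X.pl j + 1) := by
      intro u hu
      rcases (mem_off hw h1 hu).2 with h4 | ⟨j, h4, h5, h6⟩
      · omega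
      · exact ⟨j, h4, h5, Or.inl h6⟩
    have hYm : cnt GY {y' | X.memH Z Bx dur t s h β w y'} y ≤
        cnt GY {y' | ∃ j, X.lk s j ∧ X.rg j β y' ∧ (h = X.pl j ∨ h = X.pl j + 1)} y :=
      cnt_mono GY hYs y
    have hY2 := rgn_two (X := X) (s := s) (h := h) (β := β) (y := y) 0
    have hY3 : h % 5 ≠ 3 → cnt GY {y' | X.memH Z Bx dur t s h β w y'} y = 0 := by
      intro h2
      apply cnt_eq_zero
      intro u hu _
      rcases (mem_off hw h1 hu).2 with h4 | ⟨j, h4, h5, h6⟩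
      · omega
      · exact h2 (by rw [h6]; exact pl_mod j)
    have jW : iv (X.memH Z Bx dur t s h β Z.o y) ≤ iv (h % 5 = 4) := iv_mono (by
      intro h3
      rcases mem_ax h1 h3 with h4 | h4 | h4 | ⟨j, h4, h5, h6⟩
      · omega
      · omega
      · exact h4.2.1
      · rcases h6 with h6 | h6
        · exact absurd h6.1 (hreg' j h4 h5)
        · have := pl_mod (X := X) j
          omega)
    rcases Nat.lt_or_ge 3 β with hb3 | hb3
    · have hb6 : β = 4 := by omega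
      subst hb6
      have j1 : ¬ X.memH Z Bx dur t s h (4 - 1) w y := by
        intro h3
        rcases (mem_off hw h1 h3).2 with h4 | ⟨j, h4, h5, h6⟩
        · omega
        · exact hreg' j h4 (port_rg (rg_port h5 (by omega)) (by omega) (by omega)) h6
      rw [iv_zero (p := 0 < 4 ∧ X.memH Z Bx dur t s h (4 - 1) w y) (fun h' => j1 h'.2)]
      by_cases hy : y ∈ X.D
      · have hY1 := rgn_one (X := X) (s := s) (h := h) (β := 4) (y := y) (by omega) hy
        by_cases h53 : h % 5 = 3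
        · simp only [iv_eq] at *
          split_ifs at * <;> omega
        · have := hY3 h53
          simp only [iv_eq] at *
          split_ifs at * <;> omega
      · rw [iv_zero (p := X.memH Z Bx dur t s h (4 + 1) w y) (fun h' => hy (mem_D (by omega) h'))]
        by_cases h53 : h % 5 = 3
        · simp only [iv_eq] at *
          split_ifs at * <;> omega
        · have := hY3 h53
          simp only [iv_eq] at *
          split_ifs at * <;> omega
    · -- β ≤ 3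
      have j2 : ¬ X.memH Z Bx dur t s h (β + 1) w y := by
        intro h3
        rcases (mem_off hw h1 h3).2 with h4 | ⟨j, h4, h5, h6⟩
        · omega
        · exact hreg' j h4 (port_rg (rg_port h5 (by omega)) (by omega) (by omega)) h6
      rw [iv_zero (p := X.memH Z Bx dur t s h (β + 1) w y) j2]
      have j1 : iv (0 < β ∧ X.memH Z Bx dur t s h (β - 1) w y) ≤ iv (h % 5 = 3) := iv_mono (by
        rintro ⟨_, h3⟩
        rcases (mem_off hw h1 h3).2 with h4 | ⟨j, h4, h5, h6⟩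
        · omega
        · rw [h6]; exact pl_mod j)
      by_cases h53 : h % 5 = 3
      · simp only [iv_eq] at *
        split_ifs at * <;> omega
      · have := hY3 h53
        simp only [iv_eq] at *
        split_ifs at * <;> omega
  · -- not a helper: only the axis counts
    have hoff : ∀ h' β' y', 1 ≤ h' → ¬ X.memH Z Bx dur t s h' β' w y' := by
      intro h' β' y' h2 h3
      exact hΘ (mem_off hw h2 h3).1
    have hY : cnt GY {y' | X.memH Z Bx dur t s h β w y'} y = 0 :=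
      cnt_eq_zero _ _ _ (fun u hu _ => hoff _ _ _ h1 hu)
    rw [hY, iv_zero (p := 0 < β ∧ X.memH Z Bx dur t s h (β - 1) w y)
        (fun h' => hoff _ _ _ h1 h'.2),
      iv_zero (p := X.memH Z Bx dur t s h (β + 1) w y) (hoff _ _ _ h1),
      iv_zero (p := X.memH Z Bx dur t s (h + 1) β w y) (hoff _ _ _ (by omega))]
    omega

end YG

end Pool.Agent.Helper70.Gen
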