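import Mathlib
import Pool.Agent.Helper70.Thr3.Open

/-!
# Stacks of slices between two opened walls: complements
-/

set_option linter.unusedSectionVars false
set_option linter.unusedVariables false

namespace Pool.Agent.Helper70.Gen

open Set SimpleGraph Pool.Agent.Helper19.Perco Pool.Agent.Helper70.Duo Pool.Agent.Helper70.Thr3

variable {V : Type*} {G : SimpleGraph V} {m T K : ℕ} {P Q : Ty V} {Λ : Set V}

/-- the early vertices are symmetric -/
lemma CO_sym (hK : K % 2 = 0) {z : ℕ} (h1 : 1 ≤ z) (h2 : z < K) :
    CO K P Q (K - z) = CO K P Q z := by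
  by_cases h : z = 1 ∨ z + 1 = K
  · rw [CO_end h, CO_end (by omega)]
  · rw [CO_mid h, CO_mid (by omega)]
    have e1 : R P Q (K - z) = R P Q z := by
      unfold R
      have : (K - z) % 2 = z % 2 := by omega
      rw [this]
    have e2 : R P Q (K - z + 1) = R P Q (z + 1) := by
      unfold R
      have : (K - z + 1) % 2 = (z + 1) % 2 := by omega
      rw [this]
    rw [e1, e2]

/-- bound for the times -/
lemma sO_le (hP : Cond G m T P Q) (hQ : Cond G m T Q P) (hK2 : K % 2 = 0) (hK : 6 ≤ K) {z : ℕ}
    (h1 : 1 ≤ z) (h2 : z < K) (v : V) : sO T K P Q z v ≤ (K - 4) * T + 2 := by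
  by_cases hv : v ∈ CO K P Q z
  · rw [sO_C hv]; omega
  rcases Nat.lt_or_ge K (z + 3) with h3 | h3
  · rw [sO_top hv h3]; omega
  by_cases hR : v ∈ (R P Q z).C
  · have hz : z ≠ 1 := by
      rintro rfl
      rw [CO_end (Or.inl rfl)] at hv
      rw [R_odd P Q (by omega)] at hR
      exact hv hR
    have e : sO T K P Q z v = (z - 2) * T + (R P Q (z + 1)).σ v + 1 := by
      unfold sO; rw [if_neg hv, if_neg (by omega), if_pos hR]
    have h4 := (R_cond hP hQ (z + 1)).le v
    have h5 : (z - 2) * T + T ≤ (K - 4) * T := by
      rw [← T_mul_succ]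
      exact Nat.mul_le_mul_right _ (by omega)
    rw [e]; omega
  · rcases Nat.eq_or_lt_of_le h3 with h4 | h4
    · rw [sO_three hv h4 hR]; omega
    · have e : sO T K P Q z v = (z - 1) * T + (R P Q z).σ v := by
        unfold sO; rw [if_neg hv, if_neg (by omega), if_neg hR, if_neg (by omega)]
      have h4 := (R_cond hP hQ z).le v
      have h5 : (z - 1) * T + T ≤ (K - 4) * T := by
        rw [← T_mul_succ]
        exact Nat.mul_le_mul_right _ (by omega)
      rw [e]; omega

variable [Finite V]

/-- percolation of the slices from the first wall, which is opened also -/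
theorem open_perc2 (hP : Cond G m T P Q) (hQ : Cond G m T Q P) (hK2 : K % 2 = 0) (hK : 6 ≤ K)
    (hΛ : ∀ v ∈ Λ, v ≠ P.s → v ∈ P.A) (S : ℕ → Set V) (h0 : ∀ x, x ∉ Λ ∨ x = P.s → x ∈ S 0)
    (hA : ∀ z, 1 ≤ z → z < K → (R P Q z).A ⊆ S z) (hw : ∀ x, x ∉ Λ → x ∈ S K)
    (hcl : ∀ z, 1 ≤ z → z < K → ∀ x, m + 1 ≤ cnt G (S z) x +
      (iv (x ∈ S (z - 1)) + iv (x ∈ S (z + 1))) → x ∈ S z) :
    ∀ z, 1 ≤ z → z < K → ∀ x, x ∈ S z := by
  have hmid : ∀ z, z < K → ∀ x, (z = 0 → x ∉ Λ ∨ x = P.s) → x ∈ S z := by
    intro z
    induction z with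
    | zero => intro _ x hx; exact h0 x (hx rfl)
    | succ z ih =>
      intro hz x _
      have hR := R_cond hP hQ (z + 1)
      -- the slice below, or a seed
      have hdn : ∀ v, v ∈ S z ∨ v ∈ (R P Q (z + 1)).A := by
        intro v
        rcases Nat.eq_zero_or_pos z with h3 | h3
        · subst h3
          by_cases h4 : v ∉ Λ ∨ v = P.s
          · left; exact ih (by omega) v (fun _ => h4)
          · push Not at h4
            right
            rw [R_odd P Q (by omega)]
            exact hΛ v h4.1 h4.2
        · left; exact ih (by omega) v (fun h => by omega)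
      refine hR.he _ ?_ ?_ ?_ x
      · exact hA (z + 1) (by omega) (by omega)
      · intro v hv
        rcases hdn v with h3 | h3
        · apply hcl (z + 1) (by omega) hz
          rw [iv_one (p := v ∈ S (z + 1 - 1)) h3]
          omega
        · exact hA (z + 1) (by omega) (by omega) h3
      · intro v hv hvc hm
        rcases hdn v with h3 | h3
        · have hup : v ∈ S (z + 1 + 1) ∨ v ∈ (R P Q (z + 1)).A := by
            rcases eq_or_ne (z + 2) K with h4 | h4
            · by_cases h5 : v ∈ Λ
              · right
                rw [R_odd P Q (by omega)]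
                by_cases h6 : v = P.s
                · exfalso
                  rw [R_even P Q (by omega), h6] at hv
                  exact hP.sQ (hQ.AC hv)
                · exact hΛ v h5 h6
              · left
                rw [h4]
                exact hw v h5
            · left
              exact hA (z + 1 + 1) (by omega) (by omega) hv
          rcases hup with h4 | h4
          · apply hcl (z + 1) (by omega) hz
            rw [iv_one (p := v ∈ S (z + 1 - 1)) h3, iv_one (p := v ∈ S (z + 1 + 1)) h4]
            omega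
          · exact hA (z + 1) (by omega) (by omega) h4
        · exact hA (z + 1) (by omega) (by omega) h3
  intro z h1 h2 x
  exact hmid z h2 x (fun h => by omega)

end Pool.Agent.Helper70.Gen
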