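import Mathlib
import Pool.Agent.Helper70.Gen.Emb
import Pool.Agent.Helper70.Gen.Lev
import Pool.Agent.Helper70.Gen.Open2

/-!
# General thresholds: the walls and the slices
-/

set_option linter.unusedSectionVars false
set_option linter.unusedVariables false

namespace Pool.Agent.Helper70.Gen

open Set SimpleGraph Pool.Agent.Helper19.Perco Pool.Agent.Helper70.Duo Pool.Agent.Helper70.Thr3

/-- the box of the cross-section -/
def Tb.Bx {e L n : ℕ} {sz : Fin e → ℕ} (B : Tb e L sz) (hf : Tb.Fit L n sz) (β : ℕ)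
    (w : Fin e → Fin n) : Prop :=
  ∃ h : β < n, ((⟨β, h⟩, w) : Fin n × (Fin e → Fin n)) ∈ Set.range (B.ι hf)

/-- duration of a line -/
def dur (T K : ℕ) : ℕ := (K - 4) * T + 1

lemma dz_mid {K j z : ℕ} (h1 : 1 ≤ z) (h2 : z < K) : 1 ≤ dz K j z ∧ dz K j z < K := by
  unfold dz; split_ifs <;> omega

lemma dz_succ {K j z : ℕ} (h1 : 1 ≤ z) (h2 : z < K) :
    (dz K j (z - 1) = dz K j z - 1 ∧ dz K j (z + 1) = dz K j z + 1) ∨
    (dz K j (z - 1) = dz K j z + 1 ∧ dz K j (z + 1) = dz K j z - 1) := by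
  unfold dz; split_ifs
  · left; exact ⟨rfl, rfl⟩
  · right; exact ⟨by omega, by omega⟩

namespace YG

variable {Y : Type} {GY : SimpleGraph Y} {μ ρ : ℕ} (X : YG GY μ ρ)
variable {e L n : ℕ} {sz : Fin e → ℕ} (B : Tb e L sz) (hf : Tb.Fit L n sz)
variable (Z : WS (Gd e n) e μ) (K : ℕ)

/-- height of the lower wall -/
def zB : ℕ := X.H + 1

/-- the vertices of slice `z` counted at time `t` -/
def memS (t z : ℕ) (u : B.V) (y : Y) : Prop :=
  y ∈ X.Fu ∨ ∃ i ≤ X.F, y = X.line i ∧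
    (u ∈ CO K B.P B.Q (dz K i z) ∨ i * dur B.T K + sO B.T K B.P B.Q (dz K i z) u ≤ t)

/-- the vertices of layer `z` counted at time `t` -/
def Lv (t : ℕ) (y : Y) (z : ℕ) : Set (Fin n × (Fin e → Fin n)) :=
  {v | (z ≤ X.zB ∧ X.memH Z (B.Bx hf) (dur B.T K) t 1 (X.zB - z) v.1.val v.2 y) ∨
    (X.zB < z ∧ z < X.zB + K ∧ ∃ u, B.ι hf u = v ∧ X.memS B K t (z - X.zB) u y) ∨
    (X.zB + K ≤ z ∧ X.memH Z (B.Bx hf) (dur B.T K) t 0 (z - (X.zB + K)) v.1.val v.2 y)}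

/-- all vertices counted at time `t` -/
def mem (t : ℕ) : Set (((Fin n × (Fin e → Fin n)) × Fin n) × Y) :=
  {p | p.1.1 ∈ X.Lv B hf Z K t p.2 p.1.2.val}

variable {X B hf Z K} {t : ℕ} {y : Y}

lemma Bx_iff {v : Fin n × (Fin e → Fin n)} : B.Bx hf v.1.val v.2 ↔ v ∈ Set.range (B.ι hf) :=
  ⟨fun h => h.2, fun h => ⟨v.1.isLt, h⟩⟩

lemma Bx_five {β : ℕ} {w : Fin e → Fin n} (h : B.Bx hf β w) : 5 ≤ β :=
  ((Tb.mem_range hf).1 h.2).1

lemma Lv_bot {z : ℕ} (hz : z ≤ X.zB) (hK : 6 ≤ K) : X.Lv B hf Z K t y z =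
    {v | X.memH Z (B.Bx hf) (dur B.T K) t 1 (X.zB - z) v.1.val v.2 y} := by
  ext v
  constructor
  · rintro (h | h | h)
    · exact h.2
    · omega
    · omega
  · intro h; exact Or.inl ⟨hz, h⟩

lemma Lv_mid {z : ℕ} (hz : X.zB < z) (hz2 : z < X.zB + K) : X.Lv B hf Z K t y z =
    {v | ∃ u, B.ι hf u = v ∧ X.memS B K t (z - X.zB) u y} := by
  ext v
  constructor
  · rintro (h | h | h)
    · omega
    · exact h.2.2
    · omega
  · intro h; exact Or.inr (Or.inl ⟨hz, hz2, h⟩)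

lemma Lv_top {z : ℕ} (hz : X.zB + K ≤ z) (hK : 6 ≤ K) : X.Lv B hf Z K t y z =
    {v | X.memH Z (B.Bx hf) (dur B.T K) t 0 (z - (X.zB + K)) v.1.val v.2 y} := by
  ext v
  constructor
  · rintro (h | h | h)
    · omega
    · omega
    · exact h.2
  · intro h; exact Or.inr (Or.inr ⟨hz, h⟩)

lemma memS_D {z : ℕ} {u : B.V} (h : X.memS B K t z u y) : y ∈ X.D := by
  rcases h with h | ⟨j, hj, h, _⟩
  · exact Or.inl h
  · rw [h]; exact line_D hj

lemma mem_Lv_mid {z : ℕ} (hz : X.zB < z) (hz2 : z < X.zB + K) {u : B.V} :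
    B.ι hf u ∈ X.Lv B hf Z K t y z ↔ X.memS B K t (z - X.zB) u y := by
  rw [Lv_mid hz hz2]
  constructor
  · rintro ⟨u', h1, h2⟩
    rw [Tb.ι_inj hf h1] at h2
    exact h2
  · intro h; exact ⟨u, rfl, h⟩

variable [Finite Y]

lemma cnt_mem (v : Fin n × (Fin e → Fin n)) (z : Fin n) (y : Y) :
    cnt ((Gv e n □ pathGraph n) □ GY) (X.mem B hf Z K t) ((v, z), y) =
      (cnt (Gv e n) (X.Lv B hf Z K t y z.val) v +
        (iv (0 < z.val ∧ v ∈ X.Lv B hf Z K t y (z.val - 1)) +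
          iv (z.val + 1 < n ∧ v ∈ X.Lv B hf Z K t y (z.val + 1)))) +
      cnt GY {y' | v ∈ X.Lv B hf Z K t y' z.val} y := by
  rw [cnt_boxProd]
  congr 1
  exact cnt_lay' (Gv e n) n (X.Lv B hf Z K t y) v z

/-- counts in the cross-section -/
lemma cnt_Gv (M : ℕ → (Fin e → Fin n) → Prop) (v : Fin n × (Fin e → Fin n)) :
    cnt (Gv e n) {v' | M v'.1.val v'.2} v ≤ iv (0 < v.1.val ∧ M (v.1.val - 1) v.2) +
      iv (M (v.1.val + 1) v.2) + cnt (Gd e n) {w' | M v.1.val w'} v.2 := by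
  obtain ⟨β, w⟩ := v
  rw [cnt_boxProd]
  have h := cnt_path n (fun i => M i w) β
  have h2 : cnt (pathGraph n) {x' | (x', w) ∈ {v' : Fin n × (Fin e → Fin n) | M v'.1.val v'.2}} β =
      iv (0 < β.val ∧ M (β.val - 1) w) + iv (β.val + 1 < n ∧ M (β.val + 1) w) := by
    refine h.trans ?_
    unfold iv; congr
  have h3 : iv (β.val + 1 < n ∧ M (β.val + 1) w) ≤ iv (M (β.val + 1) w) := iv_mono (fun h => h.2)
  rw [h2]
  show _ + cnt (Gd e n) {w' | M β.val w'} w ≤ _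
  show iv (0 < β.val ∧ M (β.val - 1) w) + iv (β.val + 1 < n ∧ M (β.val + 1) w) +
    cnt (Gd e n) {w' | M β.val w'} w ≤ iv (0 < β.val ∧ M (β.val - 1) w) + iv (M (β.val + 1) w) +
    cnt (Gd e n) {w' | M β.val w'} w
  omega

/-- the walls -/
lemma wall_count {s : ℕ} {v : Fin n × (Fin e → Fin n)} {sl : Prop} (hμ : 1 ≤ μ)
    (hρ : e + μ + 1 ≤ ρ) (ho : B.Bx hf 5 Z.o) (hp : ∀ w ∈ Z.Θp, B.Bx hf 5 w)
    (ho6 : B.Bx hf 6 Z.o) (h1 : y ∉ X.D → ¬ sl) (h2 : ¬ B.Bx hf v.1.val v.2 → ¬ sl)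
    (h3 : v.1.val = 5 → v.2 = Z.o → y ∈ X.D → ¬ X.on (dur B.T K) (t + 1) s y → ¬ sl)
    (hv : ¬ X.memH Z (B.Bx hf) (dur B.T K) (t + 1) s 0 v.1.val v.2 y) :
    cnt (Gv e n) {v' | X.memH Z (B.Bx hf) (dur B.T K) t s 0 v'.1.val v'.2 y} v +
    (iv (X.memH Z (B.Bx hf) (dur B.T K) t s 1 v.1.val v.2 y) + iv sl) +
    cnt GY {y' | X.memH Z (B.Bx hf) (dur B.T K) t s 0 v.1.val v.2 y'} y ≤ ρ := by
  have hbx : ∀ β w y', X.memH Z (B.Bx hf) (dur B.T K) t s 0 β w y' → B.Bx hf β w := by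
    intro β w y' h
    rcases (mem_zero h).2 with h4 | ⟨h4, h5, _⟩
    · exact h4.1
    · rw [h4, h5]; exact ho
  have hbx1 : ∀ β w y', X.memH Z (B.Bx hf) (dur B.T K) t s 1 β w y' → B.Bx hf β w := by
    intro β w y' h
    by_cases hw : w = Z.o
    · subst hw
      rcases mem_ax le_rfl h with h4 | h4 | h4 | ⟨j, h4, h5, h6⟩
      · rw [h4.1]; exact ho
      · rw [h4.1]; exact ho6
      · omega
      · have := pl_mod (X := X) j
        omega
    · rcases (mem_off hw le_rfl h).2 with h4 | ⟨j, h4, h5, h6⟩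
      · rw [h4.1]; exact hp w h4.2.2
      · have := pl_mod (X := X) j
        omega
  by_cases hb : B.Bx hf v.1.val v.2
  swap
  · have c1 : cnt (Gv e n) {v' | X.memH Z (B.Bx hf) (dur B.T K) t s 0 v'.1.val v'.2 y} v ≤ 1 := by
      refine le_trans (cnt_mono _ ?_ v) (Tb.cnt_out hf (fun h => hb (Bx_iff.2 h)))
      intro v' h
      exact Bx_iff.1 (hbx _ _ _ h)
    have c2 : cnt GY {y' | X.memH Z (B.Bx hf) (dur B.T K) t s 0 v.1.val v.2 y'} y = 0 :=
      cnt_eq_zero _ _ _ (fun u hu _ => hb (hbx _ _ _ hu))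
    rw [c2, iv_zero (h2 hb), iv_zero (fun h => hb (hbx1 _ _ _ h))]
    omega
  by_cases hy : y ∈ X.D
  swap
  · have c1 : cnt (Gv e n) {v' | X.memH Z (B.Bx hf) (dur B.T K) t s 0 v'.1.val v'.2 y} v = 0 :=
      cnt_eq_zero _ _ _ (fun u hu _ => hy (mem_zero hu).1)
    have h5 := Bx_five hb
    have c3 : ¬ X.memH Z (B.Bx hf) (dur B.T K) t s 1 v.1.val v.2 y := fun h =>
      hy (mem_D (by omega) h)
    rw [c1, iv_zero (h1 hy), iv_zero c3]
    have c2 : cnt GY {y' | X.memH Z (B.Bx hf) (dur B.T K) t s 0 v.1.val v.2 y'} y ≤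
        cnt GY X.D y := cnt_mono GY (fun u hu => (mem_zero hu).1) y
    have := out' hy
    omega
  have hc : v.1.val = 5 ∧ v.2 ∈ Z.Λ := by
    by_contra h
    exact hv (Or.inl (Or.inl ⟨rfl, hy, hb, h⟩))
  obtain ⟨hc1, hc2⟩ := hc
  have c0 := cnt_Gv (fun β w => X.memH Z (B.Bx hf) (dur B.T K) t s 0 β w y) v
  have c4 : ¬ (0 < v.1.val ∧ X.memH Z (B.Bx hf) (dur B.T K) t s 0 (v.1.val - 1) v.2 y) := by
    rintro ⟨_, h⟩
    have := Bx_five (hbx _ _ _ h)
    omega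
  rw [iv_zero c4] at c0
  have i1 := iv_le (X.memH Z (B.Bx hf) (dur B.T K) t s 0 (v.1.val + 1) v.2 y)
  have cW : cnt (Gd e n) {w' | X.memH Z (B.Bx hf) (dur B.T K) t s 0 v.1.val w' y} v.2 ≤ e := by
    refine le_trans (cnt_mono _ ?_ _) (Z.cΛ v.2 hc2)
    intro w' h
    rcases (mem_zero h).2 with h4 | h4
    · left
      intro h5
      exact h4.2 ⟨hc1, h5⟩
    · right; exact h4.2.1
  by_cases hw : v.2 = Z.o
  · have hon : ¬ X.on (dur B.T K) (t + 1) s y := by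
      intro h
      exact hv (Or.inr (Or.inl ⟨Nat.zero_le _, hc1, hw, h⟩))
    have hon' : ¬ X.on (dur B.T K) t s y := fun h => hon (on_mono (by omega) h)
    have c3 : ¬ X.memH Z (B.Bx hf) (dur B.T K) t s 1 v.1.val v.2 y := by
      rw [hw]
      intro h
      rcases mem_ax le_rfl h with h4 | h4 | h4 | ⟨j, h4, h5, h6⟩
      · exact hon' h4.2
      · omega
      · omega
      · have := rg_bd h5
        omega
    have c2 : cnt GY {y' | X.memH Z (B.Bx hf) (dur B.T K) t s 0 v.1.val v.2 y'} y ≤ μ := by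
      refine le_trans (cnt_mono GY ?_ y) (on_cnt hy hon')
      intro u h
      rcases (mem_zero h).2 with h4 | h4
      · exact absurd ⟨hc1, hc2⟩ h4.2
      · exact h4.2.2
    rw [iv_zero (h3 hc1 hw hy hon), iv_zero c3]
    omega
  · have c3 : ¬ X.memH Z (B.Bx hf) (dur B.T K) t s 1 v.1.val v.2 y := by
      intro h
      rcases (mem_off hw le_rfl h).2 with h4 | ⟨j, h4, h5, h6⟩
      · exact Z.pΛ _ h4.2.2 hc2
      · have := rg_bd h5
        omega
    have c2 : cnt GY {y' | X.memH Z (B.Bx hf) (dur B.T K) t s 0 v.1.val v.2 y'} y = 0 := by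
      apply cnt_eq_zero
      intro u h _
      rcases (mem_zero h).2 with h4 | h4
      · exact h4.2 ⟨hc1, hc2⟩
      · exact hw h4.2.1
    rw [c2, iv_zero c3]
    have := iv_le sl
    omega

/-- the compatibility of the cross-section and its coordinates -/
structure Cmp (B : Tb e L sz) (hf : Tb.Fit L n sz) (Z : WS (Gd e n) e μ) : Prop where
  ιs : (B.ι hf B.P.s).1.val = 5
  ιo : (B.ι hf B.P.s).2 = Z.o
  lam : ∀ u, (B.ι hf u).1.val = 5 → (B.ι hf u).2 ∈ Z.Λ → u ≠ B.P.s → u ∈ B.P.A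
  bo : B.Bx hf 5 Z.o
  bp : ∀ w ∈ Z.Θp, B.Bx hf 5 w
  bo6 : B.Bx hf 6 Z.o

/-- the open part of the walls -/
def LΛ (B : Tb e L sz) (hf : Tb.Fit L n sz) (Z : WS (Gd e n) e μ) : Set B.V :=
  {u | (B.ι hf u).1.val = 5 ∧ (B.ι hf u).2 ∈ Z.Λ}

lemma s_Λ (hc : Cmp B hf Z) : B.P.s ∈ LΛ B hf Z := by
  refine ⟨hc.ιs, ?_⟩
  rw [hc.ιo]; exact Z.oΛ

/-- times of the start vertex -/
lemma sO_s (hK2 : K % 2 = 0) (hK : 6 ≤ K) : sO B.T K B.P B.Q 1 B.P.s = 1 ∧
    sO B.T K B.P B.Q (K - 1) B.P.s = (K - 4) * B.T + 1 := by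
  have hR1 : R B.P B.Q 1 = B.P := R_odd B.P B.Q (by omega)
  refine ⟨?_, ?_⟩
  · rw [sO_eq_sU hK (by omega) (by omega), sU_main ?_ (by omega) (by rw [hR1]; exact B.hP.sP), hR1,
      B.hP.ss]
    · simp
    · rw [CU_one (by omega)]; exact B.hP.sP
  · rw [sO_top ?_ (by omega)]
    rw [CO_end (Or.inr (by omega))]; exact B.hP.sP

/-- the wall next to a slice of a line -/
lemma wall_line (hc : Cmp B hf Z) (hK2 : K % 2 = 0) (hK : 6 ≤ K) {j s z : ℕ} (hj : j ≤ X.F)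
    {u : B.V} (hz : (s = 1 ∧ z = 1) ∨ (s = 0 ∧ z + 1 = K))
    (hv1 : u ∉ CO K B.P B.Q (dz K j z))
    (hv2 : t + 1 < j * dur B.T K + sO B.T K B.P B.Q (dz K j z) u)
    (hm : X.memH Z (B.Bx hf) (dur B.T K) t s 0 (B.ι hf u).1.val (B.ι hf u).2 (X.line j)) :
    u ∉ LΛ B hf Z := by
  intro hΛ
  have hPC : u ∉ B.P.C := by
    rwa [CO_end (by unfold dz; split_ifs <;> omega)] at hv1
  have hvs : u = B.P.s := by
    by_contra h
    exact hPC (B.hP.AC (hc.lam u hΛ.1 hΛ.2 h))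
  obtain ⟨ts1, ts2⟩ := sO_s (B := B) hK2 hK
  have hmul : (j + 1) * dur B.T K = j * dur B.T K + dur B.T K := by ring
  have hon : X.on (dur B.T K) t s (X.line j) := by
    rcases (mem_zero hm).2 with h4 | h4
    · exact absurd hΛ h4.2
    · exact h4.2.2
  have htt : tt (dur B.T K) s j ≤ t := by
    rcases hon with h | ⟨i, h1, h2, h3⟩
    · exact absurd h (X.lineFu j hj)
    · rwa [X.inj j hj i h1 h2]
  unfold tt at htt
  rw [hvs] at hv2
  rcases Nat.mod_two_eq_zero_or_one j with h0 | h0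
  · rcases hz with ⟨rfl, rfl⟩ | ⟨rfl, h3⟩
    · rw [if_neg (by omega)] at htt
      have e1 : dz K j 1 = 1 := by unfold dz; rw [if_pos h0]
      rw [e1, ts1] at hv2
      omega
    · rw [if_pos (by omega)] at htt
      have e1 : dz K j z = K - 1 := by unfold dz; rw [if_pos h0]; omega
      rw [e1, ts2] at hv2
      unfold dur at *
      omega
  · rcases hz with ⟨rfl, rfl⟩ | ⟨rfl, h3⟩
    · rw [if_pos (by omega)] at htt
      have e1 : dz K j 1 = K - 1 := by unfold dz; rw [if_neg (by omega)]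
      rw [e1, ts2] at hv2
      unfold dur at *
      omega
    · rw [if_neg (by omega)] at htt
      have e1 : dz K j z = 1 := by unfold dz; rw [if_neg (by omega)]; omega
      rw [e1, ts1] at hv2
      omega

/-- membership of a later line in a slice -/
lemma later (hK2 : K % 2 = 0) (hK : 6 ≤ K) {i l z : ℕ} (hil : i < l) (h1 : 1 ≤ z) (h2 : z < K)
    {u : B.V} (hv1 : u ∉ CO K B.P B.Q (dz K i z))
    (hv2 : t + 1 < i * dur B.T K + sO B.T K B.P B.Q (dz K i z) u) :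
    ¬ (u ∈ CO K B.P B.Q (dz K l z) ∨ l * dur B.T K + sO B.T K B.P B.Q (dz K l z) u ≤ t) := by
  have hCO : ∀ j, CO K B.P B.Q (dz K j z) = CO K B.P B.Q z := by
    intro j
    unfold dz
    split_ifs
    · rfl
    · exact CO_sym hK2 h1 h2
  rintro (h | h)
  · rw [hCO] at h hv1
    exact hv1 h
  · have h3 := dz_mid (j := i) h1 h2
    have h4 := sO_le B.hP B.hQ hK2 hK h3.1 h3.2 u
    have h5 : (i + 1) * dur B.T K ≤ l * dur B.T K := Nat.mul_le_mul_right _ hil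
    have hmul : (i + 1) * dur B.T K = i * dur B.T K + dur B.T K := by ring
    unfold dur at *
    omega

/-- the slices -/
lemma slice_count (hc : Cmp B hf Z) (hK2 : K % 2 = 0) (hK : 6 ≤ K) (hρ : e + μ + 1 ≤ ρ)
    {z : ℕ} (h1 : 1 ≤ z) (h2 : z < K) {v : Fin n × (Fin e → Fin n)}
    (hv : v ∉ X.Lv B hf Z K (t + 1) y (X.zB + z)) :
    (cnt (Gv e n) (X.Lv B hf Z K t y (X.zB + z)) v +
        (iv (v ∈ X.Lv B hf Z K t y (X.zB + z - 1)) + iv (v ∈ X.Lv B hf Z K t y (X.zB + z + 1)))) +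
      cnt GY {y' | v ∈ X.Lv B hf Z K t y' (X.zB + z)} y ≤ ρ := by
  have e5 : X.zB + z - X.zB = z := by omega
  have hzB : 1 ≤ X.zB := by unfold zB; omega
  have hLz : ∀ t y', X.Lv B hf Z K t y' (X.zB + z) =
      {v | ∃ u, B.ι hf u = v ∧ X.memS B K t z u y'} := by
    intro t y'
    rw [Lv_mid (by omega) (by omega), e5]
  have hsub : ∀ t y', X.Lv B hf Z K t y' (X.zB + z) ⊆ Set.range (B.ι hf) := by
    intro t y' x hx
    rw [hLz] at hx
    obtain ⟨u, h3, _⟩ := hx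
    exact ⟨u, h3⟩
  -- layers next to a slice are contained in the box
  have hwb : ∀ s, ∀ x : Fin n × (Fin e → Fin n),
      X.memH Z (B.Bx hf) (dur B.T K) t s 0 x.1.val x.2 y → x ∈ Set.range (B.ι hf) ∧ y ∈ X.D := by
    intro s x hx
    refine ⟨?_, (mem_zero hx).1⟩
    rcases (mem_zero hx).2 with h4 | ⟨h4, h5, _⟩
    · exact Bx_iff.1 h4.1
    · apply Bx_iff.1
      rw [h4, h5]; exact hc.bo
  have hdnb : v ∈ X.Lv B hf Z K t y (X.zB + z - 1) → v ∈ Set.range (B.ι hf) ∧ y ∈ X.D := by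
    rcases eq_or_ne z 1 with hz | hz
    · subst hz
      rw [Lv_bot (by omega) hK]
      intro h
      have e0 : X.zB - (X.zB + 1 - 1) = 0 := by omega
      have h' : X.memH Z (B.Bx hf) (dur B.T K) t 1 (X.zB - (X.zB + 1 - 1)) v.1.val v.2 y := h
      rw [e0] at h'
      exact hwb _ _ h'
    · rw [Lv_mid (by omega) (by omega)]
      rintro ⟨u, h3, h4⟩
      exact ⟨⟨u, h3⟩, memS_D h4⟩
  have hupb : v ∈ X.Lv B hf Z K t y (X.zB + z + 1) → v ∈ Set.range (B.ι hf) ∧ y ∈ X.D := by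
    rcases eq_or_ne (z + 1) K with hz | hz
    · rw [Lv_top (by omega) hK]
      intro h
      have e0 : X.zB + z + 1 - (X.zB + K) = 0 := by omega
      have h' : X.memH Z (B.Bx hf) (dur B.T K) t 0 (X.zB + z + 1 - (X.zB + K)) v.1.val v.2 y := h
      rw [e0] at h'
      exact hwb _ _ h'
    · rw [Lv_mid (by omega) (by omega)]
      rintro ⟨u, h3, h4⟩
      exact ⟨⟨u, h3⟩, memS_D h4⟩
  by_cases hr : v ∈ Set.range (B.ι hf)
  swap
  · have c1 : cnt (Gv e n) (X.Lv B hf Z K t y (X.zB + z)) v ≤ 1 :=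
      (cnt_mono _ (hsub t y) v).trans (Tb.cnt_out hf hr)
    have c2 : cnt GY {y' | v ∈ X.Lv B hf Z K t y' (X.zB + z)} y = 0 :=
      cnt_eq_zero _ _ _ (fun u hu _ => hr (hsub _ _ hu))
    rw [c2, iv_zero (fun h => hr (hdnb h).1), iv_zero (fun h => hr (hupb h).1)]
    omega
  obtain ⟨u, rfl⟩ := hr
  by_cases hy : y ∈ X.D
  swap
  · have c1 : cnt (Gv e n) (X.Lv B hf Z K t y (X.zB + z)) (B.ι hf u) = 0 := by
      apply cnt_eq_zero
      intro x hx _
      rw [hLz] at hx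
      obtain ⟨u', _, h4⟩ := hx
      exact hy (memS_D h4)
    rw [c1, iv_zero (fun h => hy (hdnb h).2), iv_zero (fun h => hy (hupb h).2)]
    have c2 : cnt GY {y' | B.ι hf u ∈ X.Lv B hf Z K t y' (X.zB + z)} y ≤ cnt GY X.D y := by
      apply cnt_mono
      intro y' hy'
      have h4 : B.ι hf u ∈ X.Lv B hf Z K t y' (X.zB + z) := hy'
      rw [mem_Lv_mid (by omega) (by omega)] at h4
      exact memS_D h4
    have := out' hy
    omega
  -- the place is a line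
  rw [mem_Lv_mid (by omega) (by omega), e5] at hv
  have hyl : y ∉ X.Fu := fun h => hv (Or.inl h)
  obtain ⟨j, hj, hyj⟩ : ∃ j ≤ X.F, y = X.line j := by
    rcases hy with h | h
    · exact absurd h hyl
    · exact h
  subst hyj
  have hv1 : u ∉ CO K B.P B.Q (dz K j z) := fun h => hv (Or.inr ⟨j, hj, rfl, Or.inl h⟩)
  have hv2 : t + 1 < j * dur B.T K + sO B.T K B.P B.Q (dz K j z) u := by
    by_contra h
    exact hv (Or.inr ⟨j, hj, rfl, Or.inr (by omega)⟩)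
  have hdz := dz_mid (j := j) h1 h2
  have hmS : ∀ z' u', 1 ≤ z' → z' < K → X.memS B K t z' u' (X.line j) →
      u' ∈ FO B.T K B.P B.Q (LΛ B hf Z) (sO B.T K B.P B.Q (dz K j z) u) (dz K j z') := by
    rintro z' u' h3 h4 (h | ⟨i, hi, h, h5⟩)
    · exact absurd h hyl
    · have := X.inj _ hj i hi h
      subst this
      have hdz' := dz_mid (j := j) h3 h4
      rw [mem_FO_mid hdz'.1 hdz'.2]
      rcases h5 with h5 | h5
      · exact Or.inl h5
      · right; omega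
  have hdn : B.ι hf u ∈ X.Lv B hf Z K t (X.line j) (X.zB + z - 1) →
      u ∈ FO B.T K B.P B.Q (LΛ B hf Z) (sO B.T K B.P B.Q (dz K j z) u) (dz K j (z - 1)) := by
    rcases eq_or_ne z 1 with hz | hz
    · subst hz
      rw [Lv_bot (by omega) hK]
      intro h
      have e0 : X.zB - (X.zB + 1 - 1) = 0 := by omega
      have h' : X.memH Z (B.Bx hf) (dur B.T K) t 1 (X.zB - (X.zB + 1 - 1)) (B.ι hf u).1.val
        (B.ι hf u).2 (X.line j) := h
      rw [e0] at h'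
      have h3 := wall_line hc hK2 hK hj (Or.inl ⟨rfl, rfl⟩) hv1 hv2 h'
      rw [mem_FO_wall (by unfold dz; split_ifs <;> omega)]
      exact h3
    · rw [mem_Lv_mid (by omega) (by omega)]
      intro h
      have e : X.zB + z - 1 - X.zB = z - 1 := by omega
      rw [e] at h
      exact hmS _ _ (by omega) (by omega) h
  have hup : B.ι hf u ∈ X.Lv B hf Z K t (X.line j) (X.zB + z + 1) →
      u ∈ FO B.T K B.P B.Q (LΛ B hf Z) (sO B.T K B.P B.Q (dz K j z) u) (dz K j (z + 1)) := by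
    rcases eq_or_ne (z + 1) K with hz | hz
    · rw [Lv_top (by omega) hK]
      intro h
      have e0 : X.zB + z + 1 - (X.zB + K) = 0 := by omega
      have h' : X.memH Z (B.Bx hf) (dur B.T K) t 0 (X.zB + z + 1 - (X.zB + K)) (B.ι hf u).1.val
        (B.ι hf u).2 (X.line j) := h
      rw [e0] at h'
      have h3 := wall_line hc hK2 hK hj (Or.inr ⟨rfl, hz⟩) hv1 hv2 h'
      rw [mem_FO_wall (by unfold dz; split_ifs <;> omega)]
      exact h3
    · rw [mem_Lv_mid (by omega) (by omega)]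
      intro h
      have e : X.zB + z + 1 - X.zB = z + 1 := by omega
      rw [e] at h
      exact hmS _ _ (by omega) (by omega) h
  have := B.fin
  have hcn : cnt (Gv e n) (X.Lv B hf Z K t (X.line j) (X.zB + z)) (B.ι hf u) ≤
      cnt B.G (FO B.T K B.P B.Q (LΛ B hf Z) (sO B.T K B.P B.Q (dz K j z) u) (dz K j z)) u := by
    refine (Tb.cnt_emb_le hf _ u (hsub t _)).trans (cnt_mono _ ?_ u)
    intro u' hu'
    have h4 : B.ι hf u' ∈ X.Lv B hf Z K t (X.line j) (X.zB + z) := hu'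
    rw [mem_Lv_mid (by omega) (by omega), e5] at h4
    exact hmS _ _ h1 h2 h4
  have hNO := NO_all B.hP B.hQ hK2 hK (s_Λ hc) hdz.1 hdz.2 hv1
  unfold NO at hNO
  have i1 := iv_mono hdn
  have i2 := iv_mono hup
  have hY : cnt GY {y' | B.ι hf u ∈ X.Lv B hf Z K t y' (X.zB + z)} (X.line j) ≤ μ := by
    refine le_trans (cnt_mono GY ?_ _) (X.inn j hj).le
    intro y' hy'
    have h4 : B.ι hf u ∈ X.Lv B hf Z K t y' (X.zB + z) := hy'
    rw [mem_Lv_mid (by omega) (by omega), e5] at h4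
    rcases h4 with h4 | ⟨l, hl, h4, h5⟩
    · exact Or.inl h4
    · right
      refine ⟨l, ?_, h4⟩
      by_contra hlt
      rcases Nat.eq_or_lt_of_le (not_lt.1 hlt) with h6 | h6
      · subst h6
        rcases h5 with h5 | h5
        · exact hv1 h5
        · omega
      · exact later hK2 hK h6 h1 h2 hv1 hv2 h5
  rcases dz_succ (j := j) h1 h2 with ⟨e1, e2⟩ | ⟨e1, e2⟩
  · rw [e1] at i1; rw [e2] at i2; omega
  · rw [e1] at i1; rw [e2] at i2; omega

end YG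

end Pool.Agent.Helper70.Gen
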