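import Mathlib
import Pool.Agent.Helper70.Gen.Lev

/-!
# General thresholds: counts beyond the walls, on the axis
-/

set_option linter.unusedSectionVars false
set_option linter.unusedVariables false

namespace Pool.Agent.Helper70.Gen

open Set SimpleGraph Pool.Agent.Helper19.Perco Pool.Agent.Helper70.Duo

namespace YG

variable {Y : Type} {GY : SimpleGraph Y} {μ ρ : ℕ} {X : YG GY μ ρ}
variable {W : Type} {GW : SimpleGraph W} {e μ' : ℕ} {Z : WS GW e μ'} {Bx : ℕ → W → Prop}
variable {dur t s h β : ℕ} {w : W} {y : Y}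
variable [Finite Y] [Finite W]

/-- outside the sparse set, at `β ≥ 4` on the axis -/
lemma hc_out (h1 : 1 ≤ h) (hβ : 4 ≤ β) (hy : y ∉ X.D) :
    X.HC Z Bx dur t s h β Z.o y ≤ cnt GY X.D y := by
  have hD : ∀ h' β' w', 2 ≤ β' → ¬ X.memH Z Bx dur t s h' β' w' y := fun h' β' w' h2 h3 =>
    hy (mem_D h2 h3)
  have hW : cnt GW {w' | X.memH Z Bx dur t s h β w' y} Z.o = 0 :=
    cnt_eq_zero _ _ _ (fun u hu _ => hD _ _ _ (by omega) hu)
  unfold HC
  rw [hW, iv_zero (p := 0 < β ∧ X.memH Z Bx dur t s h (β - 1) Z.o y)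
      (fun h' => hD _ _ _ (by omega) h'.2),
    iv_zero (p := X.memH Z Bx dur t s h (β + 1) Z.o y) (hD _ _ _ (by omega)),
    iv_zero (p := X.memH Z Bx dur t s (h - 1) β Z.o y) (hD _ _ _ (by omega)),
    iv_zero (p := X.memH Z Bx dur t s (h + 1) β Z.o y) (hD _ _ _ (by omega))]
  have hY : cnt GY {y' | X.memH Z Bx dur t s h β Z.o y'} y ≤ cnt GY X.D y :=
    cnt_mono GY (fun u hu => mem_D (by omega) hu) y
  omega

/-- the cross-section count on the axis -/
lemma cW_ax (h1 : 1 ≤ h) : cnt GW {w' | X.memH Z Bx dur t s h β w' y} Z.o ≤ e + μ' := by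
  refine le_trans (cnt_mono_pt GW Z.o ?_) Z.cΘ.le
  intro u hadj hu
  exact (mem_off (fun h' => by rw [h'] at hadj; exact GW.irrefl hadj) h1 hu).1

/-- conducting vertices -/
lemma hc_cond (hB : ∀ β w, Bx β w → 5 ≤ β) (hρ : e + μ' + 1 ≤ ρ) {j : ℕ} (hj : X.lk s j)
    (hr : X.rg j β y) (hh : h = X.pl j) (ht : ¬ (j + 1) * dur ≤ t) :
    X.HC Z Bx dur t s h β Z.o y ≤ ρ := by
  have hm3 := pl_mod (X := X) j
  have h1 : 1 ≤ h := by omega
  have hb := rg_bd hr
  -- vertices on the axis at this level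
  have hax : ∀ β' y', (y' = y ∨ GY.Adj y y') → 1 ≤ β' → β' ≤ 4 →
      ¬ X.memH Z Bx dur t s h β' Z.o y' := by
    intro β' y' h2 h3 h4 h5
    rcases mem_ax h1 h5 with h6 | h6 | h6 | ⟨i, h6, h7, h8⟩
    · omega
    · omega
    · omega
    · rcases h8 with h8 | h8
      · have he : i = j := by
          rcases h2 with h2 | h2
          · subst h2
            exact rg_eq h6 hj h7 hr (by omega)
          · exact (rg_adj hj h6 hr h7 (by omega) h2).symm
        subst he
        exact ht h8.2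
      · have := pl_mod (X := X) i
        omega
  have hW := cW_ax (X := X) (Z := Z) (Bx := Bx) (dur := dur) (t := t) (s := s) (h := h) (β := β)
    (y := y) h1
  have hY : cnt GY {y' | X.memH Z Bx dur t s h β Z.o y'} y = 0 :=
    cnt_eq_zero _ _ _ (fun u hu hadj => hax _ _ (Or.inr hadj) hb.1 hb.2 hu)
  have hdn : ¬ X.memH Z Bx dur t s (h - 1) β Z.o y := by
    intro h5
    rcases mem_ax (h := h - 1) (by omega) h5 with h6 | h6 | h6 | ⟨i, h6, h7, h8⟩
    · omega
    · omega
    · omega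
    · have := pl_mod (X := X) i
      omega
  have hlo : ¬ (0 < β ∧ X.memH Z Bx dur t s h (β - 1) Z.o y) := by
    rintro ⟨_, h5⟩
    rcases eq_or_ne β 1 with h6 | h6
    · subst h6
      exact mem_nil h1 h5
    · exact hax (β - 1) y (Or.inl rfl) (by omega) (by omega) h5
  have hup : ¬ X.memH Z Bx dur t s h (β + 1) Z.o y := by
    intro h5
    rcases eq_or_ne β 4 with h6 | h6
    · subst h6
      rcases mem_ax h1 h5 with h6 | h6 | h6 | ⟨i, h6, h7, h8⟩
      · exact ht ((port_tt hj (rg_port hr (by omega))).1 h6.2)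
      · omega
      · omega
      · have := rg_bd h7; omega
    · exact hax (β + 1) y (Or.inl rfl) (by omega) (by omega) h5
  unfold HC
  rw [hY, iv_zero hdn, iv_zero hlo, iv_zero hup]
  have := iv_le (X.memH Z Bx dur t s (h + 1) β Z.o y)
  omega

/-- on the axis -/
lemma hc_ax (h1 : 1 ≤ h) (hH : h ≤ X.H) (hρ : 3 ≤ ρ) (hρ1 : e + μ + 1 ≤ ρ) (hρ2 : e + μ' + 1 ≤ ρ)
    (hB : ∀ β w, Bx β w → 5 ≤ β) (hv : ¬ X.memH Z Bx dur t s h β Z.o y) :
    X.HC Z Bx dur t s h β Z.o y ≤ ρ := by
  by_cases hc : ∃ j, X.lk s j ∧ X.rg j β y ∧ h = X.pl j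
  · obtain ⟨j, hj, hr, hh⟩ := hc
    refine hc_cond hB hρ2 hj hr hh ?_
    intro h2
    exact hv (Or.inr (Or.inr ⟨rfl, j, hj, hr, hh, h2⟩))
  have hreg : ∀ j, X.lk s j → X.rg j β y → h ≠ X.pl j ∧ h ≠ X.pl j + 1 := by
    intro j h2 h3
    exact ⟨fun h4 => hc ⟨j, h2, h3, h4⟩,
      fun h4 => hv (Or.inl (Or.inr (Or.inr ⟨j, h2, h3, Or.inr ⟨h4, rfl⟩⟩)))⟩
  have hwall : β ≤ 4 → h = 1 → ¬ X.memH Z Bx dur t s (h - 1) β Z.o y := by
    rintro h2 rfl h3
    rcases (mem_zero h3).2 with h4 | h4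
    · have := hB _ _ h4.1; omega
    · omega
  have i1 := iv_le (0 < β ∧ X.memH Z Bx dur t s h (β - 1) Z.o y)
  have i2 := iv_le (X.memH Z Bx dur t s h (β + 1) Z.o y)
  have i3 := iv_le (X.memH Z Bx dur t s (h - 1) β Z.o y)
  have i4 := iv_le (X.memH Z Bx dur t s (h + 1) β Z.o y)
  -- the cross-section
  have hW0 : β ≠ 5 → cnt GW {w' | X.memH Z Bx dur t s h β w' y} Z.o = 0 := by
    intro h5
    apply cnt_eq_zero
    intro u hu hadj
    rcases (mem_off (fun h' => by rw [h'] at hadj; exact GW.irrefl hadj) h1 hu).2 with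
      h4 | ⟨j, h4, h6, h7⟩
    · omega
    · exact (hreg j h4 h6).1 h7
  rcases Nat.lt_or_ge 6 β with hb | hb
  · unfold HC
    have hY : cnt GY {y' | X.memH Z Bx dur t s h β Z.o y'} y = 0 :=
      cnt_eq_zero _ _ _ (fun u hu _ => mem_seven h1 (by omega) hu)
    rw [hY, hW0 (by omega), iv_zero (p := X.memH Z Bx dur t s h (β + 1) Z.o y)
        (mem_seven h1 (by omega)),
      iv_zero (p := X.memH Z Bx dur t s (h + 1) β Z.o y) (mem_seven (by omega) (by omega))]
    omega
  by_cases hy : y ∈ X.D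
  swap
  · rcases Nat.lt_or_ge 3 β with hb4 | hb4
    · exact (hc_out h1 hb4 hy).trans (out' hy)
    · -- β ≤ 3 outside the sparse set
      rcases Nat.eq_zero_or_pos β with hb0 | hb0
      · subst hb0
        unfold HC
        have hY : cnt GY {y' | X.memH Z Bx dur t s h 0 Z.o y'} y = 0 :=
          cnt_eq_zero _ _ _ (fun u hu _ => mem_nil h1 hu)
        rw [hY, hW0 (by omega), iv_zero (p := 0 < 0 ∧ X.memH Z Bx dur t s h (0 - 1) Z.o y)
            (by omega),
          iv_zero (p := X.memH Z Bx dur t s (h + 1) 0 Z.o y) (mem_nil (by omega))]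
        omega
      · -- 1 ≤ β ≤ 3
        unfold HC
        rw [hW0 (by omega), iv_zero (p := X.memH Z Bx dur t s h (β + 1) Z.o y)
          (fun h' => hy (mem_D (by omega) h'))]
        have hlev : ∀ h', 1 ≤ h' → X.memH Z Bx dur t s h' β Z.o y →
            ∃ j, X.lk s j ∧ X.rg j β y ∧ (h' = X.pl j ∨ h' = X.pl j + 1) := by
          intro h' h2 h3
          rcases mem_ax h2 h3 with h4 | h4 | h4 | ⟨j, h4, h5, h6⟩
          · omega
          · omega
          · omega
          · exact ⟨j, h4, h5, h6.imp (fun h => h.1) id⟩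
        have j3 : iv (X.memH Z Bx dur t s (h - 1) β Z.o y) ≤ iv (h % 5 = 0) := iv_mono (by
          intro h3
          rcases eq_or_ne h 1 with h4 | h4
          · exact absurd h3 (hwall (by omega) h4)
          · obtain ⟨j, h5, h6, h7⟩ := hlev (h - 1) (by omega) h3
            have := hreg j h5 h6
            have := pl_mod (X := X) j
            omega)
        have j4 : iv (X.memH Z Bx dur t s (h + 1) β Z.o y) ≤ iv (h % 5 = 2) := iv_mono (by
          intro h3
          obtain ⟨j, h5, h6, h7⟩ := hlev (h + 1) (by omega) h3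
          have := hreg j h5 h6
          have := pl_mod (X := X) j
          omega)
        have hYm : cnt GY {y' | X.memH Z Bx dur t s h β Z.o y'} y ≤
            cnt GY {y' | ∃ j, X.lk s j ∧ X.rg j β y' ∧ (h = X.pl j ∨ h = X.pl j + 1)} y := by
          apply cnt_mono
          intro u h3
          rcases mem_ax h1 h3 with h4 | h4 | h4 | ⟨j, h4, h5, h6⟩
          · omega
          · omega
          · omega
          · exact ⟨j, h4, h5, h6.imp (fun h => h.1) id⟩
        have hY2 := rgn_two (X := X) (s := s) (h := h) (β := β) (y := y) 0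
        have hY3 : h % 5 ≠ 3 → h % 5 ≠ 4 →
            cnt GY {y' | X.memH Z Bx dur t s h β Z.o y'} y = 0 := by
          intro h2 h2'
          apply cnt_eq_zero
          intro u h3 _
          rcases mem_ax h1 h3 with h4 | h4 | h4 | ⟨j, h4, h5, h6⟩
          · omega
          · omega
          · omega
          · have := pl_mod (X := X) j
            omega
        by_cases h53 : h % 5 = 3 ∨ h % 5 = 4
        · simp only [iv_eq] at *
          split_ifs at * <;> omega
        · have := hY3 (by omega) (by omega)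
          simp only [iv_eq] at *
          split_ifs at * <;> omega
  rcases Nat.lt_or_ge 5 β with hb5 | hb5
  · -- β = 6
    have hb6 : β = 6 := by omega
    subst hb6
    have h54 : h % 5 = 4 := by
      by_contra h2
      exact hv (Or.inl (Or.inr (Or.inl ⟨h1, hH, hy, Or.inr ⟨rfl, Or.inl ⟨rfl, h2⟩⟩⟩)))
    unfold HC
    have hY : cnt GY {y' | X.memH Z Bx dur t s h 6 Z.o y'} y = 0 := by
      apply cnt_eq_zero
      intro u h3 _
      rcases mem_ax h1 h3 with h4 | h4 | h4 | ⟨j, h4, h5, h6⟩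
      · omega
      · omega
      · omega
      · have := rg_bd h5
        omega
    rw [hY, hW0 (by omega), iv_zero (p := X.memH Z Bx dur t s h (6 + 1) Z.o y)
      (mem_seven h1 (by omega))]
    omega
  rcases Nat.lt_or_ge 4 β with hb4 | hb4
  · -- β = 5
    have hb6 : β = 5 := by omega
    subst hb6
    have hon : ¬ X.on dur t s y := fun h2 => hv (Or.inr (Or.inl ⟨hH, rfl, rfl, h2⟩))
    have hax5 : ∀ h', 1 ≤ h' → ¬ X.memH Z Bx dur t s h' 5 Z.o y := by
      intro h' h2 h3
      rcases mem_ax h2 h3 with h4 | h4 | h4 | ⟨j, h4, h5, h6⟩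
      · exact hon h4.2
      · omega
      · omega
      · have := rg_bd h5
        omega
    have j3 : ¬ X.memH Z Bx dur t s (h - 1) 5 Z.o y := by
      rcases eq_or_ne h 1 with h4 | h4
      · subst h4
        intro h3
        rcases (mem_zero h3).2 with h4 | h4
        · exact h4.2 ⟨rfl, Z.oΛ⟩
        · exact hon h4.2.2
      · exact hax5 _ (by omega)
    have hW : cnt GW {w' | X.memH Z Bx dur t s h 5 w' y} Z.o ≤ e := by
      refine le_trans (cnt_mono_pt GW Z.o ?_) Z.cp.le
      intro u hadj hu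
      rcases (mem_off (fun h' => by rw [h'] at hadj; exact GW.irrefl hadj) h1 hu).2 with
        h4 | ⟨j, h4, h6, h7⟩
      · exact h4.2.2
      · have := rg_bd h6; omega
    have hY : cnt GY {y' | X.memH Z Bx dur t s h 5 Z.o y'} y ≤ μ := by
      refine le_trans (cnt_mono GY ?_ y) (on_cnt hy hon)
      intro u h3
      rcases mem_ax h1 h3 with h4 | h4 | h4 | ⟨j, h4, h5, h6⟩
      · exact h4.2
      · omega
      · omega
      · have := rg_bd h5
        omega
    have j1 : iv (0 < 5 ∧ X.memH Z Bx dur t s h (5 - 1) Z.o y) ≤ iv (h % 5 = 4) := iv_mono (by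
      rintro ⟨_, h3⟩
      rcases mem_ax h1 h3 with h4 | h4 | h4 | ⟨j, h4, h5, h6⟩
      · omega
      · omega
      · exact h4.2.1
      · rcases h6 with h6 | h6
        · exact absurd ((port_tt h4 (rg_port h5 (by omega))).2 h6.2) hon
        · have := pl_mod (X := X) j
          omega)
    have j2 : iv (X.memH Z Bx dur t s h (5 + 1) Z.o y) ≤ iv (h % 5 ≠ 4) := iv_mono (by
      intro h3
      rcases mem_ax h1 h3 with h4 | h4 | h4 | ⟨j, h4, h5, h6⟩
      · omega
      · exact h4.2.1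
      · omega
      · have := rg_bd h5
        omega)
    unfold HC
    rw [iv_zero j3, iv_zero (p := X.memH Z Bx dur t s (h + 1) 5 Z.o y) (hax5 _ (by omega))]
    have j12 : iv (h % 5 = 4) + iv (h % 5 ≠ 4) ≤ 1 := by
      simp only [iv_eq]; split_ifs <;> omega
    omega
  rcases Nat.lt_or_ge 3 β with hb3 | hb3
  · -- β = 4
    have hb6 : β = 4 := by omega
    subst hb6
    have h54 : h % 5 ≠ 4 := by
      intro h2
      exact hv (Or.inl (Or.inr (Or.inl ⟨h1, hH, hy, Or.inr ⟨rfl, Or.inr ⟨rfl, h2⟩⟩⟩)))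
    have j1 : ¬ (0 < 4 ∧ X.memH Z Bx dur t s h (4 - 1) Z.o y) := by
      rintro ⟨_, h3⟩
      rcases mem_ax h1 h3 with h4 | h4 | h4 | ⟨j, h4, h5, h6⟩
      · omega
      · omega
      · omega
      · have h7 := hreg j h4 (port_rg (rg_port h5 (by omega)) (by omega) (by omega))
        omega
    have hlev : ∀ h', 1 ≤ h' → X.memH Z Bx dur t s h' 4 Z.o y → h' % 5 = 4 ∨
        ∃ j, X.lk s j ∧ X.rg j 4 y ∧ h' = X.pl j := by
      intro h' h2 h3
      rcases mem_ax h2 h3 with h4 | h4 | h4 | ⟨j, h4, h5, h6⟩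
      · omega
      · omega
      · exact Or.inl h4.2.1
      · rcases h6 with h6 | h6
        · exact Or.inr ⟨j, h4, h5, h6.1⟩
        · left
          have := pl_mod (X := X) j
          omega
    have j3 : iv (X.memH Z Bx dur t s (h - 1) 4 Z.o y) ≤ iv (h % 5 = 0) := iv_mono (by
      intro h3
      rcases eq_or_ne h 1 with h4 | h4
      · exact absurd h3 (hwall (by omega) h4)
      · rcases hlev (h - 1) (by omega) h3 with h5 | ⟨j, h5, h6, h7⟩
        · omega
        · have := pl_mod (X := X) j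
          omega)
    have hYm : cnt GY {y' | X.memH Z Bx dur t s h 4 Z.o y'} y ≤ iv (h % 5 = 3) := by
      by_cases h53 : h % 5 = 3
      · rw [iv_one h53]
        refine le_trans (cnt_mono GY ?_ y) (rgn_one (X := X) (s := s) (h := h) (β := 4) (y := y)
          (by omega) hy)
        intro u h3
        rcases mem_ax h1 h3 with h4 | h4 | h4 | ⟨j, h4, h5, h6⟩
        · omega
        · omega
        · omega
        · exact ⟨j, h4, h5, h6.imp (fun h => h.1) id⟩
      · rw [iv_zero h53, Nat.le_zero]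
        apply cnt_eq_zero
        intro u h3 _
        rcases mem_ax h1 h3 with h4 | h4 | h4 | ⟨j, h4, h5, h6⟩
        · omega
        · omega
        · omega
        · have := pl_mod (X := X) j
          omega
    unfold HC
    rw [iv_zero j1, hW0 (by omega)]
    simp only [iv_eq] at *
    split_ifs at * <;> omega
  -- β ≤ 3 over the sparse set
  rcases Nat.eq_zero_or_pos β with hb0 | hb0
  · subst hb0
    unfold HC
    have hY : cnt GY {y' | X.memH Z Bx dur t s h 0 Z.o y'} y = 0 :=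
      cnt_eq_zero _ _ _ (fun u hu _ => mem_nil h1 hu)
    rw [hY, hW0 (by omega), iv_zero (p := 0 < 0 ∧ X.memH Z Bx dur t s h (0 - 1) Z.o y)
        (by omega),
      iv_zero (p := X.memH Z Bx dur t s (h + 1) 0 Z.o y) (mem_nil (by omega))]
    omega
  have hlev : ∀ h', 1 ≤ h' → X.memH Z Bx dur t s h' β Z.o y →
      ∃ j, X.lk s j ∧ X.rg j β y ∧ (h' = X.pl j ∨ h' = X.pl j + 1) := by
    intro h' h2 h3
    rcases mem_ax h2 h3 with h4 | h4 | h4 | ⟨j, h4, h5, h6⟩
    · omega
    · omega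
    · omega
    · exact ⟨j, h4, h5, h6.imp (fun h => h.1) id⟩
  have j3 : iv (X.memH Z Bx dur t s (h - 1) β Z.o y) ≤ iv (h % 5 = 0) := iv_mono (by
    intro h3
    rcases eq_or_ne h 1 with h4 | h4
    · exact absurd h3 (hwall (by omega) h4)
    · obtain ⟨j, h5, h6, h7⟩ := hlev (h - 1) (by omega) h3
      have := hreg j h5 h6
      have := pl_mod (X := X) j
      omega)
  have j4 : iv (X.memH Z Bx dur t s (h + 1) β Z.o y) ≤ iv (h % 5 = 2) := iv_mono (by
    intro h3
    obtain ⟨j, h5, h6, h7⟩ := hlev (h + 1) (by omega) h3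
    have := hreg j h5 h6
    have := pl_mod (X := X) j
    omega)
  have j1 : iv (0 < β ∧ X.memH Z Bx dur t s h (β - 1) Z.o y) ≤ iv (β = 2) := iv_mono (by
    rintro ⟨_, h3⟩
    rcases mem_ax h1 h3 with h4 | h4 | h4 | ⟨j, h4, h5, h6⟩
    · omega
    · omega
    · omega
    · by_contra hb2
      have h8 := rg_bd h5
      have h7 := hreg j h4 (port_rg (rg_port h5 (by omega)) (by omega) (by omega))
      omega)
  have j2 : iv (X.memH Z Bx dur t s h (β + 1) Z.o y) ≤ iv (β = 3 ∧ h % 5 = 4) := iv_mono (by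
    intro h3
    rcases mem_ax h1 h3 with h4 | h4 | h4 | ⟨j, h4, h5, h6⟩
    · omega
    · omega
    · omega
    · exfalso
      have h7 := hreg j h4 (port_rg (rg_port h5 (by omega)) (by omega) (by omega))
      omega)
  have hYm : cnt GY {y' | X.memH Z Bx dur t s h β Z.o y'} y ≤
      cnt GY {y' | ∃ j, X.lk s j ∧ X.rg j β y' ∧ (h = X.pl j ∨ h = X.pl j + 1)} y := by
    apply cnt_mono
    intro u h3
    rcases mem_ax h1 h3 with h4 | h4 | h4 | ⟨j, h4, h5, h6⟩
    · omega
    · omega
    · omega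
    · exact ⟨j, h4, h5, h6.imp (fun h => h.1) id⟩
  have hY2 := rgn_two (X := X) (s := s) (h := h) (β := β) (y := y) 0
  have hY3 : h % 5 ≠ 3 → h % 5 ≠ 4 →
      cnt GY {y' | X.memH Z Bx dur t s h β Z.o y'} y = 0 := by
    intro h2 h2'
    apply cnt_eq_zero
    intro u h3 _
    rcases mem_ax h1 h3 with h4 | h4 | h4 | ⟨j, h4, h5, h6⟩
    · omega
    · omega
    · omega
    · have := pl_mod (X := X) j
      omega
  unfold HC
  rw [hW0 (by omega)]
  by_cases h53 : h % 5 = 3 ∨ h % 5 = 4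
  · simp only [iv_eq] at *
    split_ifs at * <;> omega
  · have := hY3 (by omega) (by omega)
    simp only [iv_eq] at *
    split_ifs at * <;> omega

/-- all counts beyond the walls -/
theorem hc_all (h1 : 1 ≤ h) (hH : h ≤ X.H) (hρ : 3 ≤ ρ) (hρ1 : e + μ + 1 ≤ ρ)
    (hρ2 : e + μ' + 1 ≤ ρ) (hB : ∀ β w, Bx β w → 5 ≤ β)
    (hv : ¬ X.memH Z Bx dur t s h β w y) : X.HC Z Bx dur t s h β w y ≤ ρ := by
  by_cases hw : w = Z.o
  · subst hw
    exact hc_ax h1 hH hρ hρ1 hρ2 hB hv
  by_cases hn : GW.Adj Z.o w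
  · exact hc_nb hn h1 hH hρ hB hv
  · exact (hc_far hw hn h1).trans hρ

/-- above the last level -/
lemma hc_high (hH : X.H < h) : X.HC Z Bx dur t s h β w y ≤ 1 := by
  unfold HC
  have hY : cnt GY {y' | X.memH Z Bx dur t s h β w y'} y = 0 :=
    cnt_eq_zero _ _ _ (fun u hu _ => mem_high hH hu)
  have hW : cnt GW {w' | X.memH Z Bx dur t s h β w' y} w = 0 :=
    cnt_eq_zero _ _ _ (fun u hu _ => mem_high hH hu)
  rw [hY, hW, iv_zero (p := 0 < β ∧ X.memH Z Bx dur t s h (β - 1) w y)
      (fun h' => mem_high hH h'.2),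
    iv_zero (p := X.memH Z Bx dur t s h (β + 1) w y) (mem_high hH),
    iv_zero (p := X.memH Z Bx dur t s (h + 1) β w y) (mem_high (by omega))]
  have := iv_le (X.memH Z Bx dur t s (h - 1) β w y)
  omega

end YG

end Pool.Agent.Helper70.Gen
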