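import Mathlib
import Pool.Agent.Helper70.Gen.Emb

/-!
# The grid as a product
-/

set_option linter.unusedSectionVars false
set_option linter.unusedVariables false

namespace Pool.Agent.Helper70.Gen

open Set SimpleGraph Pool.Agent.Helper19.Perco Pool.Agent.Helper70.Duo

section phi

variable (e μ k n : ℕ)

/-- vertices of the product -/
abbrev VV : Type := ((Fin n × (Fin e → Fin n)) × Fin n) × (Fin (μ + k) → Fin n)

/-- the product graph -/
abbrev GG : SimpleGraph (VV e μ k n) := (Gv e n □ pathGraph n) □ Gd (μ + k) n

end phi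

variable {e μ k n : ℕ}

/-- index of `β` -/
def a0 : Fin (e + μ + 1 + 1 + k) := ⟨0, by omega⟩
/-- index of the coordinates `w` -/
def aw (i : Fin e) : Fin (e + μ + 1 + 1 + k) := ⟨i.val + 1, by omega⟩
/-- index of the height -/
def az : Fin (e + μ + 1 + 1 + k) := ⟨e + μ + 1, by omega⟩
/-- index of the coordinates `y` -/
def ay (l : Fin (μ + k)) : Fin (e + μ + 1 + 1 + k) :=
  ⟨if l.val < μ then l.val + e + 1 else l.val + e + 2, by
    have := l.isLt
    split_ifs <;> omega⟩

lemma ay_lt {l : Fin (μ + k)} (h : l.val < μ) : (ay l : Fin (e + μ + 1 + 1 + k)).val = l.val + e + 1 :=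
  if_pos h
lemma ay_ge {l : Fin (μ + k)} (h : ¬ l.val < μ) :
    (ay l : Fin (e + μ + 1 + 1 + k)).val = l.val + e + 2 := if_neg h

lemma ay_inj {l l' : Fin (μ + k)} (h : (ay l : Fin (e + μ + 1 + 1 + k)) = ay l') : l = l' := by
  have h1 := congrArg Fin.val h
  apply Fin.ext
  by_cases h2 : l.val < μ <;> by_cases h3 : l'.val < μ
  · rw [ay_lt h2, ay_lt h3] at h1; omega
  · rw [ay_lt h2, ay_ge h3] at h1; omega
  · rw [ay_ge h2, ay_lt h3] at h1; omega
  · rw [ay_ge h2, ay_ge h3] at h1; omega

lemma ay_bd (l : Fin (μ + k)) : e + 1 ≤ (ay l : Fin (e + μ + 1 + 1 + k)).val ∧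
    (ay l : Fin (e + μ + 1 + 1 + k)).val ≠ e + μ + 1 := by
  by_cases h2 : l.val < μ
  · rw [ay_lt h2]; omega
  · rw [ay_ge h2]; omega

lemma idx_cases (a : Fin (e + μ + 1 + 1 + k)) : a = a0 ∨ (∃ i, a = aw i) ∨ a = az ∨ ∃ l, a = ay l := by
  have ha := a.isLt
  rcases Nat.eq_zero_or_pos a.val with h | h
  · exact Or.inl (Fin.ext h)
  rcases Nat.lt_or_ge e a.val with h2 | h2
  · rcases Nat.lt_trichotomy a.val (e + μ + 1) with h3 | h3 | h3
    · refine Or.inr (Or.inr (Or.inr ⟨⟨a.val - e - 1, by omega⟩, Fin.ext ?_⟩))
      rw [ay_lt (by show a.val - e - 1 < μ; omega)]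
      show a.val = a.val - e - 1 + e + 1
      omega
    · exact Or.inr (Or.inr (Or.inl (Fin.ext h3)))
    · refine Or.inr (Or.inr (Or.inr ⟨⟨a.val - e - 2, by omega⟩, Fin.ext ?_⟩))
      rw [ay_ge (by show ¬ a.val - e - 2 < μ; omega)]
      show a.val = a.val - e - 2 + e + 2
      omega
  · refine Or.inr (Or.inl ⟨⟨a.val - 1, by omega⟩, Fin.ext ?_⟩)
    show a.val = a.val - 1 + 1
    omega

/-- the coordinates -/
def big (p : VV e μ k n) (a : Fin (e + μ + 1 + 1 + k)) : Fin n :=
  if h0 : a.val = 0 then p.1.1.1
  else if h1 : a.val ≤ e then p.1.1.2 ⟨a.val - 1, by omega⟩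
  else if h2 : a.val ≤ e + μ then p.2 ⟨a.val - e - 1, by omega⟩
  else if h3 : a.val = e + μ + 1 then p.1.2
  else p.2 ⟨a.val - e - 2, by have := a.isLt; omega⟩

lemma big_0 (p : VV e μ k n) : big p a0 = p.1.1.1 := by
  have e1 : (a0 : Fin (e + μ + 1 + 1 + k)).val = 0 := rfl
  unfold big; rw [dif_pos e1]
lemma big_w (p : VV e μ k n) (i : Fin e) : big p (aw i) = p.1.1.2 i := by
  have h := i.isLt
  have e1 : (aw i : Fin (e + μ + 1 + 1 + k)).val = i.val + 1 := rfl
  unfold big
  rw [dif_neg (by omega), dif_pos (by omega)]
  congr 1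
lemma big_z (p : VV e μ k n) : big p az = p.1.2 := by
  have e1 : (az : Fin (e + μ + 1 + 1 + k)).val = e + μ + 1 := rfl
  unfold big
  rw [dif_neg (by omega), dif_neg (by omega), dif_neg (by omega), dif_pos (by omega)]
lemma big_y (p : VV e μ k n) (l : Fin (μ + k)) : big p (ay l) = p.2 l := by
  have h := l.isLt
  unfold big
  by_cases h2 : l.val < μ
  · have e1 := ay_lt (e := e) (μ := μ) (k := k) h2
    rw [dif_neg (by omega), dif_neg (by omega), dif_pos (by omega)]
    exact congrArg p.2 (Fin.ext (by
      show (ay l : Fin (e + μ + 1 + 1 + k)).val - e - 1 = l.val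
      omega))
  · have e1 := ay_ge (e := e) (μ := μ) (k := k) h2
    rw [dif_neg (by omega), dif_neg (by omega), dif_neg (by omega), dif_neg (by omega)]
    exact congrArg p.2 (Fin.ext (by
      show (ay l : Fin (e + μ + 1 + 1 + k)).val - e - 2 = l.val
      omega))

/-- the isomorphism -/
def Phi (e μ k n : ℕ) : GG e μ k n ≃g Gd (e + μ + 1 + 1 + k) n where
  toFun := big
  invFun x := (((x a0, fun i => x (aw i)), x az), fun l => x (ay l))
  left_inv p := by
    obtain ⟨⟨⟨β, w⟩, z⟩, y⟩ := p
    refine Prod.ext (Prod.ext (Prod.ext ?_ ?_) ?_) ?_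
    · exact big_0 _
    · funext i; exact big_w _ i
    · exact big_z _
    · funext l; exact big_y _ l
  right_inv x := by
    funext a
    rcases idx_cases a with h | ⟨i, h⟩ | h | ⟨l, h⟩ <;> subst h
    · exact big_0 _
    · exact big_w _ i
    · exact big_z _
    · exact big_y _ l
  map_rel_iff' := by
    intro p q
    show (Gd (e + μ + 1 + 1 + k) n).Adj (big p) (big q) ↔ (GG e μ k n).Adj p q
    obtain ⟨⟨⟨β, w⟩, z⟩, y⟩ := p
    obtain ⟨⟨⟨β', w'⟩, z'⟩, y'⟩ := q
    rw [boxProd_adj, boxProd_adj, boxProd_adj, pathGraph_adj, pathGraph_adj]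
    constructor
    · rintro ⟨a, h1, h2⟩
      rcases idx_cases a with h | ⟨i, h⟩ | h | ⟨l, h⟩ <;> subst h
      · have hw : w = w' := funext fun i => by
          have := h2 (aw i) (fun h => by
            have := congrArg Fin.val h
            simp [aw, a0] at this)
          rwa [big_w, big_w] at this
        have hz : z = z' := by
          have := h2 az (fun h => by
            have := congrArg Fin.val h
            simp [az, a0] at this)
          rwa [big_z, big_z] at this
        have hy : y = y' := funext fun l => by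
          have := h2 (ay l) (fun h => by
            have h3 : (ay l : Fin (e + μ + 1 + 1 + k)).val = 0 := congrArg Fin.val h
            have := ay_bd (e := e) (μ := μ) (k := k) l
            omega)
          rwa [big_y, big_y] at this
        rw [big_0, big_0] at h1
        exact Or.inl ⟨Or.inl ⟨Or.inl ⟨h1, hw⟩, hz⟩, hy⟩
      · have hβ : β = β' := by
          have := h2 a0 (fun h => by
            have := congrArg Fin.val h
            simp [aw, a0] at this)
          rwa [big_0, big_0] at this
        have hz : z = z' := by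
          have := h2 az (fun h => by
            have h3 : e + μ + 1 = i.val + 1 := congrArg Fin.val h
            have := i.isLt
            omega)
          rwa [big_z, big_z] at this
        have hy : y = y' := funext fun l => by
          have := h2 (ay l) (fun h => by
            have h3 : (ay l : Fin (e + μ + 1 + 1 + k)).val = i.val + 1 := congrArg Fin.val h
            have := ay_bd (e := e) (μ := μ) (k := k) l
            have := i.isLt
            omega)
          rwa [big_y, big_y] at this
        rw [big_w, big_w] at h1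
        refine Or.inl ⟨Or.inl ⟨Or.inr ⟨⟨i, h1, fun j hj => ?_⟩, hβ⟩, hz⟩, hy⟩
        have := h2 (aw j) (fun h => by
          have h3 : j.val + 1 = i.val + 1 := congrArg Fin.val h
          exact hj (Fin.ext (by omega)))
        rwa [big_w, big_w] at this
      · have hβ : β = β' := by
          have := h2 a0 (fun h => by
            have := congrArg Fin.val h
            simp [az, a0] at this)
          rwa [big_0, big_0] at this
        have hw : w = w' := funext fun i => by
          have := h2 (aw i) (fun h => by
            have h3 : i.val + 1 = e + μ + 1 := congrArg Fin.val h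
            have := i.isLt
            omega)
          rwa [big_w, big_w] at this
        have hy : y = y' := funext fun l => by
          have := h2 (ay l) (fun h => by
            have h3 : (ay l : Fin (e + μ + 1 + 1 + k)).val = e + μ + 1 := congrArg Fin.val h
            have := ay_bd (e := e) (μ := μ) (k := k) l
            omega)
          rwa [big_y, big_y] at this
        rw [big_z, big_z] at h1
        exact Or.inl ⟨Or.inr ⟨h1, Prod.ext hβ hw⟩, hy⟩
      · have hβ : β = β' := by
          have := h2 a0 (fun h => by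
            have h3 : 0 = (ay l : Fin (e + μ + 1 + 1 + k)).val := congrArg Fin.val h
            have := ay_bd (e := e) (μ := μ) (k := k) l
            omega)
          rwa [big_0, big_0] at this
        have hw : w = w' := funext fun i => by
          have := h2 (aw i) (fun h => by
            have h3 : i.val + 1 = (ay l : Fin (e + μ + 1 + 1 + k)).val := congrArg Fin.val h
            have := ay_bd (e := e) (μ := μ) (k := k) l
            have := i.isLt
            omega)
          rwa [big_w, big_w] at this
        have hz : z = z' := by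
          have := h2 az (fun h => by
            have h3 : e + μ + 1 = (ay l : Fin (e + μ + 1 + 1 + k)).val := congrArg Fin.val h
            have := ay_bd (e := e) (μ := μ) (k := k) l
            omega)
          rwa [big_z, big_z] at this
        rw [big_y, big_y] at h1
        refine Or.inr ⟨⟨l, h1, fun j hj => ?_⟩, Prod.ext (Prod.ext hβ hw) hz⟩
        have := h2 (ay j) (fun h => hj (ay_inj h))
        rwa [big_y, big_y] at this
    · rintro (⟨⟨⟨h1, h2⟩ | ⟨⟨i, h1, h2⟩, h3⟩, h4⟩ | ⟨h1, h2⟩, h5⟩ | ⟨⟨l, h1, h2⟩, h3⟩)
      · refine ⟨a0, by rw [big_0, big_0]; exact h1, fun a ha => ?_⟩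
        rcases idx_cases a with h | ⟨i, h⟩ | h | ⟨l, h⟩ <;> subst h
        · exact absurd rfl ha
        · rw [big_w, big_w]; exact congrFun h2 i
        · rw [big_z, big_z]; exact h4
        · rw [big_y, big_y]; exact congrFun h5 l
      · refine ⟨aw i, by rw [big_w, big_w]; exact h1, fun a ha => ?_⟩
        rcases idx_cases a with h | ⟨i', h⟩ | h | ⟨l, h⟩ <;> subst h
        · rw [big_0, big_0]; exact h3
        · rw [big_w, big_w]
          exact h2 i' (fun h => ha (by rw [h]))
        · rw [big_z, big_z]; exact h4
        · rw [big_y, big_y]; exact congrFun h5 l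
      · refine ⟨az, by rw [big_z, big_z]; exact h1, fun a ha => ?_⟩
        rcases idx_cases a with h | ⟨i', h⟩ | h | ⟨l, h⟩ <;> subst h
        · rw [big_0, big_0]; exact congrArg Prod.fst h2
        · rw [big_w, big_w]; exact congrFun (congrArg Prod.snd h2) i'
        · exact absurd rfl ha
        · rw [big_y, big_y]; exact congrFun h5 l
      · refine ⟨ay l, by rw [big_y, big_y]; exact h1, fun a ha => ?_⟩
        rcases idx_cases a with h | ⟨i', h⟩ | h | ⟨l', h⟩ <;> subst h
        · rw [big_0, big_0]; exact congrArg (fun p => p.1.1) h3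
        · rw [big_w, big_w]; exact congrFun (congrArg (fun p => p.1.2) h3) i'
        · rw [big_z, big_z]; exact congrArg Prod.snd h3
        · rw [big_y, big_y]
          exact h2 l' (fun h => ha (by rw [h]))

end Pool.Agent.Helper70.Gen
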