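import Mathlib
import Pool.Agent.Helper70.Gen.Bar
import Pool.Agent.Helper70.Gen.Phi
import Pool.Agent.Helper70.Thr3.Conf2
import Pool.Agent.Helper70.Gen.Lev2

/-!
# General thresholds: the barrier of the construction without the ignition system
-/

set_option linter.unusedSectionVars false
set_option linter.unusedVariables false

namespace Pool.Agent.Helper70.Gen

open Set SimpleGraph Pool.Agent.Helper19.Perco Pool.Agent.Helper70.Duo Pool.Agent.Helper70.Thr3

/-- all data -/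
structure Cfg (e μ k n : ℕ) where
  X : YG (Gd (μ + k) n) μ (e + μ + 1)
  L : ℕ
  sz : Fin e → ℕ
  B : Tb e L sz
  hf : Tb.Fit L n sz
  Z : WS (Gd e n) e μ
  K : ℕ
  hc : YG.Cmp B hf Z
  hμ : 1 ≤ μ
  he : 1 ≤ e
  hk : 1 ≤ k
  hK2 : K % 2 = 0
  hK : 6 ≤ K
  hz : X.zB + K + X.H + 2 + (4 * (e + μ + 2) + 8) ≤ n
  hsz : ∀ i, sz i + 5 ≤ n
  yb : ∀ y, (y ∈ X.D ∨ ∃ j < X.F, y ∈ X.P j) → ∀ l, (y l).val + (4 * (e + μ + 2) + 8) ≤ n
  y1 : ∀ l, 1 ≤ (X.line X.F l).val
  yl : ∀ l : Fin (μ + k), l.val < μ → ∀ y : Fin (μ + k) → Fin n,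
        (y l).val = (X.line X.F l).val + 1 → (∀ l', l' ≠ l → y l' = X.line X.F l') →
        y ∉ X.D ∧ cnt (Gd (μ + k) n) X.D y + 1 ≤ e + μ + 1
  Zo : ∀ i, (Z.o i).val = 1
  Zp : ∀ w, w ∈ Z.Θp ↔ ∃ i, (w i).val = 2 ∧ ∀ j, j ≠ i → (w j).val = 1
  ZΘ : ∀ w ∈ Z.Θ, ∀ i, (w i).val ≤ 2

namespace Cfg

variable {e μ k n : ℕ} (A : Cfg e μ k n)

/-- duration -/
def d : ℕ := dur A.B.T A.K

/-- the members beyond the walls -/
def mH (t s h β : ℕ) (w : Fin e → Fin n) (y : Fin (μ + k) → Fin n) : Prop :=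
  A.X.memH A.Z (A.B.Bx A.hf) A.d t s h β w y

/-- layers -/
def lv (t : ℕ) (y : Fin (μ + k) → Fin n) (z : ℕ) : Set (Fin n × (Fin e → Fin n)) :=
  A.X.Lv A.B A.hf A.Z A.K t y z

/-- members -/
def mm (t : ℕ) : Set (VV e μ k n) := A.X.mem A.B A.hf A.Z A.K t

variable {A} {t : ℕ} {y : Fin (μ + k) → Fin n}

lemma n5 (A : Cfg e μ k n) : 8 ≤ n := by
  have := A.hz
  omega

/-- counts beyond the walls, in the layers -/
lemma lay_HC {s h : ℕ} {v : Fin n × (Fin e → Fin n)} {C D : Prop}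
    (hC : C → A.mH t s (h - 1) v.1.val v.2 y) (hD : D → A.mH t s (h + 1) v.1.val v.2 y) :
    cnt (Gv e n) {w | A.mH t s h w.1.val w.2 y} v + (iv C + iv D) +
      cnt (Gd (μ + k) n) {y' | A.mH t s h v.1.val v.2 y'} y ≤
      A.X.HC A.Z (A.B.Bx A.hf) A.d t s h v.1.val v.2 y := by
  unfold YG.HC
  have h0 := YG.cnt_Gv (fun β w => A.mH t s h β w y) v
  have i1 := iv_mono hC
  have i2 := iv_mono hD
  unfold mH at *
  omega

/-- a count in a layer beyond the walls -/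
lemma layer_hole {s h : ℕ} (h1 : 1 ≤ h) (hH : h ≤ A.X.H) {v : Fin n × (Fin e → Fin n)}
    (hv : ¬ A.mH (t + 1) s h v.1.val v.2 y) {C D : Prop}
    (hC : C → A.mH t s (h - 1) v.1.val v.2 y) (hD : D → A.mH t s (h + 1) v.1.val v.2 y) :
    cnt (Gv e n) {w | A.mH t s h w.1.val w.2 y} v + (iv C + iv D) +
      cnt (Gd (μ + k) n) {y' | A.mH t s h v.1.val v.2 y'} y ≤ e + μ + 1 := by
  refine (lay_HC hC hD).trans ?_
  have := A.hμ
  have := A.he
  apply YG.hc_all h1 hH (by omega) le_rfl le_rfl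
  · intro β w h; exact YG.Bx_five h
  · intro h; exact hv (YG.memH_mono (by omega) h)

/-- the start vertex over a line is not counted before the wall -/
lemma start_late {s z : ℕ} (hz : (s = 1 ∧ z = 1) ∨ (s = 0 ∧ z + 1 = A.K))
    (hy : y ∈ A.X.D) (hon : ¬ A.X.on A.d (t + 1) s y) : ¬ A.X.memS A.B A.K t z A.B.P.s y := by
  rintro (h | ⟨i, hi, h4, h5⟩)
  · exact hon (Or.inl h)
  · have hK := A.hK
    have hK2 := A.hK2
    obtain ⟨ts1, ts2⟩ := YG.sO_s (B := A.B) A.hK2 A.hK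
    have hCO : A.B.P.s ∉ CO A.K A.B.P A.B.Q (dz A.K i z) := by
      rw [CO_end (by unfold dz; split_ifs <;> omega)]
      exact A.B.hP.sP
    have hlate : ¬ YG.tt A.d s i ≤ t + 1 := fun h => hon (Or.inr ⟨i, hi, h4, h⟩)
    rcases h5 with h5 | h5
    · exact hCO h5
    · apply hlate
      have hmul : (i + 1) * dur A.B.T A.K = i * dur A.B.T A.K + dur A.B.T A.K := by ring
      unfold YG.tt d
      rcases Nat.mod_two_eq_zero_or_one i with h0 | h0
      · rcases hz with ⟨rfl, rfl⟩ | ⟨rfl, h3⟩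
        · rw [if_neg (by omega)]
          have e1 : dz A.K i 1 = 1 := by unfold dz; rw [if_pos h0]
          rw [e1, ts1] at h5
          omega
        · rw [if_pos (by omega)]
          have e1 : dz A.K i z = A.K - 1 := by unfold dz; rw [if_pos h0]; omega
          rw [e1, ts2] at h5
          unfold dur at *
          omega
      · rcases hz with ⟨rfl, rfl⟩ | ⟨rfl, h3⟩
        · rw [if_pos (by omega)]
          have e1 : dz A.K i 1 = A.K - 1 := by unfold dz; rw [if_neg (by omega)]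
          rw [e1, ts2] at h5
          unfold dur at *
          omega
        · rw [if_neg (by omega)]
          have e1 : dz A.K i z = 1 := by unfold dz; rw [if_neg (by omega)]; omega
          rw [e1, ts1] at h5
          omega

/-- the slice next to a wall, seen from the wall -/
lemma slice_side {s z : ℕ} (hz : (s = 1 ∧ z = 1) ∨ (s = 0 ∧ z + 1 = A.K))
    {v : Fin n × (Fin e → Fin n)} (h : v ∈ A.lv t y (A.X.zB + z)) :
    y ∈ A.X.D ∧ A.B.Bx A.hf v.1.val v.2 ∧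
      (v.1.val = 5 → v.2 = A.Z.o → A.X.on A.d (t + 1) s y) := by
  have hK := A.hK
  have h' : v ∈ A.X.Lv A.B A.hf A.Z A.K t y (A.X.zB + z) := h
  rw [YG.Lv_mid (by omega) (by omega)] at h'
  obtain ⟨u, h1, h2⟩ := h'
  have e : A.X.zB + z - A.X.zB = z := by omega
  rw [e] at h2
  refine ⟨YG.memS_D h2, ?_, ?_⟩
  · rw [← h1]; exact YG.Bx_iff.2 ⟨u, rfl⟩
  · intro h3 h4
    by_contra hon
    have hus : u = A.B.P.s := by
      apply Tb.ι_inj A.hf
      rw [h1]
      exact Prod.ext (Fin.ext (h3.trans A.hc.ιs.symm)) (h4.trans A.hc.ιo.symm)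
    rw [hus] at h2
    exact start_late hz (YG.memS_D h2) hon h2

/-- the total count -/
lemma cm_eq (v : Fin n × (Fin e → Fin n)) (z : Fin n) (y : Fin (μ + k) → Fin n) :
    cnt (GG e μ k n) (A.mm t) ((v, z), y) =
      (cnt (Gv e n) (A.lv t y z.val) v +
        (iv (0 < z.val ∧ v ∈ A.lv t y (z.val - 1)) +
          iv (z.val + 1 < n ∧ v ∈ A.lv t y (z.val + 1)))) +
      cnt (Gd (μ + k) n) {y' | v ∈ A.lv t y' z.val} y := YG.cnt_mem v z y

lemma lv_bot {z : ℕ} (hz : z ≤ A.X.zB) :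
    A.lv t y z = {v | A.mH t 1 (A.X.zB - z) v.1.val v.2 y} := YG.Lv_bot hz A.hK

lemma lv_top {z : ℕ} (hz : A.X.zB + A.K ≤ z) :
    A.lv t y z = {v | A.mH t 0 (z - (A.X.zB + A.K)) v.1.val v.2 y} := YG.Lv_top hz A.hK

lemma set_bot {z : ℕ} (hz : z ≤ A.X.zB) (v : Fin n × (Fin e → Fin n)) :
    {y' | v ∈ A.lv t y' z} = {y' | A.mH t 1 (A.X.zB - z) v.1.val v.2 y'} := by
  ext y'
  show v ∈ A.lv t y' z ↔ _
  rw [lv_bot hz]; exact Iff.rfl

lemma set_top {z : ℕ} (hz : A.X.zB + A.K ≤ z) (v : Fin n × (Fin e → Fin n)) :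
    {y' | v ∈ A.lv t y' z} = {y' | A.mH t 0 (z - (A.X.zB + A.K)) v.1.val v.2 y'} := by
  ext y'
  show v ∈ A.lv t y' z ↔ _
  rw [lv_top hz]; exact Iff.rfl

/-- the bound for the total count -/
theorem cm_le (v : Fin n × (Fin e → Fin n)) (z : Fin n) (y : Fin (μ + k) → Fin n)
    (hv : v ∉ A.lv (t + 1) y z.val) :
    cnt (GG e μ k n) (A.mm t) ((v, z), y) ≤ e + μ + 1 := by
  rw [cm_eq]
  have hK := A.hK
  have hK2 := A.hK2
  have hzB : A.X.zB = A.X.H + 1 := rfl
  have hz := z.isLt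
  have h4 : 2 ≤ e + μ := by
    have := A.hμ
    have := A.he
    omega
  rcases Nat.lt_trichotomy z.val A.X.zB with h | h | h
  · -- below the lower wall
    rw [lv_bot (by omega)] at hv
    rw [lv_bot (by omega), set_bot (by omega)]
    have hC : (z.val + 1 < n ∧ v ∈ A.lv t y (z.val + 1)) →
        A.mH t 1 (A.X.zB - z.val - 1) v.1.val v.2 y := by
      rintro ⟨_, h3⟩
      rw [lv_bot (by omega)] at h3
      have e1 : A.X.zB - (z.val + 1) = A.X.zB - z.val - 1 := by omega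
      rw [e1] at h3
      exact h3
    have hD : (0 < z.val ∧ v ∈ A.lv t y (z.val - 1)) →
        A.mH t 1 (A.X.zB - z.val + 1) v.1.val v.2 y := by
      rintro ⟨h2, h3⟩
      rw [lv_bot (by omega)] at h3
      have e1 : A.X.zB - (z.val - 1) = A.X.zB - z.val + 1 := by omega
      rw [e1] at h3
      exact h3
    rcases Nat.eq_zero_or_pos z.val with h0 | h0
    · have h5 := lay_HC (A := A) hC hD
      have h6 : A.X.HC A.Z (A.B.Bx A.hf) A.d t 1 (A.X.zB - z.val) v.1.val v.2 y ≤ 1 :=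
        YG.hc_high (by omega)
      omega
    · have := layer_hole (A := A) (h := A.X.zB - z.val) (by omega) (by omega) hv hC hD
      omega
  · -- the lower wall
    rw [lv_bot (by omega)] at hv
    rw [lv_bot (by omega), set_bot (by omega)]
    have e0 : A.X.zB - z.val = 0 := by omega
    rw [e0] at hv ⊢
    have hw := YG.wall_count (X := A.X) (B := A.B) (hf := A.hf) (Z := A.Z) (K := A.K) (t := t)
      (y := y) (s := 1) (v := v) (sl := z.val + 1 < n ∧ v ∈ A.lv t y (z.val + 1)) A.hμ le_rfl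
      A.hc.bo A.hc.bp A.hc.bo6
      (fun hy h3 => by
        rw [h] at h3
        exact hy (slice_side (Or.inl ⟨rfl, rfl⟩) h3.2).1)
      (fun hb h3 => by
        rw [h] at h3
        exact hb (slice_side (s := 1) (Or.inl ⟨rfl, rfl⟩) h3.2).2.1)
      (fun h5 h6 _ h7 h3 => by
        rw [h] at h3
        exact h7 ((slice_side (s := 1) (Or.inl ⟨rfl, rfl⟩) h3.2).2.2 h5 h6)) hv
    have i1 : iv (0 < z.val ∧ v ∈ A.lv t y (z.val - 1)) ≤
        iv (A.mH t 1 1 v.1.val v.2 y) := iv_mono (by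
      rintro ⟨_, h3⟩
      rw [lv_bot (by omega)] at h3
      have e1 : A.X.zB - (z.val - 1) = 1 := by omega
      rw [e1] at h3
      exact h3)
    unfold mH d at *
    omega
  · rcases Nat.lt_trichotomy z.val (A.X.zB + A.K) with h' | h' | h'
    · -- slices
      obtain ⟨w, hw⟩ : ∃ w, z.val = A.X.zB + w := ⟨z.val - A.X.zB, by omega⟩
      rw [hw] at hv ⊢
      have hsc := YG.slice_count (X := A.X) (K := A.K) (t := t) (y := y) A.hc A.hK2 A.hK le_rfl
        (z := w) (by omega) (by omega) hv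
      have i1 : iv (0 < A.X.zB + w ∧ v ∈ A.lv t y (A.X.zB + w - 1)) ≤
          iv (v ∈ A.lv t y (A.X.zB + w - 1)) := iv_mono (fun h => h.2)
      have i2 : iv (A.X.zB + w + 1 < n ∧ v ∈ A.lv t y (A.X.zB + w + 1)) ≤
          iv (v ∈ A.lv t y (A.X.zB + w + 1)) := iv_mono (fun h => h.2)
      unfold lv at *
      omega
    · -- the upper wall
      rw [lv_top (by omega)] at hv
      rw [lv_top (by omega), set_top (by omega)]
      have e0 : z.val - (A.X.zB + A.K) = 0 := by omega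
      rw [e0] at hv ⊢
      have e2 : z.val - 1 = A.X.zB + (A.K - 1) := by omega
      have hw := YG.wall_count (X := A.X) (B := A.B) (hf := A.hf) (Z := A.Z) (K := A.K) (t := t)
        (y := y) (s := 0) (v := v) (sl := 0 < z.val ∧ v ∈ A.lv t y (z.val - 1)) A.hμ le_rfl
        A.hc.bo A.hc.bp A.hc.bo6
        (fun hy h3 => by
          rw [e2] at h3
          exact hy (slice_side (s := 0) (Or.inr ⟨rfl, by omega⟩) h3.2).1)
        (fun hb h3 => by
          rw [e2] at h3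
          exact hb (slice_side (s := 0) (Or.inr ⟨rfl, by omega⟩) h3.2).2.1)
        (fun h5 h6 _ h7 h3 => by
          rw [e2] at h3
          exact h7 ((slice_side (s := 0) (Or.inr ⟨rfl, by omega⟩) h3.2).2.2 h5 h6)) hv
      have i1 : iv (z.val + 1 < n ∧ v ∈ A.lv t y (z.val + 1)) ≤
          iv (A.mH t 0 1 v.1.val v.2 y) := iv_mono (by
        rintro ⟨_, h3⟩
        rw [lv_top (by omega)] at h3
        have e1 : z.val + 1 - (A.X.zB + A.K) = 1 := by omega
        rw [e1] at h3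
        exact h3)
      unfold mH d at *
      omega
    · -- above the upper wall
      rw [lv_top (by omega)] at hv
      rw [lv_top (by omega), set_top (by omega)]
      have hC : (0 < z.val ∧ v ∈ A.lv t y (z.val - 1)) →
          A.mH t 0 (z.val - (A.X.zB + A.K) - 1) v.1.val v.2 y := by
        rintro ⟨_, h3⟩
        rw [lv_top (by omega)] at h3
        have e1 : z.val - 1 - (A.X.zB + A.K) = z.val - (A.X.zB + A.K) - 1 := by omega
        rw [e1] at h3
        exact h3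
      have hD : (z.val + 1 < n ∧ v ∈ A.lv t y (z.val + 1)) →
          A.mH t 0 (z.val - (A.X.zB + A.K) + 1) v.1.val v.2 y := by
        rintro ⟨h2, h3⟩
        rw [lv_top (by omega)] at h3
        have e1 : z.val + 1 - (A.X.zB + A.K) = z.val - (A.X.zB + A.K) + 1 := by omega
        rw [e1] at h3
        exact h3
      rcases Nat.lt_or_ge A.X.H (z.val - (A.X.zB + A.K)) with h5 | h5
      · have h7 := lay_HC (A := A) hC hD
        have h6 : A.X.HC A.Z (A.B.Bx A.hf) A.d t 0 (z.val - (A.X.zB + A.K)) v.1.val v.2 y ≤ 1 :=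
          YG.hc_high h5
        omega
      · exact layer_hole (A := A) (h := z.val - (A.X.zB + A.K)) (by omega) h5 hv hC hD

/-- above the last level only the vertex below counts -/
theorem cm_high (v : Fin n × (Fin e → Fin n)) (z : Fin n) (y : Fin (μ + k) → Fin n)
    (hz : A.X.zB + A.K + A.X.H < z.val) :
    cnt (GG e μ k n) (A.mm t) ((v, z), y) ≤
      iv (z.val = A.X.zB + A.K + A.X.H + 1 ∧ A.mH t 0 A.X.H v.1.val v.2 y) := by
  rw [cm_eq]
  have hK := A.hK
  have key : ∀ z' y', A.X.zB + A.K + A.X.H < z' → A.lv t y' z' = ∅ := by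
    intro z' y' h1
    rw [lv_top (by omega)]
    ext x
    constructor
    · intro h; exact absurd h (YG.mem_high (by omega))
    · intro h; exact absurd h (Set.notMem_empty _)
  have c1 : cnt (Gv e n) (A.lv t y z.val) v = 0 := by
    rw [key _ _ hz]
    exact cnt_eq_zero _ _ _ (fun u hu => absurd hu (Set.notMem_empty _))
  have c2 : cnt (Gd (μ + k) n) {y' | v ∈ A.lv t y' z.val} y = 0 := by
    apply cnt_eq_zero
    intro y' hy'
    have h1 : v ∈ A.lv t y' z.val := hy'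
    rw [key _ _ hz] at h1
    exact absurd h1 (Set.notMem_empty _)
  have c3 : ¬ (z.val + 1 < n ∧ v ∈ A.lv t y (z.val + 1)) := by
    rintro ⟨_, h1⟩
    rw [key _ _ (by omega)] at h1
    exact absurd h1 (Set.notMem_empty _)
  rw [c1, c2, iv_zero c3]
  have i1 : iv (0 < z.val ∧ v ∈ A.lv t y (z.val - 1)) ≤
      iv (z.val = A.X.zB + A.K + A.X.H + 1 ∧ A.mH t 0 A.X.H v.1.val v.2 y) := iv_mono (by
    rintro ⟨_, h3⟩
    by_cases h4 : z.val = A.X.zB + A.K + A.X.H + 1
    · refine ⟨h4, ?_⟩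
      rw [lv_top (by omega)] at h3
      have e1 : z.val - 1 - (A.X.zB + A.K) = A.X.H := by omega
      rw [e1] at h3
      exact h3
    · rw [key _ _ (by omega)] at h3
      exact absurd h3 (Set.notMem_empty _))
  omega

/-- at the top of the columns outside the sparse set -/
theorem cm_axis (v : Fin n × (Fin e → Fin n)) (z : Fin n) (y : Fin (μ + k) → Fin n)
    (hz : A.X.zB + A.K < z.val) (h5 : 4 ≤ v.1.val) (ho : v.2 = A.Z.o) (hy : y ∉ A.X.D) :
    cnt (GG e μ k n) (A.mm t) ((v, z), y) ≤ cnt (Gd (μ + k) n) A.X.D y := by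
  rw [cm_eq, lv_top (by omega), set_top (by omega)]
  have hC : (0 < z.val ∧ v ∈ A.lv t y (z.val - 1)) →
      A.mH t 0 (z.val - (A.X.zB + A.K) - 1) v.1.val v.2 y := by
    rintro ⟨_, h3⟩
    rw [lv_top (by omega)] at h3
    have e1 : z.val - 1 - (A.X.zB + A.K) = z.val - (A.X.zB + A.K) - 1 := by omega
    rw [e1] at h3
    exact h3
  have hD : (z.val + 1 < n ∧ v ∈ A.lv t y (z.val + 1)) →
      A.mH t 0 (z.val - (A.X.zB + A.K) + 1) v.1.val v.2 y := by
    rintro ⟨h2, h3⟩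
    rw [lv_top (by omega)] at h3
    have e1 : z.val + 1 - (A.X.zB + A.K) = z.val - (A.X.zB + A.K) + 1 := by omega
    rw [e1] at h3
    exact h3
  refine (lay_HC (A := A) hC hD).trans ?_
  rw [ho]
  exact YG.hc_out (by omega) h5 hy

/-- coordinates of the members -/
theorem mm_coord {v : Fin n × (Fin e → Fin n)} {z : ℕ} {y : Fin (μ + k) → Fin n}
    (h : v ∈ A.lv t y z) : (∀ i, (v.2 i).val + 5 ≤ n) ∧ ∀ l, (y l).val + 5 ≤ n := by
  have hn := n5 A
  have hcyl : ∀ y, (y ∈ A.X.D ∨ ∃ j < A.X.F, y ∈ A.X.P j) → ∀ l, (y l).val + 5 ≤ n := by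
    intro y hy l
    have := A.yb y hy l
    omega
  have hbx : ∀ β w, A.B.Bx A.hf β w → ∀ i, (w i).val + 5 ≤ n := by
    intro β w hb i
    obtain ⟨_, hb⟩ := hb
    have h1 := ((Tb.mem_range A.hf).1 hb).2.2 i
    have h2 := A.hsz i
    have h3 : (w i).val < A.sz i := h1
    omega
  have hn7 : 1 + 5 ≤ n ∧ 2 + 5 ≤ n := by omega
  have hH : ∀ s h, A.mH t s h v.1.val v.2 y →
      (∀ i, (v.2 i).val + 5 ≤ n) ∧ ∀ l, (y l).val + 5 ≤ n := by
    intro s h hm
    rcases hm with (h2 | h2 | ⟨j, h2, h3, h4⟩) | h2 | ⟨h2, j, h3, h4, h5, h6⟩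
    · exact ⟨hbx _ _ h2.2.2.1, hcyl _ (Or.inl h2.2.1)⟩
    · refine ⟨fun i => ?_, hcyl _ (Or.inl h2.2.2.1)⟩
      rcases h2.2.2.2 with h3 | h3
      · have := A.ZΘ _ (A.Z.sub h3.2) i
        omega
      · rw [h3.1, A.Zo]; omega
    · refine ⟨fun i => ?_, hcyl _ (Or.inr ⟨j, h2.1, YG.rg_P h2 h3⟩)⟩
      rcases h4 with h4 | h4
      · have := A.ZΘ _ h4.2 i
        omega
      · rw [h4.2, A.Zo]; omega
    · refine ⟨fun i => ?_, hcyl _ (Or.inl (YG.on_D h2.2.2.2))⟩
      rw [h2.2.2.1, A.Zo]; omega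
    · refine ⟨fun i => ?_, hcyl _ (Or.inr ⟨j, h3.1, YG.rg_P h3 h4⟩)⟩
      rw [h2, A.Zo]; omega
  rcases h with h | h | h
  · exact hH _ _ h.2
  · obtain ⟨u, h3, h4⟩ := h.2.2
    refine ⟨fun i => ?_, hcyl _ (Or.inl (YG.memS_D h4))⟩
    have h1 := ((Tb.mem_range A.hf).1 ⟨u, h3⟩).2.2 i
    have h2 := A.hsz i
    omega
  · exact hH _ _ h.2

/-- next to a member -/
theorem cm_safe {p : VV e μ k n} (h : cnt (GG e μ k n) (A.mm t) p ≠ 0) :
    (∀ i, (p.1.1.2 i).val + 4 ≤ n) ∧ ∀ l, (p.2 l).val + 4 ≤ n := by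
  by_contra hc
  apply h
  apply cnt_eq_zero
  rintro ⟨⟨⟨β', w'⟩, z'⟩, y'⟩ hq hadj
  apply hc
  have hq' : ((β', w') : Fin n × (Fin e → Fin n)) ∈ A.lv t y' z'.val := hq
  obtain ⟨h1, h2⟩ := mm_coord hq'
  obtain ⟨⟨⟨β, w⟩, z⟩, y⟩ := p
  rw [boxProd_adj, boxProd_adj] at hadj
  have hw : w = w' ∨ (Gd e n).Adj w w' := by
    rcases hadj with ⟨⟨h3, _⟩ | ⟨_, h3⟩, _⟩ | ⟨_, h3⟩
    · rw [Gv_adj] at h3
      rcases h3 with h3 | h3
      · exact Or.inl h3.2
      · exact Or.inr h3.1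
    · exact Or.inl (congrArg Prod.snd h3)
    · exact Or.inl (congrArg (fun p => p.1.2) h3)
  have hy : y = y' ∨ (Gd (μ + k) n).Adj y y' := by
    rcases hadj with ⟨_, h3⟩ | ⟨h3, _⟩
    · exact Or.inl h3
    · exact Or.inr h3
  refine ⟨fun i => ?_, fun l => ?_⟩
  · show (w i).val + 4 ≤ n
    have h3 : (w' i).val + 5 ≤ n := h1 i
    rcases hw with hw | hw
    · rw [hw]; omega
    · have := adj_close hw i
      omega
  · show (y l).val + 4 ≤ n
    have h3 := h2 l
    rcases hy with hy | hy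
    · rw [hy]; omega
    · have := adj_close hy l
      omega

end Cfg

end Pool.Agent.Helper70.Gen
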