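import Mathlib
import Pool.Agent.Helper70.Gen.Bar2
import Pool.Agent.Helper18.Gen.Ign

/-!
# General thresholds: slowness
-/

set_option linter.unusedSectionVars false
set_option linter.unusedVariables false

namespace Pool.Agent.Helper70.Gen

open Set SimpleGraph Pool.Agent.Helper19.Perco Pool.Agent.Helper70.Duo Pool.Agent.Helper70.Thr3

namespace Cfg

variable {e μ k n : ℕ} (A : Cfg e μ k n)

/-- height of the final part -/
def zf : ℕ := A.X.zB + A.K + A.X.H + 2

/-- the fuse -/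
def pf : VV e μ k n :=
  (((⟨5, by have := A.hz; omega⟩, A.Z.o), ⟨A.zf - 1, by have := A.hz; unfold zf; omega⟩),
    A.X.line A.X.F)

/-- the ignition system -/
def I : IgD (e + μ + 1) k n where
  zf := A.zf
  c := fun a => (big A.pf a).val
  hm := by have := A.hμ; have := A.he; omega
  hk := A.hk
  c1 := by
    intro a
    rcases idx_cases a with h | ⟨i, h⟩ | h | ⟨l, h⟩ <;> subst h
    · rw [big_0]; show 1 ≤ 5; omega
    · rw [big_w]; exact (A.Zo i).ge
    · rw [big_z]; show 1 ≤ A.zf - 1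
      have := A.hK
      unfold zf; omega
    · rw [big_y]; exact A.y1 l
  cn := by
    intro a
    have hz := A.hz
    have hK := A.hK
    rcases idx_cases a with h | ⟨i, h⟩ | h | ⟨l, h⟩ <;> subst h
    · rw [big_0]; show 5 + (4 * (e + μ + 1 + 1) + 8) ≤ n; omega
    · rw [big_w]
      show (A.Z.o i).val + _ ≤ n
      rw [A.Zo i]; omega
    · rw [big_z]; show A.zf - 1 + (4 * (e + μ + 1 + 1) + 8) ≤ n
      unfold zf; omega
    · rw [big_y]
      have := A.yb _ (Or.inl (YG.line_D (X := A.X) le_rfl)) l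
      show (A.X.line A.X.F l).val + (4 * (e + μ + 1 + 1) + 8) ≤ n
      omega
  z2 := by
    have hK := A.hK
    unfold zf; omega
  zn := by
    have hz := A.hz
    unfold zf; omega

/-- the ignition system in the product -/
def JJ : Set (VV e μ k n) := Phi e μ k n ⁻¹' A.I.J

variable {A} {t : ℕ}

lemma cnt_JJ (p : VV e μ k n) : cnt (GG e μ k n) A.JJ p =
    cnt (Gd (e + μ + 1 + 1 + k) n) A.I.J (big p) := cnt_iso (Phi e μ k n) A.I.J p

lemma Z_big (p : VV e μ k n) : IgD.Z (big p) = p.1.2.val := by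
  unfold IgD.Z
  show (big p az).val = _
  rw [big_z]

lemma safe_big {p : VV e μ k n} (h : (∀ i, (p.1.1.2 i).val + 4 ≤ n) ∧ ∀ l, (p.2 l).val + 4 ≤ n) :
    IgD.safe (big p) := by
  intro a h1 h2
  rcases idx_cases a with h' | ⟨i, h'⟩ | h' | ⟨l, h'⟩ <;> subst h'
  · exact absurd h1 (by show ¬ 1 ≤ 0; omega)
  · rw [big_w]; exact h.1 i
  · exact absurd rfl h2
  · rw [big_y]; exact h.2 l

lemma c_0 : A.I.c a0 = 5 := by
  show (big A.pf a0).val = 5
  rw [big_0]; rfl
lemma c_w (i : Fin e) : A.I.c (aw i) = 1 := by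
  show (big A.pf (aw i)).val = 1
  rw [big_w]; exact A.Zo i
lemma c_y (l : Fin (μ + k)) : A.I.c (ay l) = (A.X.line A.X.F l).val := by
  show (big A.pf (ay l)).val = _
  rw [big_y]; rfl

lemma w_eq {w : Fin e → Fin n} (h : ∀ i, (w i).val = 1) : w = A.Z.o :=
  funext fun i => Fin.ext ((h i).trans (A.Zo i).symm)

lemma cor_big {p : VV e μ k n} (h : A.I.cor (big p)) :
    p.1.1.1.val = 5 ∧ p.1.1.2 = A.Z.o ∧ p.2 = A.X.line A.X.F := by
  refine ⟨?_, w_eq fun i => ?_, funext fun l => Fin.ext ?_⟩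
  · have := h a0 (by show 0 ≠ e + μ + 1; omega)
    rwa [big_0, c_0] at this
  · have := h (aw i) (by show i.val + 1 ≠ e + μ + 1; have := i.isLt; omega)
    rwa [big_w, c_w] at this
  · have := h (ay l) (ay_bd l).2
    rwa [big_y, c_y] at this

lemma pat_big {p : VV e μ k n} (h : A.I.pat (big p)) :
    (p.1.1.1.val = 6 ∧ p.1.1.2 = A.Z.o ∧ p.2 = A.X.line A.X.F) ∨
    (p.1.1.1.val = 5 ∧ p.1.1.2 ∈ A.Z.Θp ∧ p.2 = A.X.line A.X.F) ∨
    (p.1.1.1.val = 5 ∧ p.1.1.2 = A.Z.o ∧ ∃ l : Fin (μ + k), l.val < μ ∧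
      (p.2 l).val = (A.X.line A.X.F l).val + 1 ∧ ∀ l', l' ≠ l → p.2 l' = A.X.line A.X.F l') := by
  obtain ⟨h1, b, hb, h2, h3⟩ := h
  have hlow : ∀ l : Fin (μ + k), ¬ l.val < μ → (p.2 l).val = (A.X.line A.X.F l).val := by
    intro l hl
    have := h1 (ay l) (by rw [ay_ge hl]; omega)
    rwa [big_y, c_y] at this
  have hlt : ∀ l : Fin (μ + k), l.val < μ →
      (ay l : Fin (e + μ + 1 + 1 + k)).val < e + μ + 1 := by
    intro l hl
    rw [ay_lt hl]; omega
  rcases idx_cases b with h' | ⟨i, h'⟩ | h' | ⟨l, h'⟩ <;> subst h'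
  · left
    rw [big_0, c_0] at h2
    refine ⟨h2, w_eq fun i => ?_, funext fun l => Fin.ext ?_⟩
    · have := h3 (aw i) (by show i.val + 1 < e + μ + 1; have := i.isLt; omega) (by
        intro h
        have h5 : i.val + 1 = 0 := congrArg Fin.val h
        omega)
      rwa [big_w, c_w] at this
    · by_cases hl : l.val < μ
      · have := h3 (ay l) (hlt l hl) (by
          intro h
          have h5 : (ay l : Fin (e + μ + 1 + 1 + k)).val = 0 := congrArg Fin.val h
          have := ay_bd (e := e) (μ := μ) (k := k) l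
          omega)
        rwa [big_y, c_y] at this
      · exact hlow l hl
  · right; left
    rw [big_w, c_w] at h2
    refine ⟨?_, ?_, funext fun l => Fin.ext ?_⟩
    · have := h3 a0 (by show 0 < e + μ + 1; omega) (by
        intro h
        have h5 : 0 = i.val + 1 := congrArg Fin.val h
        omega)
      rwa [big_0, c_0] at this
    · rw [A.Zp]
      refine ⟨i, h2, fun j hj => ?_⟩
      have := h3 (aw j) (by show j.val + 1 < e + μ + 1; have := j.isLt; omega) (by
        intro h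
        have h5 : j.val + 1 = i.val + 1 := congrArg Fin.val h
        exact hj (Fin.ext (by omega)))
      rwa [big_w, c_w] at this
    · by_cases hl : l.val < μ
      · have := h3 (ay l) (hlt l hl) (by
          intro h
          have h5 : (ay l : Fin (e + μ + 1 + 1 + k)).val = i.val + 1 := congrArg Fin.val h
          have := ay_bd (e := e) (μ := μ) (k := k) l
          have := i.isLt
          omega)
        rwa [big_y, c_y] at this
      · exact hlow l hl
  · exact absurd hb (by show ¬ e + μ + 1 < e + μ + 1; omega)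
  · right; right
    have hl : l.val < μ := by
      by_contra hl
      rw [ay_ge hl] at hb
      omega
    rw [big_y, c_y] at h2
    refine ⟨?_, w_eq fun i => ?_, l, hl, h2, fun l' hl' => Fin.ext ?_⟩
    · have := h3 a0 (by show 0 < e + μ + 1; omega) (by
        intro h
        have h5 : 0 = (ay l : Fin (e + μ + 1 + 1 + k)).val := congrArg Fin.val h
        have := ay_bd (e := e) (μ := μ) (k := k) l
        omega)
      rwa [big_0, c_0] at this
    · have := h3 (aw i) (by show i.val + 1 < e + μ + 1; have := i.isLt; omega) (by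
        intro h
        have h5 : i.val + 1 = (ay l : Fin (e + μ + 1 + 1 + k)).val := congrArg Fin.val h
        have := ay_bd (e := e) (μ := μ) (k := k) l
        have := i.isLt
        omega)
      rwa [big_w, c_w] at this
    · by_cases hl2 : l'.val < μ
      · have := h3 (ay l') (hlt l' hl2) (fun h => hl' (ay_inj h))
        rwa [big_y, c_y] at this
      · exact hlow l' hl2

lemma H_mod : A.X.H % 5 = 3 := by unfold YG.H; omega

/-- members at the last level -/
lemma last_mem {p : VV e μ k n} (hz : p.1.2.val + 2 = A.zf)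
    (h : A.mH t 0 A.X.H p.1.1.1.val p.1.1.2 p.2) : p ∈ A.mm t := by
  have h1 : p.1.2.val = A.X.zB + A.K + A.X.H := by unfold zf at hz; omega
  show p.1.1 ∈ A.lv t p.2 p.1.2.val
  rw [lv_top (by omega), h1]
  have e1 : A.X.zB + A.K + A.X.H - (A.X.zB + A.K) = A.X.H := by omega
  rw [e1]
  exact h

theorem barrier (ht : t < (A.X.F + 1) * A.d) (p : VV e μ k n)
    (hp : p ∉ A.mm (t + 1) ∪ A.JJ) : cnt (GG e μ k n) (A.mm t ∪ A.JJ) p < e + μ + 2 := by
  have hpm : p ∉ A.mm (t + 1) := fun h => hp (Or.inl h)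
  have hpJ : big p ∉ A.I.J := fun h => hp (Or.inr h)
  have hu := Helper18.Gen.cnt_union_le (GG e μ k n) (A.mm t) A.JJ p
  have hj := Helper18.Gen.ig2 A.I (big p) hpJ
  rw [← cnt_JJ] at hj
  have hμ := A.hμ
  have he := A.he
  by_cases hc0 : cnt (GG e μ k n) (A.mm t) p = 0
  · omega
  have hs := safe_big (cm_safe hc0)
  have hcm : cnt (GG e μ k n) (A.mm t) p ≤ e + μ + 1 := by
    obtain ⟨⟨v, z⟩, y⟩ := p
    exact cm_le v z y hpm
  have hZ := Z_big p
  have hzf : A.I.zf = A.zf := rfl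
  rcases Nat.lt_or_ge (p.1.2.val + 2) A.zf with h3 | h3
  · have h4 := Helper18.Gen.ig3 A.I (big p) hs (by omega)
    rw [← cnt_JJ] at h4
    omega
  rcases Nat.eq_or_lt_of_le h3 with h2 | h2
  · have h4 := Helper18.Gen.ig4 A.I (big p) hs (by omega)
    rw [← cnt_JJ] at h4
    by_cases hpat : A.I.pat (big p)
    · rcases pat_big hpat with h5 | h5 | ⟨h5, h6, l, h7, h8, h9⟩
      · exfalso
        apply hpm
        apply last_mem (by omega)
        rw [h5.1, h5.2.1, h5.2.2]
        refine Or.inl (Or.inr (Or.inl ⟨?_, le_rfl, YG.line_D le_rfl, Or.inr ⟨rfl, Or.inl ⟨rfl, ?_⟩⟩⟩))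
        · have := H_mod (A := A); omega
        · have := H_mod (A := A); omega
      · exfalso
        apply hpm
        apply last_mem (by omega)
        rw [h5.1, h5.2.2]
        refine Or.inl (Or.inr (Or.inl ⟨?_, le_rfl, YG.line_D le_rfl, Or.inl ⟨rfl, h5.2.1⟩⟩))
        have := H_mod (A := A); omega
      · obtain ⟨h10, h11⟩ := A.yl l h7 p.2 h8 h9
        have h12 : cnt (GG e μ k n) (A.mm t) p ≤ cnt (Gd (μ + k) n) A.X.D p.2 := by
          have hH := H_mod (A := A)
          obtain ⟨⟨v, z⟩, y⟩ := p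
          have h2' : A.zf = z.val + 2 := h2
          have h5' : v.1.val = 5 := h5
          unfold zf at h2'
          exact cm_axis v z y (by omega) (by omega) h6 h10
        omega
    · have := h4.2 hpat
      omega
  · have h4 : cnt (GG e μ k n) (A.mm t) p ≤
        iv (p.1.2.val = A.X.zB + A.K + A.X.H + 1 ∧ A.mH t 0 A.X.H p.1.1.1.val p.1.1.2 p.2) := by
      obtain ⟨⟨v, z⟩, y⟩ := p
      have h2' : A.zf < z.val + 2 := h2
      unfold zf at h2'
      exact cm_high v z y (by omega)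
    have h5 : p.1.2.val = A.X.zB + A.K + A.X.H + 1 ∧
        A.mH t 0 A.X.H p.1.1.1.val p.1.1.2 p.2 := by
      by_contra h6
      rw [iv_zero h6] at h4
      omega
    have h6 := iv_le (p.1.2.val = A.X.zB + A.K + A.X.H + 1 ∧
      A.mH t 0 A.X.H p.1.1.1.val p.1.1.2 p.2)
    by_cases hcor : A.I.cor (big p)
    · exfalso
      obtain ⟨c1, c2, c3⟩ := cor_big hcor
      have h7 := h5.2
      rw [c1, c2, c3] at h7
      have hH := H_mod (A := A)
      rcases YG.mem_ax (by omega) h7 with h8 | h8 | h8 | ⟨j, h8, h9, h10⟩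
      · rcases h8.2 with h9 | ⟨i, h9, h10, h11⟩
        · exact A.X.lineFu _ le_rfl h9
        · have := A.X.inj _ le_rfl i h9 h10
          subst this
          unfold YG.tt at h11
          rw [if_pos A.X.hF2] at h11
          omega
      · omega
      · omega
      · have := YG.rg_bd h9
        omega
    · have h7 := Helper18.Gen.ig5 A.I (big p) hpJ hs (by unfold zf at *; omega) hcor
      rw [← cnt_JJ] at h7
      omega

variable (A) in
/-- the seeds -/
def seeds : Set (VV e μ k n) :=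
  {p | (p.1.2.val ≤ A.X.zB ∧ A.mH 0 1 (A.X.zB - p.1.2.val) p.1.1.1.val p.1.1.2 p.2) ∨
    (A.X.zB < p.1.2.val ∧ p.1.2.val < A.X.zB + A.K ∧ ∃ u, A.B.ι A.hf u = p.1.1 ∧
      (p.2 ∈ A.X.Fu ∨ ∃ i ≤ A.X.F, p.2 = A.X.line i ∧
        u ∈ (R A.B.P A.B.Q (p.1.2.val - A.X.zB)).A)) ∨
    (A.X.zB + A.K ≤ p.1.2.val ∧
      A.mH 0 0 (p.1.2.val - (A.X.zB + A.K)) p.1.1.1.val p.1.1.2 p.2)}

lemma A_CO {j z : ℕ} (h1 : 1 ≤ z) (h2 : z < A.K) {u : A.B.V} (h : u ∈ (R A.B.P A.B.Q z).A) :
    u ∈ CO A.K A.B.P A.B.Q (dz A.K j z) := by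
  have hK2 := A.hK2
  have e0 : R A.B.P A.B.Q (dz A.K j z) = R A.B.P A.B.Q z := by
    unfold dz R
    split_ifs with h3 h4 h5 h5
    · rfl
    · rfl
    · rfl
    · exfalso; omega
    · exfalso; omega
    · rfl
  by_cases hd : dz A.K j z = 1 ∨ dz A.K j z + 1 = A.K
  · rw [CO_end hd]
    rw [← e0] at h
    have : R A.B.P A.B.Q (dz A.K j z) = A.B.P := R_odd _ _ (by omega)
    rw [this] at h
    exact A.B.hP.AC h
  · rw [CO_mid hd, e0]
    exact Or.inl h

lemma seeds_mm : A.seeds ⊆ A.mm 0 := by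
  rintro ⟨⟨v, z⟩, y⟩ (h | h | h)
  · exact Or.inl h
  · refine Or.inr (Or.inl ⟨h.1, h.2.1, ?_⟩)
    obtain ⟨u, h3, h4⟩ := h.2.2
    refine ⟨u, h3, ?_⟩
    rcases h4 with h4 | ⟨i, hi, h4, h5⟩
    · exact Or.inl h4
    · have ha : A.X.zB < z.val := h.1
      have hb : z.val < A.X.zB + A.K := h.2.1
      exact Or.inr ⟨i, hi, h4, Or.inl (A_CO (by show 1 ≤ z.val - A.X.zB; omega)
        (by show z.val - A.X.zB < A.K; omega) h5)⟩
  · exact Or.inr (Or.inr h)

lemma mm_mono : A.mm t ⊆ A.mm (t + 1) := by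
  rintro ⟨⟨v, z⟩, y⟩ (h | h | h)
  · exact Or.inl ⟨h.1, YG.memH_mono (by omega) h.2⟩
  · refine Or.inr (Or.inl ⟨h.1, h.2.1, ?_⟩)
    obtain ⟨u, h3, h4⟩ := h.2.2
    refine ⟨u, h3, ?_⟩
    rcases h4 with h4 | ⟨i, hi, h4, h5 | h5⟩
    · exact Or.inl h4
    · exact Or.inr ⟨i, hi, h4, Or.inl h5⟩
    · exact Or.inr ⟨i, hi, h4, Or.inr (by omega)⟩
  · exact Or.inr (Or.inr ⟨h.1, YG.memH_mono (by omega) h.2⟩)

lemma pf_mm : A.pf ∉ A.mm t := by
  have hK := A.hK
  have hzf : A.zf = A.X.zB + A.K + A.X.H + 2 := rfl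
  have hz : A.pf.1.2.val = A.zf - 1 := rfl
  intro h
  have h' : A.pf.1.1 ∈ A.lv t A.pf.2 A.pf.1.2.val := h
  rw [lv_top (by omega)] at h'
  exact YG.mem_high (by omega) h'

lemma pf_J : A.pf ∉ A.JJ := by
  have hm := A.I.hm
  have hx : ∀ a, (big A.pf a).val = A.I.c a := fun a => rfl
  have hZ := Z_big A.pf
  have hz : A.pf.1.2.val = A.I.zf - 1 := rfl
  have hz2 := A.I.z2
  intro hJ
  have hJ' : big A.pf ∈ A.I.J := hJ
  rcases hJ' with h | h | h | h | h
  · obtain ⟨_, _, b, hb, h2, _⟩ := h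
    rw [hx] at h2
    omega
  · have := h.1
    omega
  · have := h.1
    omega
  · obtain ⟨_, a, h1, h2, h3⟩ := h
    rw [hx] at h3
    have := A.I.cn a
    omega
  · obtain ⟨_, _, h3, _⟩ := h
    have h3' : (big A.pf IgD.h0).val + 2 + 2 * (IgD.cod2 (big A.pf) % (2 * (e + μ + 1 + 1))) = n := h3
    rw [hx] at h3'
    have h4 := A.I.cn IgD.h0
    have h5 : IgD.cod2 (big A.pf) % (2 * (e + μ + 1 + 1)) < 2 * (e + μ + 1 + 1) :=
      Nat.mod_lt _ (by omega)
    omega

/-- the process is slow -/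
theorem slow_proc : A.pf ∉ proc (GG e μ k n) (e + μ + 2) (A.seeds ∪ A.JJ) ((A.X.F + 1) * A.d) := by
  intro hp
  have h1 := proc_subset_barrier (GG e μ k n) (e + μ + 2) (A.seeds ∪ A.JJ) ((A.X.F + 1) * A.d)
    (fun t => A.mm t ∪ A.JJ) (Set.union_subset_union_left _ seeds_mm)
    (fun t ht p hp => ⟨fun h => hp (h.elim (fun h => Or.inl (mm_mono h)) Or.inr),
      barrier ht p hp⟩) _ le_rfl hp
  rcases h1 with h1 | h1
  · exact pf_mm h1
  · exact pf_J h1

end Cfg

end Pool.Agent.Helper70.Gen
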