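import Mathlib
import Pool.Agent.Helper70.Gen.Bar3
import Pool.Agent.Helper33.Gen.Ig1

/-!
# General thresholds: percolation
-/

set_option linter.unusedSectionVars false
set_option linter.unusedVariables false

namespace Pool.Agent.Helper70.Gen

open Set SimpleGraph Pool.Agent.Helper19.Perco Pool.Agent.Helper70.Duo Pool.Agent.Helper70.Thr3

/-- lower bound for a count -/
lemma cnt_ge_of {V : Type*} [Finite V] {G : SimpleGraph V} {S T : Set V} {v : V} {c : ℕ}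
    (h : c ≤ cnt G T v) (hs : T ⊆ S) : c ≤ cnt G S v := h.trans (cnt_mono G hs v)

/-- height of the level `h` on the side `s` -/
def zo (zB K s h : ℕ) : ℕ := if s = 0 then zB + K + h else zB - h

/-- height of the slice next to the wall -/
def zi (zB K s : ℕ) : ℕ := if s = 0 then zB + K - 1 else zB + 1

/-- a closed set containing the seeds, as a predicate -/
structure Cl {e μ k n : ℕ} (A : Cfg e μ k n)
    (M : ℕ → ℕ → (Fin e → Fin n) → (Fin (μ + k) → Fin n) → Prop) : Prop where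
  rule : ∀ z < n, ∀ β < n, ∀ w y, e + μ + 2 ≤ iv (0 < β ∧ M z (β - 1) w y) + iv (M z (β + 1) w y) +
    cnt (Gd e n) {w' | M z β w' y} w + (iv (0 < z ∧ M (z - 1) β w y) + iv (M (z + 1) β w y)) +
    cnt (Gd (μ + k) n) {y' | M z β w y'} y → M z β w y
  seedH : ∀ s ≤ 1, ∀ h ≤ A.X.H, ∀ β < n, ∀ w y, A.mH 0 s h β w y → M (zo A.X.zB A.K s h) β w y
  seedS : ∀ z, 1 ≤ z → z < A.K → ∀ u y, (y ∈ A.X.Fu ∨ ∃ i ≤ A.X.F, y = A.X.line i ∧
    u ∈ (R A.B.P A.B.Q z).A) → M (A.X.zB + z) (A.B.ι A.hf u).1.val (A.B.ι A.hf u).2 y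

/-- closed sets satisfy the conditions -/
theorem Cfg.toCl {e μ k n : ℕ} (A : Cfg e μ k n) (S : Set (VV e μ k n)) (hS : A.seeds ⊆ S)
    (hcl : Closed (GG e μ k n) (e + μ + 2) S) :
    Cl A (fun z β w y => ∃ (hz : z < n) (hβ : β < n), (((⟨β, hβ⟩, w), ⟨z, hz⟩), y) ∈ S) := by
  set M : ℕ → ℕ → (Fin e → Fin n) → (Fin (μ + k) → Fin n) → Prop :=
    fun z β w y => ∃ (hz : z < n) (hβ : β < n), (((⟨β, hβ⟩, w), ⟨z, hz⟩), y) ∈ S with hM
  have hMi : ∀ (z β : Fin n) w y, M z.val β.val w y ↔ (((β, w), z), y) ∈ S := by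
    intro z β w y
    constructor
    · rintro ⟨_, _, h⟩; exact h
    · intro h; exact ⟨z.isLt, β.isLt, h⟩
  have hzn := A.hz
  have hzB : A.X.zB = A.X.H + 1 := rfl
  refine
    { rule := ?_, seedH := ?_, seedS := ?_ }
  · intro z hz β hβ w y h
    refine ⟨hz, hβ, hcl _ (h.trans ?_)⟩
    rw [cnt_boxProd, cnt_boxProd, cnt_boxProd]
    have e1 : cnt (pathGraph n) {x' : Fin n | (x', w) ∈ {x' : Fin n × (Fin e → Fin n) |
        (x', (⟨z, hz⟩ : Fin n)) ∈ {x' | (x', y) ∈ S}}} ⟨β, hβ⟩ =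
        iv (0 < β ∧ M z (β - 1) w y) + iv (β + 1 < n ∧ M z (β + 1) w y) := by
      have e2 : {x' : Fin n | (x', w) ∈ {x' : Fin n × (Fin e → Fin n) |
        (x', (⟨z, hz⟩ : Fin n)) ∈ {x' | (x', y) ∈ S}}} = {x' : Fin n | M z x'.val w y} := by
        ext x'
        exact (hMi ⟨z, hz⟩ x' w y).symm
      rw [e2]
      refine (cnt_path n (fun i => M z i w y) ⟨β, hβ⟩).trans ?_
      unfold iv; congr
    have e3 : cnt (pathGraph n) {z' : Fin n | (((⟨β, hβ⟩, w) : Fin n × (Fin e → Fin n)), z') ∈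
        {x' | (x', y) ∈ S}} ⟨z, hz⟩ =
        iv (0 < z ∧ M (z - 1) β w y) + iv (z + 1 < n ∧ M (z + 1) β w y) := by
      have e2 : {z' : Fin n | (((⟨β, hβ⟩, w) : Fin n × (Fin e → Fin n)), z') ∈
        {x' | (x', y) ∈ S}} = {x' : Fin n | M x'.val β w y} := by
        ext x'
        exact (hMi x' ⟨β, hβ⟩ w y).symm
      rw [e2]
      refine (cnt_path n (fun i => M i β w y) ⟨z, hz⟩).trans ?_
      unfold iv; congr
    have e4 : cnt (Gd e n) {z' | ((⟨β, hβ⟩ : Fin n), z') ∈ {x' : Fin n × (Fin e → Fin n) |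
        (x', (⟨z, hz⟩ : Fin n)) ∈ {x' | (x', y) ∈ S}}} w = cnt (Gd e n) {w' | M z β w' y} w := by
      congr 1
      ext w'
      exact (hMi ⟨z, hz⟩ ⟨β, hβ⟩ w' y).symm
    have e5 : cnt (Gd (μ + k) n) {z' | ((((⟨β, hβ⟩, w) : Fin n × (Fin e → Fin n)),
        (⟨z, hz⟩ : Fin n)), z') ∈ S} y = cnt (Gd (μ + k) n) {y' | M z β w y'} y := by
      congr 1
      ext y'
      exact (hMi ⟨z, hz⟩ ⟨β, hβ⟩ w y').symm
    rw [e1, e3, e4, e5]
    have i1 : iv (M z (β + 1) w y) ≤ iv (β + 1 < n ∧ M z (β + 1) w y) := iv_mono (fun h => ⟨h.2.1, h⟩)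
    have i2 : iv (M (z + 1) β w y) ≤ iv (z + 1 < n ∧ M (z + 1) β w y) := iv_mono (fun h => ⟨h.1, h⟩)
    omega
  · intro s hs h hh β hβ w y hm
    rcases Nat.eq_zero_or_pos s with h0 | h0
    · subst h0
      have e1 : zo A.X.zB A.K 0 h = A.X.zB + A.K + h := if_pos rfl
      rw [e1]
      refine ⟨by omega, hβ, hS (Or.inr (Or.inr ⟨?_, ?_⟩))⟩
      · show A.X.zB + A.K ≤ A.X.zB + A.K + h
        omega
      · show A.mH 0 0 (A.X.zB + A.K + h - (A.X.zB + A.K)) β w y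
        have e2 : A.X.zB + A.K + h - (A.X.zB + A.K) = h := by omega
        rw [e2]; exact hm
    · have h1 : s = 1 := by omega
      subst h1
      have e1 : zo A.X.zB A.K 1 h = A.X.zB - h := if_neg (by omega)
      rw [e1]
      refine ⟨by omega, hβ, hS (Or.inl ⟨?_, ?_⟩)⟩
      · show A.X.zB - h ≤ A.X.zB
        omega
      · show A.mH 0 1 (A.X.zB - (A.X.zB - h)) β w y
        have e2 : A.X.zB - (A.X.zB - h) = h := by omega
        rw [e2]; exact hm
  · intro z h1 h2 u y hm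
    refine ⟨by omega, (A.B.ι A.hf u).1.isLt, hS (Or.inr (Or.inl ⟨?_, ?_, u, rfl, ?_⟩))⟩
    · show A.X.zB < A.X.zB + z
      omega
    · show A.X.zB + z < A.X.zB + A.K
      omega
    · show y ∈ A.X.Fu ∨ ∃ i ≤ A.X.F, y = A.X.line i ∧
        u ∈ (R A.B.P A.B.Q (A.X.zB + z - A.X.zB)).A
      have e2 : A.X.zB + z - A.X.zB = z := by omega
      rw [e2]; exact hm

namespace Cl

variable {e μ k n : ℕ} {A : Cfg e μ k n}
variable {M : ℕ → ℕ → (Fin e → Fin n) → (Fin (μ + k) → Fin n) → Prop}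
variable {s h β : ℕ} {w : Fin e → Fin n} {y : Fin (μ + k) → Fin n}

/-- the rule beyond the walls -/
lemma ruleN (hM : Cl A M) (hs : s ≤ 1) (h1 : 1 ≤ h) (hH : h ≤ A.X.H) (hβ : β < n)
    (hc : e + μ + 2 ≤ iv (0 < β ∧ M (zo A.X.zB A.K s h) (β - 1) w y) +
      iv (M (zo A.X.zB A.K s h) (β + 1) w y) +
      cnt (Gd e n) {w' | M (zo A.X.zB A.K s h) β w' y} w +
      (iv (M (zo A.X.zB A.K s (h - 1)) β w y) + iv (h < A.X.H ∧ M (zo A.X.zB A.K s (h + 1)) β w y)) +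
      cnt (Gd (μ + k) n) {y' | M (zo A.X.zB A.K s h) β w y'} y) :
    M (zo A.X.zB A.K s h) β w y := by
  have hzn := A.hz
  have hzB : A.X.zB = A.X.H + 1 := rfl
  rcases Nat.eq_zero_or_pos s with h0 | h0
  · subst h0
    have e1 : ∀ h, zo A.X.zB A.K 0 h = A.X.zB + A.K + h := fun h => if_pos rfl
    simp only [e1] at hc ⊢
    apply hM.rule _ (by omega) _ hβ
    have i1 : iv (M (A.X.zB + A.K + (h - 1)) β w y) ≤
        iv (0 < A.X.zB + A.K + h ∧ M (A.X.zB + A.K + h - 1) β w y) := iv_mono (by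
      intro h2
      have e2 : A.X.zB + A.K + h - 1 = A.X.zB + A.K + (h - 1) := by omega
      rw [e2]; exact ⟨by omega, h2⟩)
    have i2 : iv (h < A.X.H ∧ M (A.X.zB + A.K + (h + 1)) β w y) ≤
        iv (M (A.X.zB + A.K + h + 1) β w y) := iv_mono (fun h2 => h2.2)
    omega
  · have hs1 : s = 1 := by omega
    subst hs1
    have e1 : ∀ h, zo A.X.zB A.K 1 h = A.X.zB - h := fun h => if_neg (by omega)
    simp only [e1] at hc ⊢
    apply hM.rule _ (by omega) _ hβ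
    have i1 : iv (M (A.X.zB - (h - 1)) β w y) ≤ iv (M (A.X.zB - h + 1) β w y) := iv_mono (by
      intro h2
      have e2 : A.X.zB - h + 1 = A.X.zB - (h - 1) := by omega
      rw [e2]; exact h2)
    have i2 : iv (h < A.X.H ∧ M (A.X.zB - (h + 1)) β w y) ≤
        iv (0 < A.X.zB - h ∧ M (A.X.zB - h - 1) β w y) := iv_mono (by
      rintro ⟨h2, h3⟩
      have e2 : A.X.zB - h - 1 = A.X.zB - (h + 1) := by omega
      rw [e2]; exact ⟨by omega, h3⟩)
    omega

/-- the rule at the walls -/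
lemma rule0 (hM : Cl A M) (hs : s ≤ 1) (hβ : β < n)
    (hc : e + μ + 2 ≤ iv (0 < β ∧ M (zo A.X.zB A.K s 0) (β - 1) w y) +
      iv (M (zo A.X.zB A.K s 0) (β + 1) w y) +
      cnt (Gd e n) {w' | M (zo A.X.zB A.K s 0) β w' y} w +
      (iv (M (zi A.X.zB A.K s) β w y) + iv (M (zo A.X.zB A.K s 1) β w y)) +
      cnt (Gd (μ + k) n) {y' | M (zo A.X.zB A.K s 0) β w y'} y) :
    M (zo A.X.zB A.K s 0) β w y := by
  have hzn := A.hz
  have hK := A.hK
  have hzB : A.X.zB = A.X.H + 1 := rfl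
  rcases Nat.eq_zero_or_pos s with h0 | h0
  · subst h0
    have e1 : ∀ h, zo A.X.zB A.K 0 h = A.X.zB + A.K + h := fun h => if_pos rfl
    have e' : zi A.X.zB A.K 0 = A.X.zB + A.K - 1 := if_pos rfl
    simp only [e1, e'] at hc ⊢
    apply hM.rule _ (by omega) _ hβ
    have i1 : iv (M (A.X.zB + A.K - 1) β w y) ≤
        iv (0 < A.X.zB + A.K + 0 ∧ M (A.X.zB + A.K + 0 - 1) β w y) := iv_mono (fun h2 =>
      ⟨by omega, h2⟩)
    have i2 : iv (M (A.X.zB + A.K + 1) β w y) ≤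
        iv (M (A.X.zB + A.K + 0 + 1) β w y) := iv_mono (fun h2 => h2)
    omega
  · have hs1 : s = 1 := by omega
    subst hs1
    have e1 : ∀ h, zo A.X.zB A.K 1 h = A.X.zB - h := fun h => if_neg (by omega)
    have e' : zi A.X.zB A.K 1 = A.X.zB + 1 := if_neg (by omega)
    simp only [e1, e'] at hc ⊢
    apply hM.rule _ (by omega) _ hβ
    have i1 : iv (M (A.X.zB + 1) β w y) ≤ iv (M (A.X.zB - 0 + 1) β w y) := iv_mono (fun h2 => h2)
    have i2 : iv (M (A.X.zB - 1) β w y) ≤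
        iv (0 < A.X.zB - 0 ∧ M (A.X.zB - 0 - 1) β w y) := iv_mono (fun h2 =>
      ⟨by omega, h2⟩)
    omega

/-! ### seeds -/

lemma help (hM : Cl A M) (hs : s ≤ 1) (h1 : 1 ≤ h) (hH : h ≤ A.X.H) (hy : y ∈ A.X.D) :
    ∀ w ∈ A.Z.Θp, M (zo A.X.zB A.K s h) 5 w y := by
  intro w hw
  have := A.n5
  exact hM.seedH s hs h hH 5 (by omega) w y
    (Or.inl (Or.inr (Or.inl ⟨h1, hH, hy, Or.inl ⟨rfl, hw⟩⟩)))

/-- the helper in the direction of `β` -/
lemma helpβ (hM : Cl A M) (hs : s ≤ 1) (h1 : 1 ≤ h) (hH : h ≤ A.X.H) (hy : y ∈ A.X.D) :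
    1 ≤ iv (0 < 5 ∧ M (zo A.X.zB A.K s h) (5 - 1) A.Z.o y) +
      iv (M (zo A.X.zB A.K s h) (5 + 1) A.Z.o y) := by
  have := A.n5
  by_cases h4 : h % 5 = 4
  · rw [iv_one (p := 0 < 5 ∧ M (zo A.X.zB A.K s h) (5 - 1) A.Z.o y)]
    · omega
    · refine ⟨by omega, ?_⟩
      exact hM.seedH s hs h hH 4 (by omega) _ y
        (Or.inl (Or.inr (Or.inl ⟨h1, hH, hy, Or.inr ⟨rfl, Or.inr ⟨rfl, h4⟩⟩⟩)))
  · rw [iv_one (p := M (zo A.X.zB A.K s h) (5 + 1) A.Z.o y)]
    · omega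
    · exact hM.seedH s hs h hH 6 (by omega) _ y
        (Or.inl (Or.inr (Or.inl ⟨h1, hH, hy, Or.inr ⟨rfl, Or.inl ⟨rfl, h4⟩⟩⟩)))

/-- columns over the full places -/
lemma colFu (hM : Cl A M) (hs : s ≤ 1) (hH : h ≤ A.X.H) (hy : y ∈ A.X.Fu) :
    M (zo A.X.zB A.K s h) 5 A.Z.o y := by
  have := A.n5
  exact hM.seedH s hs h hH 5 (by omega) _ y (Or.inr (Or.inl ⟨hH, rfl, rfl, Or.inl hy⟩))

/-- the count over the earlier neighbours -/
lemma cY (i : ℕ) (hi : i ≤ A.X.F) {Q : (Fin (μ + k) → Fin n) → Prop}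
    (h1 : ∀ y ∈ A.X.Fu, Q y) (h2 : ∀ l < i, Q (A.X.line l)) :
    μ ≤ cnt (Gd (μ + k) n) {y' | Q y'} (A.X.line i) := by
  refine (A.X.inn i hi).ge.trans (cnt_mono _ ?_ _)
  rintro y' (h | ⟨l, h3, h4⟩)
  · exact h1 y' h
  · show Q y'
    rw [h4]; exact h2 l h3

/-- a step of a column -/
lemma col_step (hM : Cl A M) (hs : s ≤ 1) {i : ℕ} (hi : i ≤ A.X.F) (hH : h ≤ A.X.H)
    (hcol : ∀ l < i, ∀ h ≤ A.X.H, M (zo A.X.zB A.K s h) 5 A.Z.o (A.X.line l))
    (hnb : (1 ≤ h ∧ M (zo A.X.zB A.K s (h - 1)) 5 A.Z.o (A.X.line i)) ∨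
      (h < A.X.H ∧ M (zo A.X.zB A.K s (h + 1)) 5 A.Z.o (A.X.line i)) ∨
      (h = 0 ∧ M (zi A.X.zB A.K s) 5 A.Z.o (A.X.line i)) ∨
      (1 ≤ h ∧ h % 5 = 3 ∧ M (zo A.X.zB A.K s h) 4 A.Z.o (A.X.line i))) :
    M (zo A.X.zB A.K s h) 5 A.Z.o (A.X.line i) := by
  have hn5 := A.n5
  have hy : A.X.line i ∈ A.X.D := YG.line_D hi
  have hY : μ ≤ cnt (Gd (μ + k) n) {y' | M (zo A.X.zB A.K s h) 5 A.Z.o y'} (A.X.line i) :=
    cY i hi (fun y hy => hM.colFu hs hH hy) (fun l hl => hcol l hl h hH)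
  rcases Nat.eq_zero_or_pos h with h0 | h0
  · subst h0
    apply hM.rule0 hs (by omega)
    have hW : e ≤ cnt (Gd e n) {w' | M (zo A.X.zB A.K s 0) 5 w' (A.X.line i)} A.Z.o := by
      refine A.Z.cp.ge.trans (cnt_mono _ ?_ _)
      intro w hw
      exact hM.seedH s hs 0 (by omega) 5 (by omega) w _
        (Or.inl (Or.inl ⟨rfl, hy, A.hc.bp w hw, fun h => A.Z.pΛ w hw h.2⟩))
    have h6 : M (zo A.X.zB A.K s 0) (5 + 1) A.Z.o (A.X.line i) :=
      hM.seedH s hs 0 (by omega) 6 (by omega) _ _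
        (Or.inl (Or.inl ⟨rfl, hy, A.hc.bo6, fun h => by omega⟩))
    rw [iv_one h6]
    have hz : 1 ≤ iv (M (zi A.X.zB A.K s) 5 A.Z.o (A.X.line i)) +
        iv (M (zo A.X.zB A.K s 1) 5 A.Z.o (A.X.line i)) := by
      rcases hnb with h | h | h | h
      · omega
      · rw [iv_one (p := M (zo A.X.zB A.K s 1) 5 A.Z.o (A.X.line i)) h.2]; omega
      · rw [iv_one h.2]; omega
      · omega
    omega
  · have hβ := hM.helpβ (s := s) hs h0 hH hy
    have hW : e ≤ cnt (Gd e n) {w' | M (zo A.X.zB A.K s h) 5 w' (A.X.line i)} A.Z.o := by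
      refine A.Z.cp.ge.trans (cnt_mono _ ?_ _)
      intro w hw
      exact hM.help hs h0 hH hy w hw
    apply hM.ruleN hs h0 hH (by omega)
    rcases hnb with h1 | h1 | h1 | h1
    · rw [iv_one h1.2]
      omega
    · rw [iv_one (p := h < A.X.H ∧ M (zo A.X.zB A.K s (h + 1)) 5 A.Z.o (A.X.line i)) h1]
      omega
    · omega
    · have h6 : M (zo A.X.zB A.K s h) (5 + 1) A.Z.o (A.X.line i) :=
        hM.seedH s hs h hH 6 (by omega) _ _
          (Or.inl (Or.inr (Or.inl ⟨h0, hH, hy, Or.inr ⟨rfl, Or.inl ⟨rfl, by omega⟩⟩⟩)))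
      rw [iv_one h6, iv_one (p := 0 < 5 ∧ M (zo A.X.zB A.K s h) (5 - 1) A.Z.o (A.X.line i))
        ⟨by omega, by exact h1.2.2⟩]
      omega

/-- a column fills from any of its levels -/
lemma col_all (hM : Cl A M) (hs : s ≤ 1) {i : ℕ} (hi : i ≤ A.X.F) {h0 : ℕ} (hH : h0 ≤ A.X.H)
    (hcol : ∀ l < i, ∀ h ≤ A.X.H, M (zo A.X.zB A.K s h) 5 A.Z.o (A.X.line l))
    (hst : M (zo A.X.zB A.K s h0) 5 A.Z.o (A.X.line i)) :
    ∀ h ≤ A.X.H, M (zo A.X.zB A.K s h) 5 A.Z.o (A.X.line i) := by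
  have hup : ∀ c, h0 + c ≤ A.X.H → M (zo A.X.zB A.K s (h0 + c)) 5 A.Z.o (A.X.line i) := by
    intro c
    induction c with
    | zero => intro _; exact hst
    | succ c ih =>
      intro hc
      apply hM.col_step hs hi hc hcol
      left
      exact ⟨by omega, ih (by omega)⟩
  have hdn : ∀ c, c ≤ h0 → M (zo A.X.zB A.K s (h0 - c)) 5 A.Z.o (A.X.line i) := by
    intro c
    induction c with
    | zero => intro _; exact hst
    | succ c ih =>
      intro hc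
      apply hM.col_step hs hi (by omega) hcol
      right; left
      refine ⟨by omega, ?_⟩
      have e1 : h0 - (c + 1) + 1 = h0 - c := by omega
      rw [e1]; exact ih (by omega)
  intro h hh
  rcases Nat.lt_or_ge h h0 with h1 | h1
  · have := hdn (h0 - h) (by omega)
    have e1 : h0 - (h0 - h) = h := by omega
    rwa [e1] at this
  · have := hup (h - h0) (by omega)
    have e1 : h0 + (h - h0) = h := by omega
    rwa [e1] at this

/-- conduction -/
lemma cond (hM : Cl A M) {j : ℕ} (hj : A.X.lk s j) (hr : A.X.rg j β y)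
    (hnb : M (zo A.X.zB A.K s (A.X.pl j)) (β + 1) A.Z.o y ∨
      (0 < β ∧ M (zo A.X.zB A.K s (A.X.pl j)) (β - 1) A.Z.o y) ∨
      ∃ y', (Gd (μ + k) n).Adj y y' ∧ M (zo A.X.zB A.K s (A.X.pl j)) β A.Z.o y') :
    M (zo A.X.zB A.K s (A.X.pl j)) β A.Z.o y := by
  have hn5 := A.n5
  have hs : s ≤ 1 := by
    have := hj.2
    omega
  have hp := YG.pl_le hj
  have hm3 := YG.pl_mod (X := A.X) j
  have hb := YG.rg_bd hr
  apply hM.ruleN hs (by omega) (by omega) (by omega)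
  have hW : e + μ ≤ cnt (Gd e n) {w' | M (zo A.X.zB A.K s (A.X.pl j)) β w' y} A.Z.o := by
    refine A.Z.cΘ.ge.trans (cnt_mono _ ?_ _)
    intro w hw
    exact hM.seedH s hs _ (by omega) β (by omega) w y
      (Or.inl (Or.inr (Or.inr ⟨j, hj, hr, Or.inl ⟨rfl, hw⟩⟩)))
  have hu : M (zo A.X.zB A.K s (A.X.pl j + 1)) β A.Z.o y :=
    hM.seedH s hs _ (by omega) β (by omega) _ y
      (Or.inl (Or.inr (Or.inr ⟨j, hj, hr, Or.inr ⟨rfl, rfl⟩⟩)))
  rw [iv_one (p := A.X.pl j < A.X.H ∧ M (zo A.X.zB A.K s (A.X.pl j + 1)) β A.Z.o y)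
    ⟨by omega, hu⟩]
  rcases hnb with h1 | h1 | ⟨y', h1, h2⟩
  · rw [iv_one (p := M (zo A.X.zB A.K s (A.X.pl j)) (β + 1) A.Z.o y) h1]
    omega
  · rw [iv_one (p := 0 < β ∧ M (zo A.X.zB A.K s (A.X.pl j)) (β - 1) A.Z.o y) h1]
    omega
  · have := cnt_pos_of (Gd (μ + k) n) {y' | M (zo A.X.zB A.K s (A.X.pl j)) β A.Z.o y'} y y' h1 h2
    omega

/-- a link conducts -/
lemma link (hM : Cl A M) {j : ℕ} (hj : A.X.lk s j)
    (hst : M (zo A.X.zB A.K s (A.X.pl j)) 5 A.Z.o (A.X.line j)) :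
    M (zo A.X.zB A.K s (A.X.pl j)) 4 A.Z.o (A.X.line (j + 1)) := by
  have hd : ∀ c ≤ 3, M (zo A.X.zB A.K s (A.X.pl j)) (4 - c) A.Z.o (A.X.line j) := by
    intro c
    induction c with
    | zero =>
      intro _
      exact hM.cond hj (YG.port_rg (Or.inl rfl) (by omega) (by omega)) (Or.inl hst)
    | succ c ih =>
      intro hc
      apply hM.cond hj (YG.port_rg (Or.inl rfl) (by omega) (by omega))
      left
      have e1 : 4 - (c + 1) + 1 = 4 - c := by omega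
      rw [e1]; exact ih (by omega)
  have h1 : M (zo A.X.zB A.K s (A.X.pl j)) 1 A.Z.o (A.X.line (j + 1)) := by
    apply A.X.walk j hj.1 {y | M (zo A.X.zB A.K s (A.X.pl j)) 1 A.Z.o y} (hd 3 le_rfl)
    intro y hy y' hy' hadj
    exact hM.cond hj (Or.inr ⟨rfl, hy'⟩) (Or.inr (Or.inr ⟨y, hadj.symm, hy⟩))
  have hu : ∀ c ≤ 3, M (zo A.X.zB A.K s (A.X.pl j)) (1 + c) A.Z.o (A.X.line (j + 1)) := by
    intro c
    induction c with
    | zero => intro _; exact h1
    | succ c ih =>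
      intro hc
      apply hM.cond hj (YG.port_rg (Or.inr rfl) (by omega) (by omega))
      right; left
      exact ⟨by omega, ih (by omega)⟩
  exact hu 3 le_rfl

/-- the slices of a line -/
lemma slices (hM : Cl A M) {i : ℕ} (hi : i ≤ A.X.F)
    (hsl : ∀ l < i, ∀ z, 1 ≤ z → z < A.K → ∀ u,
      M (A.X.zB + z) (A.B.ι A.hf u).1.val (A.B.ι A.hf u).2 (A.X.line l))
    (hst : M (zo A.X.zB A.K ((i + 1) % 2) 0) 5 A.Z.o (A.X.line i)) :
    ∀ z, 1 ≤ z → z < A.K → ∀ u,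
      M (A.X.zB + z) (A.B.ι A.hf u).1.val (A.B.ι A.hf u).2 (A.X.line i) := by
  have hn5 := A.n5
  have hK := A.hK
  have hK2 := A.hK2
  have hzn := A.hz
  have hzB : A.X.zB = A.X.H + 1 := rfl
  have hy : A.X.line i ∈ A.X.D := YG.line_D hi
  have := A.B.fin
  -- the walls
  have hwall : ∀ s ≤ 1, ∀ u, u ∉ YG.LΛ A.B A.hf A.Z →
      M (zo A.X.zB A.K s 0) (A.B.ι A.hf u).1.val (A.B.ι A.hf u).2 (A.X.line i) := by
    intro s hs u hu
    exact hM.seedH s hs 0 (by omega) _ (A.B.ι A.hf u).1.isLt _ _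
      (Or.inl (Or.inl ⟨rfl, hy, YG.Bx_iff.2 ⟨u, rfl⟩, hu⟩))
  have hdz0 : A.X.zB + dz A.K i 0 = zo A.X.zB A.K ((i + 1) % 2) 0 := by
    unfold dz zo
    rcases Nat.mod_two_eq_zero_or_one i with h0 | h0
    · rw [if_pos h0, if_neg (by omega)]
      omega
    · rw [if_neg (by omega), if_pos (by omega)]
      omega
  have hdzK : A.X.zB + dz A.K i A.K = zo A.X.zB A.K (i % 2) 0 := by
    unfold dz zo
    rcases Nat.mod_two_eq_zero_or_one i with h0 | h0
    · rw [if_pos h0, if_pos h0]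
      omega
    · rw [if_neg (by omega), if_neg (by omega)]
      omega
  have key := open_perc2 (Λ := YG.LΛ A.B A.hf A.Z) A.B.hP A.B.hQ A.hK2 A.hK
    (fun v hv hne => A.hc.lam v hv.1 hv.2 hne)
    (fun z => {u | M (A.X.zB + dz A.K i z) (A.B.ι A.hf u).1.val (A.B.ι A.hf u).2 (A.X.line i)})
    (by
      intro x hx
      show M (A.X.zB + dz A.K i 0) _ _ _
      rw [hdz0]
      rcases hx with hx | hx
      · exact hwall _ (by omega) x hx
      · rw [hx, A.hc.ιs, A.hc.ιo]; exact hst)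
    (by
      intro z h1 h2 u hu
      have h3 := dz_mid (j := i) h1 h2
      refine hM.seedS _ h3.1 h3.2 u _ (Or.inr ⟨i, hi, rfl, ?_⟩)
      have e0 : R A.B.P A.B.Q (dz A.K i z) = R A.B.P A.B.Q z := by
        unfold dz R
        split_ifs with h3 h4 h5 h5
        · rfl
        · rfl
        · rfl
        · exfalso; omega
        · exfalso; omega
        · rfl
      rw [e0]; exact hu)
    (by
      intro x hx
      show M (A.X.zB + dz A.K i A.K) _ _ _
      rw [hdzK]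
      exact hwall _ (by omega) x hx)
    (by
      intro z h1 h2 x hx
      have h3 := dz_mid (j := i) h1 h2
      show M (A.X.zB + dz A.K i z) _ _ _
      apply hM.rule _ (by omega) _ (A.B.ι A.hf x).1.isLt
      -- the cross-section
      have c1 : cnt A.B.G {u | M (A.X.zB + dz A.K i z) (A.B.ι A.hf u).1.val (A.B.ι A.hf u).2
          (A.X.line i)} x ≤ cnt (Gv e n) {v | M (A.X.zB + dz A.K i z) v.1.val v.2 (A.X.line i)}
          (A.B.ι A.hf x) :=
        Tb.cnt_emb_ge A.hf {v | M (A.X.zB + dz A.K i z) v.1.val v.2 (A.X.line i)} x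
      have c2 := YG.cnt_Gv (fun β w => M (A.X.zB + dz A.K i z) β w (A.X.line i)) (A.B.ι A.hf x)
      have c3 : μ ≤ cnt (Gd (μ + k) n) {y' | M (A.X.zB + dz A.K i z) (A.B.ι A.hf x).1.val
          (A.B.ι A.hf x).2 y'} (A.X.line i) :=
        cY i hi (fun y hy => hM.seedS _ h3.1 h3.2 x y (Or.inl hy))
          (fun l hl => hsl l hl _ h3.1 h3.2 x)
      have hx' : e + 1 + 1 ≤ cnt A.B.G {u | M (A.X.zB + dz A.K i z) (A.B.ι A.hf u).1.val
          (A.B.ι A.hf u).2 (A.X.line i)} x +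
          (iv (M (A.X.zB + dz A.K i (z - 1)) (A.B.ι A.hf x).1.val (A.B.ι A.hf x).2 (A.X.line i)) +
            iv (M (A.X.zB + dz A.K i (z + 1)) (A.B.ι A.hf x).1.val (A.B.ι A.hf x).2
              (A.X.line i))) := hx
      have i0 : ∀ P : Prop, iv P ≤ iv (0 < A.X.zB + dz A.K i z ∧ P) := fun P =>
        iv_mono (fun h => ⟨by omega, h⟩)
      have i1 := i0 (M (A.X.zB + dz A.K i z - 1) (A.B.ι A.hf x).1.val (A.B.ι A.hf x).2
        (A.X.line i))
      rcases dz_succ (K := A.K) (j := i) h1 h2 with ⟨e1, e2⟩ | ⟨e1, e2⟩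
      · rw [e1, e2] at hx'
        have e3 : A.X.zB + (dz A.K i z - 1) = A.X.zB + dz A.K i z - 1 := by omega
        have e4 : A.X.zB + (dz A.K i z + 1) = A.X.zB + dz A.K i z + 1 := by omega
        rw [e3, e4] at hx'
        omega
      · rw [e1, e2] at hx'
        have e3 : A.X.zB + (dz A.K i z - 1) = A.X.zB + dz A.K i z - 1 := by omega
        have e4 : A.X.zB + (dz A.K i z + 1) = A.X.zB + dz A.K i z + 1 := by omega
        rw [e3, e4] at hx'
        omega)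
  intro z h1 h2 u
  have h3 := dz_mid (j := i) h1 h2
  have h4 := key (dz A.K i z) h3.1 h3.2 u
  have e1 : dz A.K i (dz A.K i z) = z := by
    unfold dz; split_ifs <;> omega
  have h5 : M (A.X.zB + dz A.K i (dz A.K i z)) (A.B.ι A.hf u).1.val (A.B.ι A.hf u).2
    (A.X.line i) := h4
  rwa [e1] at h5

/-- everything over the lines -/
theorem lines (hM : Cl A M) : ∀ i ≤ A.X.F,
    (∀ z, 1 ≤ z → z < A.K → ∀ u,
      M (A.X.zB + z) (A.B.ι A.hf u).1.val (A.B.ι A.hf u).2 (A.X.line i)) ∧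
    (∀ s ≤ 1, ∀ h ≤ A.X.H, M (zo A.X.zB A.K s h) 5 A.Z.o (A.X.line i)) := by
  intro i
  induction i using Nat.strong_induction_on with
  | _ i ih =>
    intro hi
    have hK := A.hK
    have hn5 := A.n5
    have hcol : ∀ s ≤ 1, ∀ l < i, ∀ h ≤ A.X.H, M (zo A.X.zB A.K s h) 5 A.Z.o (A.X.line l) :=
      fun s hs l hl h hh => (ih l hl (by omega)).2 s hs h hh
    -- the start side
    have hstart : ∀ h ≤ A.X.H, M (zo A.X.zB A.K ((i + 1) % 2) h) 5 A.Z.o (A.X.line i) := by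
      rcases Nat.eq_zero_or_pos i with h0 | h0
      · subst h0
        intro h hh
        refine hM.seedH _ (by omega) h hh 5 (by omega) _ _ (Or.inr (Or.inl ⟨hh, rfl, rfl, ?_⟩))
        refine Or.inr ⟨0, Nat.zero_le _, rfl, ?_⟩
        unfold YG.tt
        rw [if_neg (by omega)]
        omega
      · have hlk : A.X.lk ((i + 1) % 2) (i - 1) := ⟨by omega, by omega⟩
        have hp := YG.pl_le hlk
        have hm3 := YG.pl_mod (X := A.X) (i - 1)
        have h1 := hM.link hlk (hcol _ (by omega) (i - 1) (by omega) _ (by omega))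
        have e1 : i - 1 + 1 = i := by omega
        rw [e1] at h1
        apply hM.col_all (by omega) hi (h0 := A.X.pl (i - 1)) (by omega) (hcol _ (by omega))
        apply hM.col_step (by omega) hi (by omega) (hcol _ (by omega))
        right; right; right
        exact ⟨by omega, hm3, h1⟩
    have hsl := hM.slices hi (fun l hl => (ih l hl (by omega)).1) (hstart 0 (Nat.zero_le _))
    have hend : ∀ h ≤ A.X.H, M (zo A.X.zB A.K (i % 2) h) 5 A.Z.o (A.X.line i) := by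
      apply hM.col_all (by omega) hi (h0 := 0) (Nat.zero_le _) (hcol _ (by omega))
      apply hM.col_step (by omega) hi (Nat.zero_le _) (hcol _ (by omega))
      right; right; left
      refine ⟨rfl, ?_⟩
      rcases Nat.mod_two_eq_zero_or_one i with h0 | h0
      · rw [h0]
        have e1 : zi A.X.zB A.K 0 = A.X.zB + (A.K - 1) := by
          unfold zi; rw [if_pos rfl]; omega
        rw [e1]
        have := hsl (A.K - 1) (by omega) (by omega) A.B.P.s
        rwa [A.hc.ιs, A.hc.ιo] at this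
      · rw [h0]
        have e1 : zi A.X.zB A.K 1 = A.X.zB + 1 := by
          unfold zi; rw [if_neg (by omega)]
        rw [e1]
        have := hsl 1 (by omega) (by omega) A.B.P.s
        rwa [A.hc.ιs, A.hc.ιo] at this
    refine ⟨hsl, ?_⟩
    intro s hs h hh
    rcases (show s = i % 2 ∨ s = (i + 1) % 2 by omega) with h1 | h1
    · rw [h1]; exact hend h hh
    · rw [h1]; exact hstart h hh

end Cl

/-- percolation -/
theorem Cfg.perc {e μ k n : ℕ} (A : Cfg e μ k n) :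
    Perc (GG e μ k n) (e + μ + 2) (A.seeds ∪ A.JJ) := by
  intro S hS hcl
  have hM := A.toCl S (Set.subset_union_left.trans hS) hcl
  have hl := (hM.lines A.X.F le_rfl).2 0 (by omega) A.X.H le_rfl
  have e1 : zo A.X.zB A.K 0 A.X.H = A.X.zB + A.K + A.X.H := if_pos rfl
  rw [e1] at hl
  obtain ⟨h1, h2, h3⟩ := hl
  -- transfer to the cube
  have hpre : Phi e μ k n ⁻¹' ((Phi e μ k n).symm ⁻¹' S) = S := by
    ext x
    show (Phi e μ k n).symm (Phi e μ k n x) ∈ S ↔ x ∈ S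
    rw [RelIso.symm_apply_apply]
  have key := Helper33.Gen.ig1 A.I ((Phi e μ k n).symm ⁻¹' S) (by
      intro x hx
      apply hS
      right
      show Phi e μ k n ((Phi e μ k n).symm x) ∈ A.I.J
      rw [RelIso.apply_symm_apply]; exact hx) (by
      intro x hx
      apply hcl
      rw [← hpre, cnt_iso, RelIso.apply_symm_apply]
      exact hx) (Phi e μ k n (((⟨5, h2⟩, A.Z.o), ⟨A.X.zB + A.K + A.X.H, h1⟩), A.X.line A.X.F))
    (by
      intro a ha
      rcases idx_cases a with h' | ⟨i, h'⟩ | h' | ⟨l, h'⟩ <;> subst h'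
      · rw [Cfg.c_0]
        exact congrArg Fin.val (big_0 _)
      · rw [Cfg.c_w]
        exact (congrArg Fin.val (big_w _ i)).trans (A.Zo i)
      · exact absurd rfl ha
      · rw [Cfg.c_y]
        exact congrArg Fin.val (big_y _ l)) (by
      have := Cfg.Z_big (e := e) (μ := μ) (k := k) (((⟨5, h2⟩, A.Z.o),
        ⟨A.X.zB + A.K + A.X.H, h1⟩), A.X.line A.X.F)
      show IgD.Z (big _) + 2 = A.zf
      rw [this]
      rfl) (by
      show (Phi e μ k n).symm (Phi e μ k n _) ∈ S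
      rw [RelIso.symm_apply_apply]; exact h3)
  intro p
  have h4 := key (Phi e μ k n p)
  have h5 : (Phi e μ k n).symm (Phi e μ k n p) ∈ S := h4
  rwa [RelIso.symm_apply_apply] at h5

/-- the construction is slow -/
theorem Cfg.slow {e μ k n : ℕ} (A : Cfg e μ k n) :
    Slow (Gd (e + μ + 1 + 1 + k) n) (e + μ + 2) ((A.X.F + 1) * A.d) :=
  Slow.iso ⟨_, A.perc, _, Cfg.slow_proc⟩ (Phi e μ k n)

end Pool.Agent.Helper70.Gen
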