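import Mathlib
import Pool.Agent.Helper70.Gen.Def
import Pool.Agent.Helper70.Thr3.Conf

/-!
# The cross-section coordinates
-/

set_option linter.unusedSectionVars false
set_option linter.unusedVariables false

namespace Pool.Agent.Helper70.Gen

open Set SimpleGraph Pool.Agent.Helper19.Perco Pool.Agent.Helper70.Duo Pool.Agent.Helper70.Thr3

section grid

variable {e n : ℕ}

/-- sum of the coordinates -/
def sm (w : Fin e → Fin n) : ℕ := ∑ i, (w i).val

lemma sm_adj {w w' : Fin e → Fin n} (h : (Gd e n).Adj w w') :
    sm w + 1 = sm w' ∨ sm w' + 1 = sm w := by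
  obtain ⟨i, h1, h2⟩ := h
  have h3 := sum_swap (f := fun (_ : Fin e) (v : Fin n) => v.val) h2
  unfold sm
  omega

/-- three adjacencies are impossible -/
lemma no_tri {o w w' : Fin e → Fin n} (h1 : (Gd e n).Adj o w) (h2 : (Gd e n).Adj w w') :
    ¬ (Gd e n).Adj o w' := by
  intro h3
  have := sm_adj h1
  have := sm_adj h2
  have := sm_adj h3
  omega

/-- two points have at most two common neighbours -/
lemma codeg_two {o w : Fin e → Fin n} (h : w ≠ o) :
    cnt (Gd e n) {w' | (Gd e n).Adj o w'} w ≤ 2 := by
  obtain ⟨a, ha⟩ : ∃ a, w a ≠ o a := by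
    by_contra hc
    push Not at hc
    exact h (funext hc)
  have hav : (w a).val ≠ (o a).val := fun h' => ha (Fin.ext h')
  have hwa := (w a).isLt
  have hoa := (o a).isLt
  -- the neighbour differing from `o` at `a`
  let v1 : Fin n := ⟨if (w a).val < (o a).val then (o a).val - 1 else min ((o a).val + 1) (n - 1), by
    split_ifs <;> omega⟩
  apply cnt_le_two_of _ _ _ (Function.update o a v1) (Function.update w a (o a))
  rintro u ⟨b, h1, h2⟩ ⟨c, h3, h4⟩
  have hua := (u a).isLt
  by_cases hb : b = a
  · left
    subst hb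
    funext l
    by_cases hl : l = b
    · subst hl
      rw [Function.update_self]
      apply Fin.ext
      show (u l).val = if (w l).val < (o l).val then (o l).val - 1 else min ((o l).val + 1) (n - 1)
      by_cases hc : l = c
      · subst hc
        split_ifs <;> omega
      · have := congrArg Fin.val (h4 l hc)
        split_ifs <;> omega
    · rw [Function.update_of_ne hl, h2 l hl]
  · right
    have h5 : o a = u a := h2 a (Ne.symm hb)
    have hc : c = a := by
      by_contra hc
      exact ha ((h4 a (Ne.symm hc)).trans h5.symm)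
    subst hc
    funext l
    by_cases hl : l = c
    · subst hl
      rw [Function.update_self, h5]
    · rw [Function.update_of_ne hl, h4 l hl]

end grid

/-- the cross-section data -/
theorem exists_WS {e μ n : ℕ} (hμ : μ ≤ e) (hn : 3 ≤ n) : ∃ Z : WS (Gd e n) e μ,
    (∀ i, (Z.o i).val = 1) ∧ (∀ w, w ∈ Z.Λ ↔ ∀ i, (w i).val ≤ 1) ∧
    (∀ w, w ∈ Z.Θp ↔ ∃ i, (w i).val = 2 ∧ ∀ j, j ≠ i → (w j).val = 1) ∧
    (∀ w ∈ Z.Θ, ∀ i, (w i).val ≤ 2) := by
  set o : Fin e → Fin n := fun _ => ⟨1, by omega⟩ with ho
  set Θp : Set (Fin e → Fin n) := {w | ∃ i, (w i).val = 2 ∧ ∀ j, j ≠ i → (w j).val = 1} with hΘp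
  set Θm : Set (Fin e → Fin n) := {w | ∃ i, i.val < μ ∧ (w i).val = 0 ∧
    ∀ j, j ≠ i → (w j).val = 1} with hΘm
  have ho1 : ∀ i, (o i).val = 1 := fun i => rfl
  have hup : ∀ w ∈ Θp, (Gd e n).Adj o w := by
    rintro w ⟨i, h1, h2⟩
    refine ⟨i, Or.inl ?_, fun j hj => Fin.ext ?_⟩
    · rw [ho1 i, h1]
    · rw [ho1 j, h2 j hj]
  have hdn : ∀ w ∈ Θm, (Gd e n).Adj o w := by
    rintro w ⟨i, h0, h1, h2⟩
    refine ⟨i, Or.inr ?_, fun j hj => Fin.ext ?_⟩
    · rw [ho1 i, h1]
    · rw [ho1 j, h2 j hj]
  let up : Fin e → (Fin e → Fin n) := fun i => Function.update o i ⟨2, by omega⟩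
  let dn : Fin μ → (Fin e → Fin n) := fun i =>
    Function.update o ⟨i.val, lt_of_lt_of_le i.isLt hμ⟩ ⟨0, by omega⟩
  have up_inj : Function.Injective up := by
    intro i j hij
    by_contra hne
    have h1 := congrFun hij i
    have h2 : up i i = ⟨2, by omega⟩ := Function.update_self _ _ _
    have h3 : up j i = o i := Function.update_of_ne hne _ _
    rw [h2, h3] at h1
    have := congrArg Fin.val h1
    simp [ho1] at this
  have dn_inj : Function.Injective dn := by
    intro i j hij
    by_contra hne
    have h1 := congrFun hij ⟨i.val, lt_of_lt_of_le i.isLt hμ⟩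
    have h2 : dn i ⟨i.val, lt_of_lt_of_le i.isLt hμ⟩ = ⟨0, by omega⟩ := Function.update_self _ _ _
    have h3 : dn j ⟨i.val, lt_of_lt_of_le i.isLt hμ⟩ = o ⟨i.val, lt_of_lt_of_le i.isLt hμ⟩ :=
      Function.update_of_ne (fun h' => hne (by
        rw [Fin.mk.injEq] at h'
        exact Fin.ext h')) _ _
    rw [h2, h3] at h1
    have := congrArg Fin.val h1
    simp [ho1] at this
  have eqp : (Gd e n).neighborSet o ∩ Θp = up '' Set.univ := by
    ext w
    constructor
    · rintro ⟨_, i, h1, h2⟩
      refine ⟨i, Set.mem_univ _, ?_⟩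
      funext j
      by_cases hj : j = i
      · subst hj
        show Function.update o j ⟨2, _⟩ j = w j
        rw [Function.update_self]
        exact Fin.ext h1.symm
      · show Function.update o i ⟨2, _⟩ j = w j
        rw [Function.update_of_ne hj]
        exact Fin.ext (h2 j hj).symm
    · rintro ⟨i, _, rfl⟩
      have : up i ∈ Θp := by
        refine ⟨i, ?_, fun j hj => ?_⟩
        · show (Function.update o i ⟨2, _⟩ i).val = 2
          rw [Function.update_self]
        · show (Function.update o i ⟨2, _⟩ j).val = 1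
          rw [Function.update_of_ne hj]
      exact ⟨hup _ this, this⟩
  have eqm : (Gd e n).neighborSet o ∩ Θm = dn '' Set.univ := by
    ext w
    constructor
    · rintro ⟨_, i, h0, h1, h2⟩
      refine ⟨⟨i.val, h0⟩, Set.mem_univ _, ?_⟩
      funext j
      by_cases hj : j = i
      · subst hj
        show Function.update o j ⟨0, _⟩ j = w j
        rw [Function.update_self]
        exact Fin.ext h1.symm
      · show Function.update o i ⟨0, _⟩ j = w j
        rw [Function.update_of_ne hj]
        exact Fin.ext (h2 j hj).symm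
    · rintro ⟨i, _, rfl⟩
      have : dn i ∈ Θm := by
        refine ⟨⟨i.val, lt_of_lt_of_le i.isLt hμ⟩, i.isLt, ?_, fun j hj => ?_⟩
        · show (Function.update o _ ⟨0, _⟩ _).val = 0
          rw [Function.update_self]
        · show (Function.update o _ ⟨0, _⟩ j).val = 1
          rw [Function.update_of_ne hj]
      exact ⟨hdn _ this, this⟩
  have cp : cnt (Gd e n) Θp o = e := by
    unfold cnt
    rw [eqp, Set.ncard_image_of_injective _ up_inj, Set.ncard_univ, Nat.card_eq_fintype_card,
      Fintype.card_fin]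
  have cm : cnt (Gd e n) Θm o = μ := by
    unfold cnt
    rw [eqm, Set.ncard_image_of_injective _ dn_inj, Set.ncard_univ, Nat.card_eq_fintype_card,
      Fintype.card_fin]
  refine ⟨
    { o := o
      Θp := Θp
      Θ := Θp ∪ Θm
      Λ := {w | ∀ i, (w i).val ≤ 1}
      sub := Set.subset_union_left
      nb := ?_
      bip := fun w w' h1 h2 => no_tri h1 h2
      cod := fun w hw => codeg_two hw
      cp := cp
      cΘ := ?_
      oΛ := fun i => (ho1 i).le
      pΛ := ?_
      cΛ := ?_ }, ho1, fun w => Iff.rfl, fun w => Iff.rfl, ?_⟩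
  · rintro w (h | h)
    · exact hup w h
    · exact hdn w h
  · have h1 : cnt (Gd e n) (Θp ∪ Θm) o = cnt (Gd e n) Θp o + cnt (Gd e n) Θm o := by
      unfold cnt
      rw [Set.inter_union_distrib_left, Set.ncard_union_eq _ (Set.toFinite _) (Set.toFinite _)]
      rw [Set.disjoint_left]
      rintro w ⟨_, i, h1, h2⟩ ⟨_, j, h3, h4, h5⟩
      by_cases hij : i = j
      · subst hij; omega
      · have := h5 i hij; omega
    rw [h1, cp, cm]
  · rintro w ⟨i, h1, h2⟩ h3
    have := h3 i
    omega
  · intro w hw
    have hw' : ∀ i, (w i).val ≤ 1 := hw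
    unfold cnt
    have hsub : (Gd e n).neighborSet w ∩ {w' | w' ∉ {w : Fin e → Fin n | ∀ i, (w i).val ≤ 1} ∨
        w' = o} ⊆ (fun i => Function.update w i ⟨(w i).val + 1, by have := hw' i; omega⟩) ''
          Set.univ := by
      rintro w' ⟨⟨i, h1, h2⟩, h3⟩
      have hi := hw' i
      refine ⟨i, Set.mem_univ _, ?_⟩
      have h4 : (w i).val + 1 = (w' i).val := by
        rcases h1 with h1 | h1
        · exact h1
        · exfalso
          rcases h3 with h3 | h3
          · apply h3
            intro j
            by_cases hj : j = i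
            · rw [hj]; omega
            · rw [← h2 j hj]; exact hw' j
          · rw [h3] at h1
            have : (o i).val = 1 := rfl
            omega
      funext j
      by_cases hj : j = i
      · subst hj
        show Function.update w j _ j = w' j
        rw [Function.update_self]
        exact Fin.ext h4
      · show Function.update w i _ j = w' j
        rw [Function.update_of_ne hj]
        exact h2 j hj
    refine le_trans (Set.ncard_le_ncard hsub (Set.toFinite _)) ?_
    refine le_trans (Set.ncard_image_le (Set.toFinite _)) ?_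
    rw [Set.ncard_univ, Nat.card_eq_fintype_card, Fintype.card_fin]
  · rintro w (⟨i, h1, h2⟩ | ⟨i, h0, h1, h2⟩) j
    · by_cases hj : j = i
      · rw [hj]; omega
      · rw [h2 j hj]; omega
    · by_cases hj : j = i
      · rw [hj]; omega
      · rw [h2 j hj]; omega

end Pool.Agent.Helper70.Gen
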