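import Mathlib
import Pool.Agent.Helper70.Thr3.Conf

/-!
# The colouring of the places
-/

set_option linter.unusedSectionVars false
set_option linter.unusedVariables false

namespace Pool.Agent.Helper70.Gen

open Set SimpleGraph Pool.Agent.Helper19.Perco Pool.Agent.Helper70.Duo Pool.Agent.Helper70.Thr3

/-- coefficients -/
def cf (b i : ℕ) : ℕ := if b = 0 then 2 * i + 1 else i + 1
/-- modulus -/
def qq (b j : ℕ) : ℕ := if b = 0 then 2 * j + 1 else j + 1
/-- number of residues -/
def rr (b μ : ℕ) : ℕ := if b = 0 then 2 * μ + 1 else μ + 1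

variable {j n : ℕ}

/-- the linear form -/
def fv (b : ℕ) (y : Fin j → Fin n) : ℕ := ∑ i : Fin j, cf b i.val * (y i).val

/-- the sparse set -/
def Dp (b μ : ℕ) (j n : ℕ) : Set (Fin j → Fin n) := {y | fv b y % qq b j < rr b μ}

/-- `y'` is below `y` -/
def bel (y' y : Fin j → Fin n) : Prop := ∃ i, (y' i).val + 1 = (y i).val ∧ ∀ l, l ≠ i → y l = y' l

lemma fv_bel {b : ℕ} {y y' : Fin j → Fin n} {i : Fin j} (h1 : (y' i).val + 1 = (y i).val)
    (h2 : ∀ l, l ≠ i → y l = y' l) : fv b y = fv b y' + cf b i.val := by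
  have h3 := sum_swap (f := fun (i : Fin j) (v : Fin n) => cf b i.val * v.val) h2
  have h4 : fv b y + cf b i.val * (y' i).val = fv b y' + cf b i.val * (y i).val := h3
  rw [← h1, Nat.mul_add, Nat.mul_one] at h4
  omega

lemma adj_bel {y y' : Fin j → Fin n} (h : (Gd j n).Adj y y') : bel y' y ∨ bel y y' := by
  obtain ⟨i, h1 | h1, h2⟩ := h
  · right; exact ⟨i, h1, fun l hl => (h2 l hl).symm⟩
  · left; exact ⟨i, h1, h2⟩

lemma bel_adj {y y' : Fin j → Fin n} (h : bel y' y) : (Gd j n).Adj y y' := by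
  obtain ⟨i, h1, h2⟩ := h
  exact ⟨i, Or.inr h1, h2⟩

lemma cf_pos (b i : ℕ) : 1 ≤ cf b i := by unfold cf; split_ifs <;> omega
lemma cf_lt {b i j : ℕ} (h : i < j) : cf b i < qq b j := by unfold cf qq; split_ifs <;> omega
lemma cf_inj {b i l : ℕ} (h : cf b i = cf b l) : i = l := by
  unfold cf at h; split_ifs at h <;> omega
lemma qq_pos (b j : ℕ) : 0 < qq b j := by unfold qq; split_ifs <;> omega

/-- residue of a neighbour below -/
lemma mod_bel {x c q a : ℕ} (hc : c ≤ q) (h : (x + c) % q = a) : x % q = (a + q - c) % q := by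
  have h1 : x + c ≡ (a + q - c) + c [MOD q] := by
    have e : a + q - c + c = a + q := by omega
    rw [e]
    unfold Nat.ModEq
    rw [Nat.add_mod_right, h, ← h, Nat.mod_mod]
  exact Nat.ModEq.add_right_cancel' c h1

/-- two elements below with the same residue -/
lemma bel_unique {b : ℕ} {y u v : Fin j → Fin n} (hu : bel u y) (hv : bel v y)
    (h : fv b u % qq b j = fv b v % qq b j) : u = v := by
  obtain ⟨i, h1, h2⟩ := hu
  obtain ⟨l, h3, h4⟩ := hv
  have h5 := fv_bel (b := b) h1 h2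
  have h6 := fv_bel (b := b) h3 h4
  have ci := cf_lt (b := b) i.isLt
  have cl := cf_lt (b := b) l.isLt
  have hil : i = l := by
    apply Fin.ext
    apply cf_inj (b := b)
    have h7 : fv b u + cf b i.val = fv b v + cf b l.val := by omega
    have h8 : fv b u + cf b i.val ≡ fv b u + cf b l.val [MOD qq b j] := by
      rw [h7]
      exact Nat.ModEq.add_right _ h.symm
    have h9 := Nat.ModEq.add_left_cancel' _ h8
    unfold Nat.ModEq at h9
    rwa [Nat.mod_eq_of_lt ci, Nat.mod_eq_of_lt cl] at h9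
  subst hil
  funext c
  by_cases hc : c = i
  · subst hc; apply Fin.ext; omega
  · rw [← h2 c hc, ← h4 c hc]

/-- two elements above with the same residue -/
lemma abv_unique {b : ℕ} {y u v : Fin j → Fin n} (hu : bel y u) (hv : bel y v)
    (h : fv b u % qq b j = fv b v % qq b j) : u = v := by
  obtain ⟨i, h1, h2⟩ := hu
  obtain ⟨l, h3, h4⟩ := hv
  have h5 := fv_bel (b := b) h1 h2
  have h6 := fv_bel (b := b) h3 h4
  have ci := cf_lt (b := b) i.isLt
  have cl := cf_lt (b := b) l.isLt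
  have hil : i = l := by
    apply Fin.ext
    apply cf_inj (b := b)
    have h8 : fv b y + cf b i.val ≡ fv b y + cf b l.val [MOD qq b j] := by
      rw [← h5, ← h6]; exact h
    have h9 := Nat.ModEq.add_left_cancel' _ h8
    unfold Nat.ModEq at h9
    rwa [Nat.mod_eq_of_lt ci, Nat.mod_eq_of_lt cl] at h9
  subst hil
  funext c
  by_cases hc : c = i
  · subst hc; apply Fin.ext; omega
  · rw [h2 c hc, h4 c hc]

/-- a set on which the residue is injective -/
lemma cnt_res {b μ : ℕ} (y : Fin j → Fin n) (S : Set (Fin j → Fin n)) (hS : S ⊆ Dp b μ j n)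
    (hinj : ∀ u ∈ S, ∀ v ∈ S, (Gd j n).Adj y u → (Gd j n).Adj y v →
      fv b u % qq b j = fv b v % qq b j → u = v) : cnt (Gd j n) S y ≤ rr b μ := by
  have h1 : (Set.Iio (rr b μ)).ncard = rr b μ := by
    rw [← Finset.coe_range, Set.ncard_coe_finset, Finset.card_range]
  unfold cnt
  rw [← h1]
  apply Set.ncard_le_ncard_of_injOn (fun u => fv b u % qq b j)
  · rintro u ⟨_, hu⟩
    exact hS hu
  · rintro u ⟨h2, hu⟩ v ⟨h3, hv⟩ h4
    exact hinj u hu v hv h2 h3 h4

/-- Y1a -/
lemma Dp_cnt {b μ : ℕ} (hb : b ≤ 1) (y : Fin j → Fin n) :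
    cnt (Gd j n) (Dp b μ j n) y ≤ 2 * μ + 1 + b := by
  rcases Nat.eq_zero_or_pos b with h0 | h0
  · subst h0
    refine (cnt_res y _ subset_rfl ?_).trans (by unfold rr; rw [if_pos rfl])
    intro u _ v _ h1 h2 h3
    rcases adj_bel h1 with h4 | h4 <;> rcases adj_bel h2 with h5 | h5
    · exact bel_unique h4 h5 h3
    · exfalso
      obtain ⟨i, a1, a2⟩ := h4
      obtain ⟨l, a3, a4⟩ := h5
      have h6 := fv_bel (b := 0) a1 a2
      have h7 := fv_bel (b := 0) a3 a4
      have h8 : fv 0 u + 0 ≡ fv 0 u + (cf 0 i.val + cf 0 l.val) [MOD qq 0 j] := by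
        have e : fv 0 u + (cf 0 i.val + cf 0 l.val) = fv 0 v := by omega
        rw [e]; exact h3
      have h9 := Nat.ModEq.add_left_cancel' _ h8
      have h10 : qq 0 j ∣ cf 0 i.val + cf 0 l.val := (Nat.modEq_zero_iff_dvd.1 h9.symm)
      have e1 : cf 0 i.val = 2 * i.val + 1 := if_pos rfl
      have e2 : cf 0 l.val = 2 * l.val + 1 := if_pos rfl
      have e3 : qq 0 j = 2 * j + 1 := if_pos rfl
      rw [e1, e2, e3] at h10
      obtain ⟨t, ht⟩ := h10
      have := i.isLt
      have := l.isLt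
      rcases Nat.lt_or_ge t 2 with ht2 | ht2
      · interval_cases t <;> omega
      · have : (2 * j + 1) * 2 ≤ (2 * j + 1) * t := Nat.mul_le_mul_left _ ht2
        omega
    · exfalso
      obtain ⟨i, a1, a2⟩ := h5
      obtain ⟨l, a3, a4⟩ := h4
      have h6 := fv_bel (b := 0) a1 a2
      have h7 := fv_bel (b := 0) a3 a4
      have h8 : fv 0 v + 0 ≡ fv 0 v + (cf 0 i.val + cf 0 l.val) [MOD qq 0 j] := by
        have e : fv 0 v + (cf 0 i.val + cf 0 l.val) = fv 0 u := by omega
        rw [e]; exact h3.symm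
      have h9 := Nat.ModEq.add_left_cancel' _ h8
      have h10 : qq 0 j ∣ cf 0 i.val + cf 0 l.val := (Nat.modEq_zero_iff_dvd.1 h9.symm)
      have e1 : cf 0 i.val = 2 * i.val + 1 := if_pos rfl
      have e2 : cf 0 l.val = 2 * l.val + 1 := if_pos rfl
      have e3 : qq 0 j = 2 * j + 1 := if_pos rfl
      rw [e1, e2, e3] at h10
      obtain ⟨t, ht⟩ := h10
      have := i.isLt
      have := l.isLt
      rcases Nat.lt_or_ge t 2 with ht2 | ht2
      · interval_cases t <;> omega
      · have : (2 * j + 1) * 2 ≤ (2 * j + 1) * t := Nat.mul_le_mul_left _ ht2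
        omega
    · exact abv_unique h4 h5 h3
  · have hb1 : b = 1 := by omega
    subst hb1
    have h1 : cnt (Gd j n) {u | u ∈ Dp 1 μ j n ∧ bel u y} y ≤ rr 1 μ :=
      cnt_res y _ (fun u hu => hu.1) (fun u hu v hv _ _ h => bel_unique hu.2 hv.2 h)
    have h2 : cnt (Gd j n) {u | u ∈ Dp 1 μ j n ∧ bel y u} y ≤ rr 1 μ :=
      cnt_res y _ (fun u hu => hu.1) (fun u hu v hv _ _ h => abv_unique hu.2 hv.2 h)
    have h3 : cnt (Gd j n) (Dp 1 μ j n) y ≤ cnt (Gd j n) {u | u ∈ Dp 1 μ j n ∧ bel u y} y +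
        cnt (Gd j n) {u | u ∈ Dp 1 μ j n ∧ bel y u} y := by
      unfold cnt
      refine le_trans ?_ (Set.ncard_union_le _ _)
      apply Set.ncard_le_ncard _ (Set.toFinite _)
      rintro u ⟨h4, h5⟩
      rcases adj_bel h4 with h6 | h6
      · exact Or.inl ⟨h4, h5, h6⟩
      · exact Or.inr ⟨h4, h5, h6⟩
    have e : rr 1 μ = μ + 1 := if_neg (by omega)
    omega

/-- the neighbours below as a set of indices -/
lemma cnt_bel {b μ : ℕ} (y : Fin j → Fin n) :
    cnt (Gd j n) {u | u ∈ Dp b μ j n ∧ bel u y} y =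
      {i : Fin j | 1 ≤ (y i).val ∧
        (fv b y % qq b j + qq b j - cf b i.val) % qq b j < rr b μ}.ncard := by
  let g : Fin j → (Fin j → Fin n) := fun i =>
    Function.update y i ⟨(y i).val - 1, by have := (y i).isLt; omega⟩
  have hg : ∀ i, g i i = ⟨(y i).val - 1, by have := (y i).isLt; omega⟩ := fun i =>
    Function.update_self _ _ _
  have hgo : ∀ i l, l ≠ i → g i l = y l := fun i l hl => Function.update_of_ne hl _ _
  have hbel : ∀ i, 1 ≤ (y i).val → (g i i).val + 1 = (y i).val := by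
    intro i h
    rw [hg]
    show (y i).val - 1 + 1 = (y i).val
    omega
  have hres : ∀ i, 1 ≤ (y i).val →
      fv b (g i) % qq b j = (fv b y % qq b j + qq b j - cf b i.val) % qq b j := by
    intro i h
    have h1 := fv_bel (b := b) (hbel i h) (fun l hl => (hgo i l hl).symm)
    exact mod_bel (cf_lt (b := b) i.isLt).le (by rw [← h1])
  have hset : (Gd j n).neighborSet y ∩ {u | u ∈ Dp b μ j n ∧ bel u y} =
      g '' {i : Fin j | 1 ≤ (y i).val ∧
        (fv b y % qq b j + qq b j - cf b i.val) % qq b j < rr b μ} := by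
    ext u
    constructor
    · rintro ⟨_, h2, i, h3, h4⟩
      have hu : u = g i := by
        funext l
        by_cases hl : l = i
        · subst hl
          rw [hg]
          apply Fin.ext
          show (u l).val = (y l).val - 1
          omega
        · rw [hgo i l hl, h4 l hl]
      refine ⟨i, ⟨by omega, ?_⟩, hu.symm⟩
      rw [← hres i (by omega), ← hu]
      exact h2
    · rintro ⟨i, ⟨h1, h2⟩, rfl⟩
      have h3 : bel (g i) y := ⟨i, hbel i h1, fun l hl => (hgo i l hl).symm⟩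
      refine ⟨bel_adj h3, ?_, h3⟩
      show fv b (g i) % qq b j < rr b μ
      rw [hres i h1]; exact h2
  unfold cnt
  rw [hset]
  apply Set.InjOn.ncard_image
  rintro i ⟨h1, _⟩ l ⟨h2, _⟩ h3
  by_contra hne
  have h4 : (g i i).val = (g l i).val := by
    have h3' : g i = g l := h3
    rw [h3']
  rw [hg, hgo l i hne] at h4
  have h4' : (y i).val - 1 = (y i).val := h4
  omega

/-- Y1b -/
lemma Dp_bel {b μ k : ℕ} (hb : b ≤ 1) (hj : j = μ + k) {y : Fin j → Fin n} (hy : y ∈ Dp b μ j n)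
    (h1 : ∀ i, 1 ≤ (y i).val) : cnt (Gd j n) {u | u ∈ Dp b μ j n ∧ bel u y} y = μ := by
  rw [cnt_bel]
  obtain ⟨a, ha⟩ : ∃ a, a = fv b y % qq b j := ⟨_, rfl⟩
  have har : a < rr b μ := by rw [ha]; exact hy
  rw [← ha]
  obtain ⟨c, hc⟩ : ∃ c, c = if b = 0 then (a + 1) / 2 else a := ⟨_, rfl⟩
  have hcμ : c ≤ μ := by
    rw [hc]
    unfold rr at har
    split_ifs at har ⊢ <;> omega
  have hset : {i : Fin j | 1 ≤ (y i).val ∧ (a + qq b j - cf b i.val) % qq b j < rr b μ} =
      (fun t : Fin μ => (⟨if t.val < c then t.val else t.val + k, by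
        have := t.isLt
        split_ifs <;> omega⟩ : Fin j)) '' Set.univ := by
    ext i
    have hi := i.isLt
    have hci := cf_lt (b := b) hi
    have hcp := cf_pos b i.val
    have key : (a + qq b j - cf b i.val) % qq b j < rr b μ ↔ (i.val < c ∨ c + k ≤ i.val) := by
      rcases Nat.lt_or_ge a (cf b i.val) with h3 | h3
      · rw [Nat.mod_eq_of_lt (by omega)]
        unfold cf at *
        unfold qq rr at *
        rw [hc]
        split_ifs at * <;> omega
      · have e : a + qq b j - cf b i.val = (a - cf b i.val) + qq b j := by omega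
        rw [e, Nat.add_mod_right, Nat.mod_eq_of_lt (by
          unfold qq rr at *
          split_ifs at * <;> omega)]
        unfold cf at *
        unfold qq rr at *
        rw [hc]
        split_ifs at * <;> omega
    constructor
    · rintro ⟨_, h4⟩
      rcases key.1 h4 with h5 | h5
      · refine ⟨⟨i.val, by omega⟩, Set.mem_univ _, Fin.ext ?_⟩
        show (if i.val < c then i.val else i.val + k) = i.val
        rw [if_pos h5]
      · refine ⟨⟨i.val - k, by omega⟩, Set.mem_univ _, Fin.ext ?_⟩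
        show (if i.val - k < c then i.val - k else i.val - k + k) = i.val
        rw [if_neg (by omega)]
        omega
    · rintro ⟨t, _, h4⟩
      refine ⟨h1 i, key.2 ?_⟩
      have h5 : (if t.val < c then t.val else t.val + k) = i.val := congrArg Fin.val h4
      split_ifs at h5 <;> omega
  rw [hset, Set.ncard_image_of_injective, Set.ncard_univ, Nat.card_eq_fintype_card,
    Fintype.card_fin]
  intro t t' h
  have h5 : (if t.val < c then t.val else t.val + k) = (if t'.val < c then t'.val else t'.val + k) :=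
    congrArg Fin.val h
  apply Fin.ext
  split_ifs at h5 <;> omega

/-- Y1c -/
lemma Dp_bel_le {b μ : ℕ} (hb : b ≤ 1) (y : Fin j → Fin n) :
    cnt (Gd j n) {u | u ∈ Dp b μ j n ∧ bel u y} y ≤ μ + 1 := by
  rcases Nat.eq_zero_or_pos b with h0 | h0
  · subst h0
    have e3 : qq 0 j = 2 * j + 1 := if_pos rfl
    have e4 : rr 0 μ = 2 * μ + 1 := if_pos rfl
    rw [cnt_bel, e3, e4]
    obtain ⟨a, ha⟩ : ∃ a, a = fv 0 y % (2 * j + 1) := ⟨_, rfl⟩
    have haq : a < 2 * j + 1 := by rw [ha]; exact Nat.mod_lt _ (by omega)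
    rw [← ha]
    have h1 : (Set.Iio (μ + 1)).ncard = μ + 1 := by
      rw [← Finset.coe_range, Set.ncard_coe_finset, Finset.card_range]
    rw [← h1]
    have hval : ∀ i : Fin j, (a + (2 * j + 1) - cf 0 i.val) % (2 * j + 1) =
        if 2 * i.val + 1 ≤ a then a - (2 * i.val + 1) else a + (2 * j + 1) - (2 * i.val + 1) := by
      intro i
      have hi := i.isLt
      have e1 : cf 0 i.val = 2 * i.val + 1 := if_pos rfl
      rw [e1]
      split_ifs with h
      · have e : a + (2 * j + 1) - (2 * i.val + 1) = (a - (2 * i.val + 1)) + (2 * j + 1) := by omega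
        rw [e, Nat.add_mod_right, Nat.mod_eq_of_lt (by omega)]
      · exact Nat.mod_eq_of_lt (by omega)
    apply Set.ncard_le_ncard_of_injOn
      (fun i : Fin j => ((a + (2 * j + 1) - cf 0 i.val) % (2 * j + 1)) / 2)
    · rintro i ⟨_, h2⟩
      show ((a + (2 * j + 1) - cf 0 i.val) % (2 * j + 1)) / 2 < μ + 1
      omega
    · rintro i ⟨_, h2⟩ l ⟨_, h3⟩ h4
      have h4' : ((a + (2 * j + 1) - cf 0 i.val) % (2 * j + 1)) / 2 =
        ((a + (2 * j + 1) - cf 0 l.val) % (2 * j + 1)) / 2 := h4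
      rw [hval] at h2 h3
      rw [hval, hval] at h4'
      have hi := i.isLt
      have hl := l.isLt
      apply Fin.ext
      split_ifs at * <;> omega
  · have hb1 : b = 1 := by omega
    subst hb1
    exact (cnt_res y _ (fun u hu => hu.1) (fun u hu v hv _ _ h => bel_unique hu.2 hv.2 h)).trans
      (by unfold rr; rw [if_neg (by omega)])

/-- residues in a row -/
lemma res_row {b : ℕ} (hj : 0 < j) {hi : ℕ} (hin : hi < n) (y : Fin j → Fin n) (a r : ℕ)
    (ha : a + qq b j ≤ hi + 1) (hr : r < qq b j) : ∃ y' : Fin j → Fin n,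
      (∀ i, i ≠ ⟨0, hj⟩ → y' i = y i) ∧
      a ≤ (y' ⟨0, hj⟩).val ∧ (y' ⟨0, hj⟩).val < a + qq b j ∧ fv b y' % qq b j = r := by
  have hq := qq_pos b j
  have hn : 0 < n := by omega
  obtain ⟨T, hT⟩ : ∃ T, T = fv b (Function.update y ⟨0, hj⟩ ⟨0, hn⟩) := ⟨_, rfl⟩
  obtain ⟨c, hc⟩ : ∃ c, c = (r + (qq b j - (T + a) % qq b j)) % qq b j := ⟨_, rfl⟩
  have hcq : c < qq b j := by rw [hc]; exact Nat.mod_lt _ hq
  refine ⟨Function.update y ⟨0, hj⟩ ⟨a + c, by omega⟩, fun i hi' => Function.update_of_ne hi' _ _,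
    ?_, ?_, ?_⟩
  · rw [Function.update_self]; show a ≤ a + c; omega
  · rw [Function.update_self]; show a + c < a + qq b j; omega
  · have h2 := sum_swap (f := fun (i : Fin j) (v : Fin n) => cf b i.val * v.val)
      (y := Function.update y ⟨0, hj⟩ ⟨a + c, by omega⟩)
      (y' := Function.update y ⟨0, hj⟩ ⟨0, hn⟩) (i := ⟨0, hj⟩) (fun l hl => by
        rw [Function.update_of_ne hl, Function.update_of_ne hl])
    have h3 : fv b (Function.update y ⟨0, hj⟩ ⟨a + c, by omega⟩) + cf b 0 * 0 =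
        T + cf b 0 * (a + c) := by
      have h4 : fv b (Function.update y ⟨0, hj⟩ ⟨a + c, by omega⟩) +
          cf b 0 * ((Function.update y (⟨0, hj⟩ : Fin j) (⟨0, hn⟩ : Fin n)) ⟨0, hj⟩).val =
          fv b (Function.update y ⟨0, hj⟩ ⟨0, hn⟩) +
          cf b 0 * ((Function.update y (⟨0, hj⟩ : Fin j) (⟨a + c, by omega⟩ : Fin n))
            ⟨0, hj⟩).val := h2
      rw [Function.update_self, Function.update_self] at h4
      exact h4.trans (congrArg (fun t => t + cf b 0 * (a + c)) hT.symm)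
    have h5 : cf b 0 = 1 := by unfold cf; split_ifs <;> rfl
    rw [h5] at h3
    have h6 : fv b (Function.update y ⟨0, hj⟩ ⟨a + c, by omega⟩) = (T + a) + c := by omega
    rw [h6]
    have h8 : (T + a) % qq b j < qq b j := Nat.mod_lt _ hq
    rw [Nat.add_mod, hc, Nat.mod_mod, ← Nat.add_mod]
    have e : T + a + (r + (qq b j - (T + a) % qq b j)) =
        r + (T + a - (T + a) % qq b j) + qq b j := by
      have := Nat.mod_le (T + a) (qq b j)
      omega
    rw [e, Nat.add_mod_right]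
    have e2 : T + a - (T + a) % qq b j = qq b j * ((T + a) / qq b j) := by
      have := Nat.div_add_mod (T + a) (qq b j)
      omega
    rw [e2, Nat.add_mul_mod_self_left, Nat.mod_eq_of_lt hr]

lemma rr_pos (b μ : ℕ) : 0 < rr b μ := by unfold rr; split_ifs <;> omega

/-- the row property -/
lemma Dp_row {b μ : ℕ} (hj : 0 < j) {hi : ℕ} (hin : hi < n) (y : Fin j → Fin n) (a : ℕ)
    (ha : a + qq b j ≤ hi + 1) : ∃ y' ∈ Dp b μ j n, (∀ i, i ≠ ⟨0, hj⟩ → y' i = y i) ∧
      a ≤ (y' ⟨0, hj⟩).val ∧ (y' ⟨0, hj⟩).val < a + qq b j := by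
  obtain ⟨y', h1, h2, h3, h4⟩ := res_row hj hin y a 0 ha (qq_pos b j)
  refine ⟨y', ?_, h1, h2, h3⟩
  show fv b y' % qq b j < rr b μ
  rw [h4]; exact rr_pos b μ

/-- the box -/
def Bo (j n hi : ℕ) : Set (Fin j → Fin n) := {y | ∀ i, 1 ≤ (y i).val ∧ (y i).val ≤ hi}

/-- number of places in the box -/
lemma Dp_card {b μ : ℕ} (hj : 0 < j) {hi : ℕ} (hin : hi < n) (hρ : rr b μ ≤ qq b j) :
    hi ^ (j - 1) * ((hi / qq b j) * rr b μ) ≤ (Dp b μ j n ∩ Bo j n hi).ncard := by
  have hq := qq_pos b j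
  have hdom : ∀ p : ({i : Fin j // i ≠ ⟨0, hj⟩} → Fin hi) × (Fin (hi / qq b j) × Fin (rr b μ)),
      ∃ y' : Fin j → Fin n, (∀ (i : Fin j) (h : i ≠ ⟨0, hj⟩), (y' i).val = (p.1 ⟨i, h⟩).val + 1) ∧
      1 + p.2.1.val * qq b j ≤ (y' ⟨0, hj⟩).val ∧
      (y' ⟨0, hj⟩).val < 1 + p.2.1.val * qq b j + qq b j ∧ fv b y' % qq b j = p.2.2.val := by
    intro p
    have h1 := p.2.1.isLt
    have h2 := p.2.2.isLt
    have h3 : (p.2.1.val + 1) * qq b j ≤ hi := by
      calc (p.2.1.val + 1) * qq b j ≤ (hi / qq b j) * qq b j := Nat.mul_le_mul_right _ h1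
        _ ≤ hi := Nat.div_mul_le_self _ _
    have h3' : p.2.1.val * qq b j + qq b j ≤ hi := by rw [Nat.add_mul, Nat.one_mul] at h3; exact h3
    let y : Fin j → Fin n := fun i => if h : i ≠ ⟨0, hj⟩ then
      ⟨(p.1 ⟨i, h⟩).val + 1, by have := (p.1 ⟨i, h⟩).isLt; omega⟩ else ⟨0, by omega⟩
    obtain ⟨y', h4, h5, h6, h7⟩ := res_row (b := b) hj hin y (1 + p.2.1.val * qq b j) p.2.2.val
      (by omega) (by omega)
    refine ⟨y', fun i h => ?_, h5, h6, h7⟩
    rw [h4 i h]
    show (if h : i ≠ ⟨0, hj⟩ then (⟨(p.1 ⟨i, h⟩).val + 1, _⟩ : Fin n) else ⟨0, _⟩).val = _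
    rw [dif_pos h]
  choose f hf1 hf2 hf3 hf4 using hdom
  have hinj : Function.Injective f := by
    intro p p' h
    have e1 : p.1 = p'.1 := by
      funext i
      have h1 := hf1 p i.1 i.2
      have h2 := hf1 p' i.1 i.2
      rw [h] at h1
      apply Fin.ext
      have h3 : (p.1 i).val + 1 = (p'.1 i).val + 1 := h1.symm.trans h2
      omega
    have e2 : p.2.2 = p'.2.2 := by
      apply Fin.ext
      rw [← hf4 p, ← hf4 p', h]
    have e3 : p.2.1 = p'.2.1 := by
      have h1 := hf2 p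
      have h2 := hf3 p
      have h3 := hf2 p'
      have h4 := hf3 p'
      rw [h] at h1 h2
      apply Fin.ext
      rcases Nat.lt_trichotomy p.2.1.val p'.2.1.val with h5 | h5 | h5
      · have : (p.2.1.val + 1) * qq b j ≤ p'.2.1.val * qq b j := Nat.mul_le_mul_right _ h5
        rw [Nat.add_mul, Nat.one_mul] at this
        omega
      · exact h5
      · have : (p'.2.1.val + 1) * qq b j ≤ p.2.1.val * qq b j := Nat.mul_le_mul_right _ h5
        rw [Nat.add_mul, Nat.one_mul] at this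
        omega
    exact Prod.ext e1 (Prod.ext e3 e2)
  have hsub : f '' Set.univ ⊆ Dp b μ j n ∩ Bo j n hi := by
    rintro _ ⟨p, _, rfl⟩
    refine ⟨?_, fun i => ?_⟩
    · show fv b (f p) % qq b j < rr b μ
      rw [hf4]; exact p.2.2.isLt
    · by_cases h : i = ⟨0, hj⟩
      · rw [h]
        have h1 := p.2.1.isLt
        have h3 : (p.2.1.val + 1) * qq b j ≤ hi := by
          calc (p.2.1.val + 1) * qq b j ≤ (hi / qq b j) * qq b j := Nat.mul_le_mul_right _ h1
            _ ≤ hi := Nat.div_mul_le_self _ _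
        rw [Nat.add_mul, Nat.one_mul] at h3
        have h4 := hf2 p
        have h5 := hf3 p
        omega
      · rw [hf1 p i h]
        have := (p.1 ⟨i, h⟩).isLt
        omega
  have hc := Set.ncard_le_ncard hsub (Set.toFinite _)
  rw [Set.ncard_image_of_injective _ hinj, Set.ncard_univ, Nat.card_eq_fintype_card,
    Fintype.card_prod, Fintype.card_prod, Fintype.card_fun, Fintype.card_fin, Fintype.card_fin,
    Fintype.card_fin] at hc
  have e4 : Fintype.card {i : Fin j // i ≠ ⟨0, hj⟩} = j - 1 := by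
    rw [Fintype.card_subtype_compl, Fintype.card_fin]
    simp
  rw [e4] at hc
  exact hc

end Pool.Agent.Helper70.Gen
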