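import Mathlib

namespace Pool.Agent.Helper19.Perco
end Pool.Agent.Helper19.Perco
namespace Pool.Agent.Helper70.Duo
end Pool.Agent.Helper70.Duo
namespace Pool.Agent.Helper70.Thr3
end Pool.Agent.Helper70.Thr3

/-!
# Enumerations in the colexicographic order
-/

set_option linter.unusedSectionVars false
set_option linter.unusedVariables false

namespace Pool.Agent.Helper70.Gen

open Set SimpleGraph Pool.Agent.Helper19.Perco Pool.Agent.Helper70.Duo Pool.Agent.Helper70.Thr3

/-- enumeration of a finite set by an injective key -/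
lemma exists_enum {Y : Type*} [Finite Y] (key : Y → ℕ) (hk : Function.Injective key) (A : Set Y)
    (y0 : Y) : ∃ l : ℕ → Y, (∀ i < A.ncard, l i ∈ A) ∧
      (∀ i j, i < j → j < A.ncard → key (l i) < key (l j)) ∧
      (∀ a ∈ A, ∃ i < A.ncard, l i = a) := by
  classical
  have hfin : A.Finite := Set.toFinite A
  let s : Finset ℕ := hfin.toFinset.image key
  have hs : s.card = A.ncard := by
    rw [Finset.card_image_of_injective _ hk, Set.ncard_eq_toFinset_card A hfin]
  have hmem : ∀ i : Fin A.ncard, ∃ a ∈ A, key a = s.orderEmbOfFin hs i := by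
    intro i
    have h := Finset.orderEmbOfFin_mem s hs i
    obtain ⟨a, h1, h2⟩ := Finset.mem_image.1 h
    exact ⟨a, hfin.mem_toFinset.1 h1, h2⟩
  choose f hf1 hf2 using hmem
  refine ⟨fun i => if h : i < A.ncard then f ⟨i, h⟩ else y0, ?_, ?_, ?_⟩
  · intro i hi
    simp only [hi, dif_pos]
    exact hf1 _
  · intro i j hij hj
    have hi : i < A.ncard := hij.trans hj
    simp only [hi, hj, dif_pos]
    rw [hf2, hf2]
    exact (s.orderEmbOfFin hs).strictMono hij
  · intro a ha
    have h1 : key a ∈ s := Finset.mem_image_of_mem _ (hfin.mem_toFinset.2 ha)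
    have h2 : key a ∈ Set.range (s.orderEmbOfFin hs) := by
      rw [Finset.range_orderEmbOfFin]; exact h1
    obtain ⟨i, hi⟩ := h2
    refine ⟨i.val, i.isLt, ?_⟩
    have h3 : i.val < A.ncard := i.isLt
    simp only [h3, dif_pos]
    apply hk
    rw [hf2]
    exact hi

variable {j n : ℕ}

/-- the key -/
def key (y : Fin j → Fin n) : ℕ := ∑ i, (y i).val * n ^ i.val

lemma key_succ (y : Fin (j + 1) → Fin n) :
    key y = key (fun i : Fin j => y i.castSucc) + (y (Fin.last j)).val * n ^ j := by
  unfold key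
  rw [Fin.sum_univ_castSucc]
  rfl

lemma key_bd (y : Fin j → Fin n) (hn : 0 < n) : key y < n ^ j := by
  induction j with
  | zero => simp [key]
  | succ j ih =>
    rw [key_succ]
    have h1 := ih (fun i : Fin j => y i.castSucc)
    have h2 := (y (Fin.last j)).isLt
    calc key (fun i : Fin j => y i.castSucc) + (y (Fin.last j)).val * n ^ j
        < n ^ j + (y (Fin.last j)).val * n ^ j := Nat.add_lt_add_right h1 _
      _ = ((y (Fin.last j)).val + 1) * n ^ j := by ring
      _ ≤ n * n ^ j := Nat.mul_le_mul_right _ h2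
      _ = n ^ (j + 1) := by ring

/-- comparison at the top differing coordinate -/
lemma key_lt {y y' : Fin j → Fin n} (c : Fin j) (h1 : ∀ i, c < i → y i = y' i)
    (h2 : (y c).val < (y' c).val) : key y < key y' := by
  have hn : 0 < n := by have := (y c).isLt; omega
  induction j with
  | zero => exact c.elim0
  | succ j ih =>
    rw [key_succ, key_succ]
    by_cases hc : c = Fin.last j
    · subst hc
      have h3 := key_bd (fun i : Fin j => y i.castSucc) hn
      calc key (fun i : Fin j => y i.castSucc) + (y (Fin.last j)).val * n ^ j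
          < n ^ j + (y (Fin.last j)).val * n ^ j := Nat.add_lt_add_right h3 _
        _ = ((y (Fin.last j)).val + 1) * n ^ j := by ring
        _ ≤ (y' (Fin.last j)).val * n ^ j := Nat.mul_le_mul_right _ h2
        _ ≤ _ := Nat.le_add_left _ _
    · have hlt : c.val < j := by
        have h3 : c.val ≠ j := fun h => hc (Fin.ext h)
        have := c.isLt
        omega
      have h3 := h1 (Fin.last j) (by
        show c.val < j
        exact hlt)
      rw [h3]
      apply Nat.add_lt_add_right
      have e : c = (⟨c.val, hlt⟩ : Fin j).castSucc := rfl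
      apply ih ⟨c.val, hlt⟩
      · intro i hi
        apply h1 i.castSucc
        show c.val < i.val
        exact hi
      · exact h2

lemma exists_top {y y' : Fin j → Fin n} (h : y ≠ y') :
    ∃ c, (∀ i, c < i → y i = y' i) ∧ (y c).val ≠ (y' c).val := by
  classical
  have hex : (Finset.univ.filter (fun i => y i ≠ y' i)).Nonempty := by
    by_contra hne
    rw [Finset.not_nonempty_iff_eq_empty] at hne
    apply h
    funext i
    by_contra hi
    have : i ∈ Finset.univ.filter (fun i => y i ≠ y' i) :=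
      Finset.mem_filter.2 ⟨Finset.mem_univ i, hi⟩
    rw [hne] at this
    exact absurd this (Finset.notMem_empty _)
  obtain ⟨c, hc, hmax⟩ := Finset.exists_max_image _ id hex
  refine ⟨c, fun i hi => ?_, fun h' => (Finset.mem_filter.1 hc).2 (Fin.ext h')⟩
  by_contra hne
  have := hmax i (Finset.mem_filter.2 ⟨Finset.mem_univ i, hne⟩)
  exact absurd hi (not_lt.2 this)

lemma key_inj : Function.Injective (key : (Fin j → Fin n) → ℕ) := by
  intro y y' h
  by_contra hne
  obtain ⟨c, h1, h2⟩ := exists_top hne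
  rcases Nat.lt_or_gt_of_ne h2 with h3 | h3
  · have := key_lt c h1 h3
    omega
  · have := key_lt c (fun i hi => (h1 i hi).symm) h3
    omega

/-- the top differing coordinate of an increasing pair -/
lemma key_top {y y' : Fin j → Fin n} (h : key y < key y') :
    ∃ c, (∀ i, c < i → y i = y' i) ∧ (y c).val < (y' c).val := by
  have hne : y ≠ y' := fun h' => by rw [h'] at h; omega
  obtain ⟨c, h1, h2⟩ := exists_top hne
  refine ⟨c, h1, ?_⟩
  rcases Nat.lt_or_gt_of_ne h2 with h3 | h3
  · exact h3
  · have := key_lt c (fun i hi => (h1 i hi).symm) h3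
    omega

/-- consecutive elements of a set which meets all long rows of the box -/
lemma consec (hj : 0 < j) {A : Set (Fin j → Fin n)} {hi q : ℕ} (hq : 1 ≤ q) (hin : hi < n)
    (hbox : ∀ y ∈ A, ∀ i, 1 ≤ (y i).val ∧ (y i).val ≤ hi)
    (hrow : ∀ y : Fin j → Fin n, (∀ i, i ≠ ⟨0, hj⟩ → 1 ≤ (y i).val ∧ (y i).val ≤ hi) → ∀ a, 1 ≤ a →
      a + q ≤ hi + 1 → ∃ y' ∈ A, (∀ i, i ≠ ⟨0, hj⟩ → y' i = y i) ∧ a ≤ (y' ⟨0, hj⟩).val ∧
        (y' ⟨0, hj⟩).val < a + q)
    (hq2 : q ≤ hi)
    {x x' : Fin j → Fin n} (hx : x ∈ A) (hx' : x' ∈ A) (hlt : key x < key x')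
    (hno : ∀ y ∈ A, ¬ (key x < key y ∧ key y < key x')) :
    ∃ c : Fin j, (∀ i, c < i → x i = x' i) ∧ (x c).val < (x' c).val ∧
      (x' c).val ≤ (x c).val + q ∧ (c ≠ ⟨0, hj⟩ → hi < (x ⟨0, hj⟩).val + q ∧
        (x' ⟨0, hj⟩).val ≤ q) := by
  obtain ⟨c, h1, h2⟩ := key_top hlt
  refine ⟨c, h1, h2, ?_, ?_⟩
  · by_contra hgt
    push Not at hgt
    by_cases hc : c = ⟨0, hj⟩
    · subst hc
      obtain ⟨y, hy1, hy2, hy3, hy4⟩ := hrow x (fun i _ => hbox x hx i) ((x ⟨0, hj⟩).val + 1)
        (by omega) (by have := (hbox x' hx' ⟨0, hj⟩).2; omega)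
      apply hno y hy1
      refine ⟨key_lt ⟨0, hj⟩ (fun i hi => (hy2 i hi.ne').symm) (by omega),
        key_lt ⟨0, hj⟩ (fun i hi => ?_) (by omega)⟩
      rw [hy2 i hi.ne', h1 i hi]
    · -- a row in between
      have hxc := (hbox x hx c)
      have hxc' := (hbox x' hx' c)
      have hpos : (⟨0, hj⟩ : Fin j) < c := by
        have h3 : c.val ≠ 0 := fun h => hc (Fin.ext h)
        show 0 < c.val
        omega
      let t : Fin j → Fin n := fun i => if c < i then x i else
        if i = c then ⟨(x c).val + 1, by omega⟩ else ⟨1, by omega⟩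
      obtain ⟨y, hy1, hy2, hy3, hy4⟩ := hrow t (by
        intro i _
        show 1 ≤ (if c < i then x i else if i = c then (⟨(x c).val + 1, _⟩ : Fin n)
          else ⟨1, _⟩).val ∧ (if c < i then x i else if i = c then (⟨(x c).val + 1, _⟩ : Fin n)
          else ⟨1, _⟩).val ≤ hi
        split_ifs
        · exact hbox x hx i
        · exact ⟨by show 1 ≤ (x c).val + 1; omega, by show (x c).val + 1 ≤ hi; omega⟩
        · exact ⟨le_rfl, by show 1 ≤ hi; omega⟩) 1 le_rfl (by omega)
      have hyc : (y c).val = (x c).val + 1 := by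
        rw [hy2 c hc]
        show (if c < c then x c else if c = c then (⟨(x c).val + 1, _⟩ : Fin n)
          else ⟨1, _⟩).val = _
        rw [if_neg (lt_irrefl c), if_pos rfl]
      have hyu : ∀ i, c < i → y i = x i := by
        intro i hi'
        rw [hy2 i (hpos.trans hi').ne']
        show (if c < i then x i else _) = x i
        rw [if_pos hi']
      apply hno y hy1
      exact ⟨key_lt c (fun i hi => (hyu i hi).symm) (by omega),
        key_lt c (fun i hi => by rw [hyu i hi, h1 i hi]) (by omega)⟩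
  · intro hc
    have hpos : (⟨0, hj⟩ : Fin j) < c := by
      have h3 : c.val ≠ 0 := fun h => hc (Fin.ext h)
      show 0 < c.val
      omega
    constructor
    · by_contra hle
      push Not at hle
      obtain ⟨y, hy1, hy2, hy3, hy4⟩ := hrow x (fun i _ => hbox x hx i) ((x ⟨0, hj⟩).val + 1)
        (by omega) (by omega)
      apply hno y hy1
      refine ⟨key_lt ⟨0, hj⟩ (fun i hi => (hy2 i hi.ne').symm) (by omega),
        key_lt c (fun i hi => ?_) ?_⟩
      · rw [hy2 i (hpos.trans hi).ne', h1 i hi]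
      · rw [hy2 c hc]; exact h2
    · by_contra hle
      push Not at hle
      obtain ⟨y, hy1, hy2, hy3, hy4⟩ := hrow x' (fun i _ => hbox x' hx' i) 1 le_rfl (by omega)
      apply hno y hy1
      refine ⟨key_lt c (fun i hi => ?_) ?_, key_lt ⟨0, hj⟩ (fun i hi => hy2 i hi.ne') (by omega)⟩
      · rw [hy2 i (hpos.trans hi).ne', h1 i hi]
      · rw [hy2 c hc]; exact h2

end Pool.Agent.Helper70.Gen
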