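import Mathlib
import Pool.Agent.Helper70.Thr3.Conf

namespace Pool.Agent.Helper70.Duo
end Pool.Agent.Helper70.Duo

/-!
# Staircase paths in the grid
-/

set_option linter.unusedSectionVars false
set_option linter.unusedVariables false

namespace Pool.Agent.Helper70.Gen

open Set SimpleGraph Pool.Agent.Helper19.Perco Pool.Agent.Helper70.Duo Pool.Agent.Helper70.Thr3

variable {j n : ℕ}

/-- between -/
def btw (a u b : ℕ) : Prop := (a ≤ u ∧ u ≤ b) ∨ (b ≤ u ∧ u ≤ a)

/-- the staircase path -/
def St (x x' : Fin j → Fin n) : Set (Fin j → Fin n) :=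
  {u | ∃ c : Fin j, (∀ i, i < c → u i = x' i) ∧ btw (x c).val (u c).val (x' c).val ∧
    ∀ i, c < i → u i = x i}

lemma St_btw {x x' u : Fin j → Fin n} (h : u ∈ St x x') (i : Fin j) :
    btw (x i).val (u i).val (x' i).val := by
  obtain ⟨c, h1, h2, h3⟩ := h
  rcases lt_trichotomy i c with h4 | h4 | h4
  · rw [h1 i h4]; unfold btw; omega
  · rw [h4]; exact h2
  · rw [h3 i h4]; unfold btw; omega

lemma St_left (hj : 0 < j) (x x' : Fin j → Fin n) : x ∈ St x x' := by
  refine ⟨⟨0, hj⟩, fun i hi => ?_, ?_, fun i _ => rfl⟩
  · exact absurd hi (by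
      intro h
      have : i.val < 0 := h
      omega)
  · unfold btw; omega

lemma St_right (hj : 0 < j) (x x' : Fin j → Fin n) : x' ∈ St x x' := by
  refine ⟨⟨j - 1, by omega⟩, fun i _ => rfl, ?_, fun i hi => ?_⟩
  · unfold btw; omega
  · exact absurd hi (by
      intro h
      have h' : j - 1 < i.val := h
      have := i.isLt
      omega)

/-- distance of two numbers -/
def nd (a b : ℕ) : ℕ := (a - b) + (b - a)

/-- distance from `x` -/
def ds (x u : Fin j → Fin n) : ℕ := ∑ i, nd (u i).val (x i).val

lemma ds_adj {x u v : Fin j → Fin n} (h : (Gd j n).Adj u v) :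
    ds x u + 1 = ds x v ∨ ds x v + 1 = ds x u := by
  obtain ⟨i, h1, h2⟩ := h
  have h3 := sum_swap (f := fun (i : Fin j) (v : Fin n) => nd v.val (x i).val) h2
  have h4 : ds x u + nd (v i).val (x i).val = ds x v + nd (u i).val (x i).val := h3
  unfold nd at h4
  omega

lemma btw_nd {a u v b : ℕ} (h1 : btw a u b) (h2 : btw a v b) (h : nd u a = nd v a) : u = v := by
  unfold btw nd at *
  omega

lemma St_unique {x x' u v : Fin j → Fin n} (hu : u ∈ St x x') (hv : v ∈ St x x')
    (h : ds x u = ds x v) : u = v := by
  have key : (∀ i, nd (u i).val (x i).val ≤ nd (v i).val (x i).val) ∨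
      (∀ i, nd (v i).val (x i).val ≤ nd (u i).val (x i).val) := by
    obtain ⟨c, h1, h2, h3⟩ := hu
    obtain ⟨c', h4, h5, h6⟩ := hv
    have self : ∀ a, nd a a = 0 := fun a => by unfold nd; omega
    rcases lt_trichotomy c c' with hc | hc | hc
    · left
      intro i
      rcases lt_trichotomy i c with hi | hi | hi
      · rw [h1 i hi, h4 i (hi.trans hc)]
      · rw [hi, h4 c hc]
        unfold btw at h2
        unfold nd
        omega
      · rw [h3 i hi, self]; exact Nat.zero_le _
    · subst hc
      rcases le_total (nd (u c).val (x c).val) (nd (v c).val (x c).val) with h7 | h7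
      · left
        intro i
        rcases lt_trichotomy i c with hi | hi | hi
        · rw [h1 i hi, h4 i hi]
        · rw [hi]; exact h7
        · rw [h3 i hi, h6 i hi]
      · right
        intro i
        rcases lt_trichotomy i c with hi | hi | hi
        · rw [h1 i hi, h4 i hi]
        · rw [hi]; exact h7
        · rw [h3 i hi, h6 i hi]
    · right
      intro i
      rcases lt_trichotomy i c' with hi | hi | hi
      · rw [h4 i hi, h1 i (hi.trans hc)]
      · rw [hi, h1 c' hc]
        unfold btw at h5
        unfold nd
        omega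
      · rw [h6 i hi, self]; exact Nat.zero_le _
  have heq : ∀ i, nd (u i).val (x i).val = nd (v i).val (x i).val := by
    unfold ds at h
    rcases key with key | key
    · have := (Finset.sum_eq_sum_iff_of_le (fun i _ => key i)).1 h
      exact fun i => this i (Finset.mem_univ i)
    · have := (Finset.sum_eq_sum_iff_of_le (fun i _ => key i)).1 h.symm
      exact fun i => (this i (Finset.mem_univ i)).symm
  funext i
  exact Fin.ext (btw_nd (St_btw hu i) (St_btw hv i) (heq i))

open Classical in
lemma St_geo (x x' u : Fin j → Fin n) : cnt (Gd j n) (St x x') u ≤ 2 := by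
  let up : Fin j → Fin n := if h : ∃ v, v ∈ St x x' ∧ ds x v = ds x u + 1 then h.choose else u
  let dn : Fin j → Fin n := if h : ∃ v, v ∈ St x x' ∧ ds x v + 1 = ds x u then h.choose else u
  apply cnt_le_two_of _ _ _ up dn
  intro v hv hadj
  rcases ds_adj (x := x) hadj with h1 | h1
  · left
    have hex : ∃ v, v ∈ St x x' ∧ ds x v = ds x u + 1 := ⟨v, hv, h1.symm⟩
    have e : up = hex.choose := dif_pos hex
    obtain ⟨h3, h4⟩ := hex.choose_spec
    rw [e]
    exact St_unique hv h3 (by omega)
  · right
    have hex : ∃ v, v ∈ St x x' ∧ ds x v + 1 = ds x u := ⟨v, hv, h1⟩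
    have e : dn = hex.choose := dif_pos hex
    obtain ⟨h3, h4⟩ := hex.choose_spec
    rw [e]
    exact St_unique hv h3 (by omega)

lemma St_walk (hj : 0 < j) {x x' : Fin j → Fin n} {S : Set (Fin j → Fin n)} (hx : x ∈ S)
    (hcl : ∀ u ∈ S, ∀ v ∈ St x x', (Gd j n).Adj u v → v ∈ S) : x' ∈ S := by
  have key : ∀ N, ∀ u ∈ St x x', ds x u = N → u ∈ S := by
    intro N
    induction N with
    | zero =>
      intro u hu h
      have h0 : ds x x = 0 := by
        unfold ds nd
        apply Finset.sum_eq_zero
        intro i _
        omega
      rw [St_unique hu (St_left hj x x') (by omega)]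
      exact hx
    | succ N ih =>
      intro u hu h
      have hex : (Finset.univ.filter (fun i => u i ≠ x i)).Nonempty := by
        by_contra hne
        rw [Finset.not_nonempty_iff_eq_empty] at hne
        have : u = x := by
          funext i
          by_contra hi
          have : i ∈ Finset.univ.filter (fun i => u i ≠ x i) :=
            Finset.mem_filter.2 ⟨Finset.mem_univ i, hi⟩
          rw [hne] at this
          exact absurd this (Finset.notMem_empty _)
        have h0 : ds x x = 0 := by
          unfold ds nd
          apply Finset.sum_eq_zero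
          intro i _
          omega
        rw [this, h0] at h
        omega
      obtain ⟨i, hi, hmax⟩ := Finset.exists_max_image _ id hex
      have hi' : u i ≠ x i := (Finset.mem_filter.1 hi).2
      have hmax' : ∀ l, i < l → u l = x l := by
        intro l hl
        by_contra hne
        have := hmax l (Finset.mem_filter.2 ⟨Finset.mem_univ l, hne⟩)
        exact absurd hl (not_lt.2 this)
      have hiv : (u i).val ≠ (x i).val := fun h' => hi' (Fin.ext h')
      have hui := (u i).isLt
      have hxi := (x i).isLt
      let v1 : Fin n := ⟨if (u i).val < (x i).val then (u i).val + 1 else (u i).val - 1, by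
        split_ifs <;> omega⟩
      have hv1 : v1.val = if (u i).val < (x i).val then (u i).val + 1 else (u i).val - 1 := rfl
      let v := Function.update u i v1
      have hvi : v i = v1 := Function.update_self _ _ _
      have hvo : ∀ l, l ≠ i → v l = u l := fun l hl => Function.update_of_ne hl _ _
      have hadj : (Gd j n).Adj v u := by
        refine ⟨i, ?_, hvo⟩
        rw [hvi, hv1]
        split_ifs <;> omega
      have hvS : v ∈ St x x' := by
        obtain ⟨c, h1, h2, h3⟩ := hu
        have hic : i ≤ c := by
          by_contra hlt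
          exact hi' (h3 i (not_le.1 hlt))
        refine ⟨i, fun l hl => ?_, ?_, fun l hl => ?_⟩
        · rw [hvo l hl.ne]
          exact h1 l (lt_of_lt_of_le hl hic)
        · have hb := St_btw (x := x) (x' := x') (u := u) ⟨c, h1, h2, h3⟩ i
          rw [hvi, hv1]
          unfold btw at hb ⊢
          split_ifs <;> omega
        · rw [hvo l hl.ne']
          exact hmax' l hl
      have hds : ds x v = N := by
        rcases ds_adj (x := x) hadj with h4 | h4
        · omega
        · exfalso
          have h5 := sum_swap (f := fun (i : Fin j) (v : Fin n) => nd v.val (x i).val)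
            (y := v) (y' := u) (i := i) hvo
          have h6 : ds x v + nd (u i).val (x i).val = ds x u + nd (v i).val (x i).val := h5
          rw [hvi, hv1] at h6
          unfold nd at h6
          split_ifs at h6 <;> omega
      exact hcl v (ih v hvS hds) u hu hadj
  exact key _ x' (St_right hj x x') rfl

end Pool.Agent.Helper70.Gen
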