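import Mathlib
import Pool.Agent.Helper70.Gen.Def
import Pool.Agent.Helper70.Gen.Link
import Pool.Agent.Helper70.Gen.Enum
import Pool.Agent.Helper70.Gen.Color
import Pool.Agent.Helper70.Thr3.Asm

/-!
# The configuration of places
-/

set_option linter.unusedSectionVars false
set_option linter.unusedVariables false

namespace Pool.Agent.Helper70.Gen

open Set SimpleGraph Pool.Agent.Helper19.Perco Pool.Agent.Helper70.Duo Pool.Agent.Helper70.Thr3

variable {j n : ℕ}

/-- code of a link -/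
def code {B : ℕ} (hB : 0 < B) (lam : Fin j) (x : Fin j → Fin n) : Fin j × (Fin j → Fin B) :=
  (lam, fun c => if c < lam then ⟨0, hB⟩ else ⟨(x c).val % B, Nat.mod_lt _ hB⟩)

/-- links with the same code are far apart -/
lemma far_coord {B q F : ℕ} (hB : 0 < B) (hBq : 2 * q + 3 ≤ B) {line : ℕ → (Fin j → Fin n)}
    {lam : ℕ → Fin j}
    (hinc : ∀ i i', i < i' → i' ≤ F → key (line i) < key (line i'))
    (hlam : ∀ i < F, (∀ c, lam i < c → line i c = line (i + 1) c) ∧
      (line i (lam i)).val < (line (i + 1) (lam i)).val ∧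
      (line (i + 1) (lam i)).val ≤ (line i (lam i)).val + q)
    {i i' : ℕ} (hi : i < i') (hi' : i' < F)
    (hc : code hB (lam i) (line i) = code hB (lam i') (line i'))
    {u v : Fin j → Fin n} (hu : u ∈ St (line i) (line (i + 1)))
    (hv : v ∈ St (line i') (line (i' + 1))) :
    ∃ c, (u c).val + 3 ≤ (v c).val ∨ (v c).val + 3 ≤ (u c).val := by
  have e1 : lam i = lam i' := congrArg Prod.fst hc
  have e2 : ∀ c, lam i ≤ c → (line i c).val % B = (line i' c).val % B := by
    intro c hle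
    have h1 := congrFun (congrArg Prod.snd hc) c
    have h2 : (if c < lam i then (⟨0, hB⟩ : Fin B) else ⟨(line i c).val % B, Nat.mod_lt _ hB⟩) =
      (if c < lam i' then (⟨0, hB⟩ : Fin B) else ⟨(line i' c).val % B, Nat.mod_lt _ hB⟩) := h1
    rw [if_neg (not_lt.2 hle), if_neg (not_lt.2 (e1 ▸ hle))] at h2
    exact congrArg Fin.val h2
  obtain ⟨a1, a2, a3⟩ := hlam i (hi.trans hi')
  obtain ⟨b1, b2, b3⟩ := hlam i' hi'
  have hex : ∃ c, lam i ≤ c ∧ (line i c).val ≠ (line i' c).val := by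
    by_contra hne
    push Not at hne
    have h1 : key (line i') < key (line (i + 1)) := by
      apply key_lt (lam i)
      · intro c hc'
        rw [← a1 c hc']
        exact Fin.ext (hne c hc'.le).symm
      · rw [← hne (lam i) le_rfl]; exact a2
    rcases Nat.eq_or_lt_of_le (Nat.succ_le_of_lt hi) with h2 | h2
    · have : i + 1 = i' := h2
      rw [this] at h1
      exact lt_irrefl _ h1
    · have := hinc (i + 1) i' h2 hi'.le
      omega
  obtain ⟨c, hle, hne⟩ := hex
  refine ⟨c, ?_⟩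
  have hu1 : (line i c).val ≤ (u c).val ∧ (u c).val ≤ (line i c).val + q := by
    have h := St_btw hu c
    rcases eq_or_lt_of_le hle with h1 | h1
    · rw [← h1] at h ⊢
      unfold btw at h
      omega
    · rw [← a1 c h1] at h
      unfold btw at h
      omega
  have hv1 : (line i' c).val ≤ (v c).val ∧ (v c).val ≤ (line i' c).val + q := by
    have h := St_btw hv c
    rcases eq_or_lt_of_le hle with h1 | h1
    · rw [← h1, e1] at h ⊢
      unfold btw at h
      omega
    · rw [← b1 c (e1 ▸ h1)] at h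
      unfold btw at h
      omega
  have h3 := e2 c hle
  have h4 : (line i c).val + B ≤ (line i' c).val ∨ (line i' c).val + B ≤ (line i c).val := by
    rcases Nat.lt_or_gt_of_ne hne with h5 | h5
    · left
      by_contra hlt
      push Not at hlt
      have h6 : (line i' c).val - (line i c).val < B := by omega
      have h7 : (line i c).val ≡ (line i' c).val [MOD B] := h3
      have h8 := (Nat.modEq_iff_dvd' h5.le).1 h7
      have := Nat.le_of_dvd (by omega) h8
      omega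
    · right
      by_contra hlt
      push Not at hlt
      have h7 : (line i' c).val ≡ (line i c).val [MOD B] := h3.symm
      have h8 := (Nat.modEq_iff_dvd' h5.le).1 h7
      have := Nat.le_of_dvd (by omega) h8
      omega
  omega

/-- coordinates which differ by three -/
lemma far_of {u v : Fin j → Fin n} (c : Fin j)
    (h : (u c).val + 3 ≤ (v c).val ∨ (v c).val + 3 ≤ (u c).val) :
    u ≠ v ∧ ¬ (Gd j n).Adj u v ∧ ∀ x, ¬ ((Gd j n).Adj x u ∧ (Gd j n).Adj x v) := by
  refine ⟨fun e => by rw [e] at h; omega, fun e => ?_, fun x e => ?_⟩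
  · have := adj_close e c
    omega
  · have h1 := adj_close e.1 c
    have h2 := adj_close e.2 c
    omega

lemma cnt_congr' {V : Type*} {G : SimpleGraph V} {S T : Set V} {v : V}
    (h : ∀ u, G.Adj v u → (u ∈ S ↔ u ∈ T)) : cnt G S v = cnt G T v := by
  unfold cnt
  congr 1
  ext u
  constructor
  · rintro ⟨h1, h2⟩; exact ⟨h1, (h u h1).1 h2⟩
  · rintro ⟨h1, h2⟩; exact ⟨h1, (h u h1).2 h2⟩

/-- elements with a zero coordinate -/
def Fz (b μ j n hi : ℕ) : Set (Fin j → Fin n) :=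
  {y | y ∈ Dp b μ j n ∧ (∃ i, (y i).val = 0) ∧ ∀ i, (y i).val ≤ hi}

lemma bel_key {u v : Fin j → Fin n} (h : bel u v) : key u < key v := by
  obtain ⟨i, h1, h2⟩ := h
  exact key_lt i (fun l hl => (h2 l hl.ne').symm) (by omega)

lemma bel_le {u v : Fin j → Fin n} (h : bel u v) (i : Fin j) : (u i).val ≤ (v i).val := by
  obtain ⟨l, h1, h2⟩ := h
  by_cases hi : i = l
  · subst hi; omega
  · rw [h2 i hi]

/-- data of the enumeration -/
structure En (b μ k n hi q F : ℕ) where
  line : ℕ → (Fin (μ + k) → Fin n)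
  lam : ℕ → Fin (μ + k)
  inc : ∀ i i', i < i' → i' ≤ F → key (line i) < key (line i')
  mem : ∀ i, line i ∈ Dp b μ (μ + k) n ∩ Bo (μ + k) n hi
  full : ∀ y ∈ Dp b μ (μ + k) n ∩ Bo (μ + k) n hi, ∀ i ≤ F, key y < key (line i) →
    ∃ m < i, y = line m
  lam1 : ∀ i < F, (∀ c, lam i < c → line i c = line (i + 1) c) ∧
      (line i (lam i)).val < (line (i + 1) (lam i)).val ∧
      (line (i + 1) (lam i)).val ≤ (line i (lam i)).val + q
  lam2 : ∀ i < F, ∀ l0 : Fin (μ + k), l0.val = 0 → lam i ≠ l0 →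
    hi < (line i l0).val + q ∧ (line (i + 1) l0).val ≤ q

namespace En

variable {b μ k hi q F : ℕ} (E : En b μ k n hi q F)

lemma key_le {i i' : ℕ} (h : i ≤ i') (h' : i' ≤ F) : key (E.line i) ≤ key (E.line i') := by
  rcases Nat.eq_or_lt_of_le h with h1 | h1
  · rw [h1]
  · exact (E.inc i i' h1 h').le

lemma lineFz (i : ℕ) : E.line i ∉ Fz b μ (μ + k) n hi := by
  rintro ⟨_, ⟨l, hl⟩, _⟩
  have := ((E.mem i).2 l).1
  omega

lemma inn (hb : b ≤ 1) {i : ℕ} (hi' : i ≤ F) :
    cnt (Gd (μ + k) n) {y | y ∈ Fz b μ (μ + k) n hi ∨ ∃ l < i, y = E.line l} (E.line i) = μ := by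
  refine Eq.trans ?_ (Dp_bel hb rfl (E.mem i).1 (fun l => ((E.mem i).2 l).1))
  apply cnt_congr'
  intro u hadj
  constructor
  · rintro (⟨h1, ⟨l, h2⟩, h3⟩ | ⟨l, h1, h2⟩)
    · refine ⟨h1, ?_⟩
      rcases adj_bel hadj with h4 | h4
      · exact h4
      · exfalso
        have := bel_le h4 l
        have := ((E.mem i).2 l).1
        omega
    · refine ⟨h2 ▸ (E.mem l).1, ?_⟩
      rcases adj_bel hadj with h4 | h4
      · exact h4
      · exfalso
        have h5 := bel_key h4
        have h6 := E.inc l i h1 hi'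
        rw [h2] at h5
        omega
  · rintro ⟨h1, h2⟩
    by_cases hz : ∃ l, (u l).val = 0
    · left
      exact ⟨h1, hz, fun l => (bel_le h2 l).trans ((E.mem i).2 l).2⟩
    · right
      push Not at hz
      exact E.full u ⟨h1, fun l => ⟨Nat.one_le_iff_ne_zero.2 (hz l),
        (bel_le h2 l).trans ((E.mem i).2 l).2⟩⟩ i hi' (bel_key h2)

lemma ends (hj : 0 < μ + k) (hh : 2 * q + 3 ≤ hi) {i : ℕ} (hi' : i < F)
    (y : Fin (μ + k) → Fin n) (hy : y ∈ Fz b μ (μ + k) n hi ∨ ∃ l ≤ F, y = E.line l) :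
    ¬ ((Gd (μ + k) n).Adj y (E.line i) ∧ (Gd (μ + k) n).Adj y (E.line (i + 1))) := by
  rintro ⟨h1, h2⟩
  obtain ⟨a1, a2, a3⟩ := E.lam1 i hi'
  by_cases hl : E.lam i = ⟨0, hj⟩
  · rw [hl] at a1 a2 a3
    have hoff : ∀ l : Fin (μ + k), l ≠ ⟨0, hj⟩ → E.line i l = E.line (i + 1) l := by
      intro l hl'
      apply a1
      show 0 < l.val
      have : l.val ≠ 0 := fun h => hl' (Fin.ext h)
      omega
    obtain ⟨a, h3, h4⟩ := h1
    obtain ⟨a', h5, h6⟩ := h2
    have ha : a = ⟨0, hj⟩ := by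
      by_contra hne
      have h7 := h4 ⟨0, hj⟩ (Ne.symm hne)
      have h8 := hoff a hne
      have ha' : a' = a := by
        by_contra hne'
        have h9 := h6 a (Ne.symm hne')
        rw [h9, ← h8] at h3
        omega
      rw [ha'] at h6
      have h9 := h6 ⟨0, hj⟩ (Ne.symm hne)
      rw [← h7, ← h9] at a2
      omega
    subst ha
    have ha' : a' = ⟨0, hj⟩ := by
      by_contra hne
      have h8 := hoff a' hne
      have h9 := h4 a' hne
      rw [h9, ← h8] at h5
      omega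
    subst ha'
    have hyk1 : key (E.line i) < key y := by
      apply key_lt ⟨0, hj⟩ (fun l hl' => (h4 l hl'.ne').symm)
      omega
    have hyk2 : key y < key (E.line (i + 1)) := by
      apply key_lt ⟨0, hj⟩ (fun l hl' => h6 l hl'.ne')
      omega
    rcases hy with hy | ⟨l, hl1, hl2⟩
    · obtain ⟨_, ⟨l, h10⟩, _⟩ := hy
      by_cases hl' : l = ⟨0, hj⟩
      · subst hl'
        omega
      · rw [h4 l hl'] at h10
        have := ((E.mem i).2 l).1
        omega
    · rw [hl2] at hyk1 hyk2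
      rcases Nat.lt_or_ge l (i + 1) with h11 | h11
      · have := E.key_le (Nat.le_of_lt_succ h11) hi'.le
        omega
      · have := E.key_le h11 hl1
        omega
  · obtain ⟨b1, b2⟩ := E.lam2 i hi' ⟨0, hj⟩ rfl hl
    have h3 := adj_close h1 ⟨0, hj⟩
    have h4 := adj_close h2 ⟨0, hj⟩
    omega

/-- the configuration -/
noncomputable def toYG (hb : b ≤ 1) (hj : 0 < μ + k) (hh : 2 * q + 3 ≤ hi) (hF : 1 ≤ F)
    (hF2 : F % 2 = 0) : YG (Gd (μ + k) n) μ (2 * μ + 1 + b) where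
  F := F
  hF := hF
  hF2 := hF2
  line := E.line
  Fu := Fz b μ (μ + k) n hi
  P := fun i => St (E.line i) (E.line (i + 1))
  col := fun i => (Fintype.equivFin (Fin (μ + k) × (Fin (μ + k) → Fin (2 * q + 3)))
    (code (Nat.succ_pos _) (E.lam i) (E.line i))).val
  C := Fintype.card (Fin (μ + k) × (Fin (μ + k) → Fin (2 * q + 3)))
  inj := by
    intro i hi1 i' hi2 h
    rcases Nat.lt_trichotomy i i' with h1 | h1 | h1
    · have := E.inc i i' h1 hi2
      rw [h] at this
      exact absurd this (lt_irrefl _)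
    · exact h1
    · have := E.inc i' i h1 hi1
      rw [h] at this
      exact absurd this (lt_irrefl _)
  lineFu := fun i _ => E.lineFz i
  inn := fun i h => E.inn hb h
  out := by
    intro y _ _
    refine le_trans (cnt_mono _ ?_ _) (Dp_cnt hb y)
    rintro u (h | ⟨l, _, h⟩)
    · exact h.1
    · rw [h]; exact (E.mem l).1
  colC := fun i _ => (Fintype.equivFin _ _).isLt
  P0 := fun i _ => St_left hj _ _
  P1 := fun i _ => St_right hj _ _
  geo := fun i _ u => St_geo _ _ _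
  far := by
    intro i h1 i' h2 hne _ hcol u hu v hv
    have hcode : code (Nat.succ_pos (2 * q + 2)) (E.lam i) (E.line i) =
        code (Nat.succ_pos (2 * q + 2)) (E.lam i') (E.line i') :=
      (Fintype.equivFin _).injective (Fin.ext hcol)
    rcases Nat.lt_or_gt_of_ne hne with h3 | h3
    · obtain ⟨c, hc⟩ := far_coord (Nat.succ_pos (2 * q + 2)) le_rfl E.inc E.lam1 h3 h2 hcode hu hv
      exact far_of c hc
    · obtain ⟨c, hc⟩ := far_coord (Nat.succ_pos (2 * q + 2)) le_rfl E.inc E.lam1 h3 h1 hcode.symm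
        hv hu
      exact far_of c hc.symm
  ends := fun i h y hy => E.ends hj hh h y hy
  walk := fun i _ S h1 h2 => St_walk hj h1 h2

end En

lemma rr_le_qq {b μ k : ℕ} : rr b μ ≤ qq b (μ + k) := by
  unfold rr qq; split_ifs <;> omega

/-- the enumeration -/
lemma exists_En {b μ k hi : ℕ} (hj : 0 < μ + k) (hin : hi < n)
    (hq3 : 3 * qq b (μ + k) ≤ hi) : ∃ F, ∃ E : En (n := n) b μ k hi (qq b (μ + k)) F,
      1 ≤ F ∧ F % 2 = 0 ∧ (Dp b μ (μ + k) n ∩ Bo (μ + k) n hi).ncard ≤ F + 2 := by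
  have hq := qq_pos b (μ + k)
  have hrr := rr_pos b μ
  obtain ⟨A, hA⟩ : ∃ A, A = Dp b μ (μ + k) n ∩ Bo (μ + k) n hi := ⟨_, rfl⟩
  rw [← hA]
  have hN3 : 3 ≤ A.ncard := by
    rw [hA]
    refine le_trans ?_ (Dp_card hj hin rr_le_qq)
    have h1 : 1 ≤ hi ^ (μ + k - 1) := Nat.one_le_pow _ _ (by omega)
    have h2 : 3 ≤ hi / qq b (μ + k) := (Nat.le_div_iff_mul_le hq).2 hq3
    calc 3 = 1 * (3 * 1) := by norm_num
      _ ≤ _ := Nat.mul_le_mul h1 (Nat.mul_le_mul h2 hrr)
  obtain ⟨l, hl1, hl2, hl3⟩ := exists_enum key key_inj A (fun _ => ⟨0, by omega⟩)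
  obtain ⟨F, hF⟩ : ∃ F, F = 2 * ((A.ncard - 1) / 2) := ⟨_, rfl⟩
  have hF1 : F + 1 ≤ A.ncard := by omega
  have hrow : ∀ y : Fin (μ + k) → Fin n, (∀ i, i ≠ ⟨0, hj⟩ → 1 ≤ (y i).val ∧ (y i).val ≤ hi) →
      ∀ a, 1 ≤ a → a + qq b (μ + k) ≤ hi + 1 → ∃ y' ∈ A, (∀ i, i ≠ ⟨0, hj⟩ → y' i = y i) ∧
        a ≤ (y' ⟨0, hj⟩).val ∧ (y' ⟨0, hj⟩).val < a + qq b (μ + k) := by
    intro y hy a ha1 ha2
    obtain ⟨y', h1, h2, h3, h4⟩ := Dp_row (b := b) (μ := μ) hj hin y a ha2
    refine ⟨y', ?_, h2, h3, h4⟩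
    rw [hA]
    refine ⟨h1, fun i => ?_⟩
    by_cases h : i = ⟨0, hj⟩
    · subst h; omega
    · rw [h2 i h]; exact hy i h
  have hcons : ∀ i, ∃ c : Fin (μ + k), i < F → (∀ c', c < c' → l i c' = l (i + 1) c') ∧
      (l i c).val < (l (i + 1) c).val ∧ (l (i + 1) c).val ≤ (l i c).val + qq b (μ + k) ∧
      (c ≠ ⟨0, hj⟩ → hi < (l i ⟨0, hj⟩).val + qq b (μ + k) ∧
        (l (i + 1) ⟨0, hj⟩).val ≤ qq b (μ + k)) := by
    intro i
    by_cases hiF : i < F
    · obtain ⟨c, h1, h2, h3, h4⟩ := consec hj hq hin (A := A) (fun y hy => by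
          rw [hA] at hy; exact hy.2) hrow (by omega) (hl1 i (by omega)) (hl1 (i + 1) (by omega))
        (hl2 i (i + 1) (by omega) (by omega)) (by
          rintro y hy ⟨h1, h2⟩
          obtain ⟨m, hm1, hm2⟩ := hl3 y hy
          rw [← hm2] at h1 h2
          rcases Nat.lt_trichotomy m i with h3 | h3 | h3
          · have := hl2 m i h3 (by omega)
            omega
          · rw [h3] at h1; omega
          · rcases Nat.eq_or_lt_of_le (Nat.succ_le_of_lt h3) with h4 | h4
            · have h5 : i + 1 = m := h4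
              rw [h5] at h2
              omega
            · have := hl2 (i + 1) m h4 hm1
              omega)
      exact ⟨c, fun _ => ⟨h1, h2, h3, h4⟩⟩
    · exact ⟨⟨0, hj⟩, fun h => absurd h hiF⟩
  choose lam hlam using hcons
  have hline : ∀ i ≤ F, l (min i F) = l i := fun i h => by rw [min_eq_left h]
  refine ⟨F, ⟨fun i => l (min i F), lam, ?_, ?_, ?_, ?_, ?_⟩, by omega, by omega, by omega⟩
  · intro i i' h h'
    show key (l (min i F)) < key (l (min i' F))
    rw [hline i (by omega), hline i' h']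
    exact hl2 i i' h (by omega)
  · intro i
    show l (min i F) ∈ _
    rw [← hA]
    exact hl1 _ (by omega)
  · intro y hy i hi1 hlt
    rw [← hA] at hy
    obtain ⟨m, hm1, hm2⟩ := hl3 y hy
    have hlt' : key (l m) < key (l i) := by
      have h5 : key y < key (l (min i F)) := hlt
      rw [hline i hi1, ← hm2] at h5
      exact h5
    have hmi : m < i := by
      by_contra hle
      rcases Nat.eq_or_lt_of_le (not_lt.1 hle) with h4 | h4
      · rw [h4] at hlt'; omega
      · have := hl2 i m h4 hm1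
        omega
    refine ⟨m, hmi, ?_⟩
    show y = l (min m F)
    rw [hline m (by omega), hm2]
  · intro i h
    obtain ⟨h1, h2, h3, _⟩ := hlam i h
    show (∀ c, lam i < c → l (min i F) c = l (min (i + 1) F) c) ∧
      (l (min i F) (lam i)).val < (l (min (i + 1) F) (lam i)).val ∧
      (l (min (i + 1) F) (lam i)).val ≤ (l (min i F) (lam i)).val + qq b (μ + k)
    rw [hline i h.le, hline (i + 1) h]
    exact ⟨h1, h2, h3⟩
  · intro i h l0 hl0 hne
    have e : l0 = ⟨0, hj⟩ := Fin.ext hl0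
    subst e
    obtain ⟨_, _, _, h4⟩ := hlam i h
    show hi < (l (min i F) ⟨0, hj⟩).val + qq b (μ + k) ∧
      (l (min (i + 1) F) ⟨0, hj⟩).val ≤ qq b (μ + k)
    rw [hline i h.le, hline (i + 1) h]
    exact h4 hne

/-- the number of places -/
lemma count_num {a hi q ρ F m n : ℕ} (hq : 0 < q) (hn : n = hi + m) (hn1 : 1 ≤ n)
    (h1 : hi ^ a * ((hi / q) * ρ) ≤ F + 2) :
    ρ * n ^ (a + 1) ≤ q * (F + 1) + (q + q * ρ + ρ * ((a + 1) * m)) * n ^ a := by
  have h2 : hi ≤ q * (hi / q) + q := by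
    have := Nat.div_add_mod hi q
    have := Nat.mod_lt hi hq
    omega
  have h3 := pow_bern hi m a
  rw [← hn] at h3
  have h4 : hi ^ a ≤ n ^ a := Nat.pow_le_pow_left (by omega) _
  have h5 : 1 ≤ n ^ a := Nat.one_le_pow _ _ hn1
  have h6 : ρ * hi ^ (a + 1) ≤ q * (F + 2) + q * ρ * n ^ a := by
    calc ρ * hi ^ (a + 1) = ρ * hi ^ a * hi := by ring
      _ ≤ ρ * hi ^ a * (q * (hi / q) + q) := Nat.mul_le_mul_left _ h2
      _ = q * (hi ^ a * ((hi / q) * ρ)) + q * ρ * hi ^ a := by ring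
      _ ≤ q * (F + 2) + q * ρ * n ^ a :=
        Nat.add_le_add (Nat.mul_le_mul_left _ h1) (Nat.mul_le_mul_left _ h4)
  calc ρ * n ^ (a + 1) ≤ ρ * (hi ^ (a + 1) + (a + 1) * m * n ^ a) := Nat.mul_le_mul_left _ h3
    _ = ρ * hi ^ (a + 1) + ρ * ((a + 1) * m) * n ^ a := by ring
    _ ≤ (q * (F + 2) + q * ρ * n ^ a) + ρ * ((a + 1) * m) * n ^ a := Nat.add_le_add_right h6 _
    _ = q * (F + 1) + q * 1 + q * ρ * n ^ a + ρ * ((a + 1) * m) * n ^ a := by ring
    _ ≤ q * (F + 1) + q * n ^ a + q * ρ * n ^ a + ρ * ((a + 1) * m) * n ^ a := by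
        have := Nat.mul_le_mul_left q h5
        omega
    _ = _ := by ring

/-- existence of the configuration -/
theorem exists_YG (μ k : ℕ) (hμ : 1 ≤ μ) (hk : 1 ≤ k) (b : ℕ) (hb : b ≤ 1) (mg : ℕ) :
    ∃ C c : ℕ, ∀ n, c ≤ n → ∃ X : YG (Gd (μ + k) n) μ (2 * μ + 1 + b),
      X.C = C ∧
      (∀ y, (y ∈ X.D ∨ ∃ j < X.F, y ∈ X.P j) → ∀ l, (y l).val + mg ≤ n) ∧
      (∀ l, 1 ≤ (X.line X.F l).val) ∧
      (∀ l : Fin (μ + k), l.val < μ → ∀ y : Fin (μ + k) → Fin n,
        (y l).val = (X.line X.F l).val + 1 → (∀ l', l' ≠ l → y l' = X.line X.F l') →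
        y ∉ X.D ∧ cnt (Gd (μ + k) n) X.D y + 1 ≤ 2 * μ + 1 + b) ∧
      (2 * μ + 1 + b) * n ^ (μ + k) ≤
        (2 * (μ + k) + 1 + b) * (X.F + 1) + c * n ^ (μ + k - 1) := by
  have hj : 0 < μ + k := by omega
  obtain ⟨q, hqd⟩ : ∃ q, q = qq b (μ + k) := ⟨_, rfl⟩
  have hq : 0 < q := by rw [hqd]; exact qq_pos _ _
  obtain ⟨c1, hc1⟩ : ∃ c1, c1 = q + q * rr b μ + rr b μ * ((μ + k) * (mg + 1)) := ⟨_, rfl⟩
  refine ⟨Fintype.card (Fin (μ + k) × (Fin (μ + k) → Fin (2 * q + 3))),
    (1 + b) * c1 + (mg + 1 + 3 * q + 3), fun n hn => ?_⟩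
  have hn' : mg + 1 + 3 * q + 3 ≤ n := (Nat.le_add_left _ _).trans hn
  obtain ⟨hi, hhi⟩ : ∃ hi, hi = n - mg - 1 := ⟨_, rfl⟩
  have hin : hi < n := by omega
  have hnhi : n = hi + (mg + 1) := by omega
  obtain ⟨F, E, hF1, hF2, hF3⟩ := exists_En (b := b) (μ := μ) (k := k) (n := n) hj hin
    (by rw [← hqd]; omega)
  rw [← hqd] at E
  have hDp : ∀ y, (y ∈ Fz b μ (μ + k) n hi ∨ ∃ l ≤ F, y = E.line l) → y ∈ Dp b μ (μ + k) n := by
    rintro y (h | ⟨l, _, h⟩)
    · exact h.1
    · rw [h]; exact (E.mem l).1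
  refine ⟨E.toYG hb hj (by omega) hF1 hF2, rfl, ?_, ?_, ?_, ?_⟩
  · intro y hy l
    have h1 : (y l).val ≤ hi := by
      rcases hy with (h | ⟨i, _, h⟩) | ⟨i, _, h⟩
      · exact h.2.2 l
      · rw [h]; exact ((E.mem i).2 l).2
      · have h2 : y ∈ St (E.line i) (E.line (i + 1)) := h
        have h3 := St_btw h2 l
        have h4 := ((E.mem i).2 l).2
        have h5 := ((E.mem (i + 1)).2 l).2
        unfold btw at h3
        omega
    omega
  · intro l
    exact ((E.mem F).2 l).1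
  · intro l hl y hy1 hy2
    have hy1' : (y l).val = (E.line F l).val + 1 := hy1
    have hy2' : ∀ l', l' ≠ l → y l' = E.line F l' := hy2
    have hkey : key (E.line F) < key y := key_lt l (fun i hi' => (hy2' i hi'.ne').symm) (by omega)
    have hpos : ∀ i, 1 ≤ (y i).val := by
      intro i
      by_cases h : i = l
      · rw [h]; omega
      · rw [hy2' i h]; exact ((E.mem F).2 i).1
    constructor
    · rintro (h | ⟨i, h1, h2⟩)
      · obtain ⟨_, ⟨l', h3⟩, _⟩ := h
        have := hpos l'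
        omega
      · have h1' : i ≤ F := h1
        have h2' : y = E.line i := h2
        have := E.key_le h1' le_rfl
        rw [h2'] at hkey
        omega
    · have h1 : cnt (Gd (μ + k) n) {u | u ∈ Fz b μ (μ + k) n hi ∨ ∃ l ≤ F, u = E.line l} y ≤
          cnt (Gd (μ + k) n) {u | u ∈ Dp b μ (μ + k) n ∧ bel u y} y := by
        apply cnt_mono_pt
        intro u hadj hu
        refine ⟨hDp u hu, ?_⟩
        rcases adj_bel hadj with h4 | h4
        · exact h4
        · exfalso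
          rcases hu with h | ⟨i, h1, h2⟩
          · obtain ⟨_, ⟨l', h3⟩, _⟩ := h
            have := hpos l'
            have := bel_le h4 l'
            omega
          · have h5 := bel_key h4
            have := E.key_le h1 le_rfl
            rw [h2] at h5
            omega
      have h2 := Dp_bel_le (μ := μ) hb y
      have h3 : cnt (Gd (μ + k) n) {u | u ∈ Fz b μ (μ + k) n hi ∨ ∃ l ≤ F, u = E.line l} y + 1 ≤
          2 * μ + 1 + b := by omega
      exact h3
  · show (2 * μ + 1 + b) * n ^ (μ + k) ≤ (2 * (μ + k) + 1 + b) * (F + 1) +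
      ((1 + b) * c1 + (mg + 1 + 3 * q + 3)) * n ^ (μ + k - 1)
    obtain ⟨a, ha⟩ : ∃ a, a = μ + k - 1 := ⟨_, rfl⟩
    have ha1 : μ + k = a + 1 := by omega
    have hcard : hi ^ a * ((hi / q) * rr b μ) ≤ F + 2 := by
      have h := Dp_card (b := b) (μ := μ) (j := μ + k) hj hin rr_le_qq
      rw [← hqd, ← ha] at h
      exact h.trans hF3
    have h1 := count_num hq hnhi (by omega) hcard
    rw [← ha1, ← hc1] at h1
    rw [← ha]
    have e1 : 2 * μ + 1 + b = (1 + b) * rr b μ := by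
      unfold rr
      rcases Nat.eq_zero_or_pos b with h0 | h0
      · rw [if_pos h0, h0]; ring
      · have hb1 : b = 1 := by omega
        rw [if_neg (by omega), hb1]; ring
    have e2 : 2 * (μ + k) + 1 + b = (1 + b) * q := by
      rw [hqd]
      unfold qq
      rcases Nat.eq_zero_or_pos b with h0 | h0
      · rw [if_pos h0, h0]; ring
      · have hb1 : b = 1 := by omega
        rw [if_neg (by omega), hb1]; ring
    rw [e1, e2]
    calc (1 + b) * rr b μ * n ^ (μ + k) = (1 + b) * (rr b μ * n ^ (μ + k)) := by ring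
      _ ≤ (1 + b) * (q * (F + 1) + c1 * n ^ a) := Nat.mul_le_mul_left _ h1
      _ = (1 + b) * q * (F + 1) + (1 + b) * c1 * n ^ a := by ring
      _ ≤ (1 + b) * q * (F + 1) + ((1 + b) * c1 + (mg + 1 + 3 * q + 3)) * n ^ a := by
          apply Nat.add_le_add_left
          exact Nat.mul_le_mul_right _ (Nat.le_add_right _ _)

end Pool.Agent.Helper70.Gen
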