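import Mathlib
import Pool.Agent.Helper70.Gen.Perc
import Pool.Agent.Helper70.Gen.WSi
import Pool.Agent.Helper70.Gen.YConf

/-!
# General thresholds: assembly
-/

set_option linter.unusedSectionVars false
set_option linter.unusedVariables false

namespace Pool.Agent.Helper70.Gen

open Set SimpleGraph Pool.Agent.Helper19.Perco Pool.Agent.Helper70.Duo Pool.Agent.Helper70.Thr3

/-- compatibility -/
lemma mk_cmp {e μ L n : ℕ} {sz : Fin e → ℕ} (B : Tb e L sz) (hf : Tb.Fit L n sz)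
    (Z : WS (Gd e n) e μ) (hL : 10 ≤ L) (hsz : ∀ i, 3 ≤ sz i) (Zo : ∀ i, (Z.o i).val = 1)
    (ZΛ : ∀ w, w ∈ Z.Λ ↔ ∀ i, (w i).val ≤ 1) (ZΘ : ∀ w ∈ Z.Θ, ∀ i, (w i).val ≤ 2) :
    YG.Cmp B hf Z := by
  have hLn := hf.hL
  refine
    { ιs := ?_, ιo := ?_, lam := ?_, bo := ?_, bp := ?_, bo6 := ?_ }
  · show B.b B.P.s + 5 = 5
    rw [B.sb]
  · funext i
    apply Fin.ext
    show B.w B.P.s i = (Z.o i).val
    rw [B.sw, Zo]
  · intro u h1 h2 h3
    have h1' : B.b u + 5 = 5 := h1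
    exact B.hΛ u (by omega) (fun i => (ZΛ _).1 h2 i) h3
  · refine ⟨by omega, (Tb.mem_range hf).2 ⟨le_rfl, ?_, fun i => ?_⟩⟩
    · show 5 < 5 + L; omega
    · show (Z.o i).val < sz i
      rw [Zo]
      have := hsz i
      omega
  · intro w hw
    refine ⟨by omega, (Tb.mem_range hf).2 ⟨le_rfl, ?_, fun i => ?_⟩⟩
    · show 5 < 5 + L; omega
    · show (w i).val < sz i
      have := ZΘ w (Z.sub hw) i
      have := hsz i
      omega
  · refine ⟨by omega, (Tb.mem_range hf).2 ⟨?_, ?_, fun i => ?_⟩⟩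
    · show 5 ≤ 6; omega
    · show 6 < 5 + L; omega
    · show (Z.o i).val < sz i
      rw [Zo]
      have := hsz i
      omega

/-- the lower bound -/
theorem slow_gen (μ k b : ℕ) (hμ : 1 ≤ μ) (hk : 1 ≤ k) (hb : b ≤ 1) :
    ∃ C0 : ℕ, ∀ n, C0 ≤ n → ∃ T, Slow (Gd (2 * μ + b + 2 + k) n) (2 * μ + b + 2) T ∧
      (2 * μ + 1 + b) * n ^ (2 * μ + b + 2 + k) ≤
        (2 * (μ + k) + 1 + b) * T + C0 * n ^ (2 * μ + b + 1 + k) := by
  obtain ⟨e, he⟩ : ∃ e, e = μ + b := ⟨_, rfl⟩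
  obtain ⟨mg, hmg⟩ : ∃ mg, mg = 4 * (e + μ + 2) + 8 := ⟨_, rfl⟩
  obtain ⟨C, c, hY⟩ := exists_YG μ k hμ hk b hb mg
  have e1 : 2 * μ + 1 + b = e + μ + 1 := by omega
  have e2 : 2 * μ + b + 2 = e + μ + 2 := by omega
  have e3 : 2 * μ + b + 1 + k = e + μ + 1 + k := by omega
  rw [e1] at hY
  rw [e1, e2, e3]
  obtain ⟨q, hq⟩ : ∃ q, q = 2 * (μ + k) + 1 + b := ⟨_, rfl⟩
  rw [← hq] at hY
  rw [← hq]
  -- the loss
  obtain ⟨c0, hc0⟩ : ∃ c0, c0 = 2 * (5 * C + 3) + 3 + mg + 20 := ⟨_, rfl⟩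
  refine ⟨c + (e + μ + 1) * (e + 2) * c0 + c0 + 40, ?_⟩
  intro n hn
  have hnc0 : c0 + 20 ≤ n := by
    have : 0 ≤ (e + μ + 1) * (e + 2) * c0 := Nat.zero_le _
    omega
  obtain ⟨X, hX1, hX2, hX3, hX4, hX5⟩ := hY n (by
    have : 0 ≤ (e + μ + 1) * (e + 2) * c0 := Nat.zero_le _
    omega)
  obtain ⟨x, hx⟩ : ∃ x, n = x + c0 := ⟨n - c0, by omega⟩
  have hH : X.H = 5 * C + 3 := by
    unfold YG.H; rw [hX1]
  have hzB : X.zB = X.H + 1 := rfl
  -- parameters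
  obtain ⟨L, hL⟩ : ∃ L, L = 2 * ((n - 5) / 2) := ⟨_, rfl⟩
  obtain ⟨K, hK⟩ : ∃ K, K = 2 * ((n - (2 * (5 * C + 3) + 3 + mg)) / 2) := ⟨_, rfl⟩
  have hL10 : 10 ≤ L := by omega
  have hK6 : 6 ≤ K := by omega
  obtain ⟨B, hB⟩ := tb_all (L := L) (K := K) hL10 (by omega) hK6 (by omega) e (by omega)
  have hszb : ∀ i : Fin e, 3 ≤ szf L K e i ∧ szf L K e i + 5 ≤ n := by
    intro i
    unfold szf
    split_ifs <;> omega
  have hf : Tb.Fit L n (szf L K e) := ⟨by omega, fun i => by have := (hszb i).2; omega⟩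
  obtain ⟨Z, Zo, ZΛ, Zp, ZΘ⟩ := exists_WS (e := e) (μ := μ) (n := n) (by omega) (by omega)
  have hcm := mk_cmp B hf Z hL10 (fun i => (hszb i).1) Zo ZΛ ZΘ
  let A : Cfg e μ k n :=
    { X := X
      L := L
      sz := szf L K e
      B := B
      hf := hf
      Z := Z
      K := K
      hc := hcm
      hμ := hμ
      he := by omega
      hk := hk
      hK2 := by omega
      hK := hK6
      hz := by omega
      hsz := fun i => (hszb i).2
      yb := by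
        intro y hy l
        have := hX2 y hy l
        omega
      y1 := hX3
      yl := by
        intro l hl y h1 h2
        exact hX4 l hl y h1 h2
      Zo := Zo
      Zp := Zp
      ZΘ := ZΘ }
  refine ⟨(X.F + 1) * A.d, ?_, ?_⟩
  · have h := A.slow
    have e4 : e + μ + 1 + 1 + k = e + μ + 2 + k := by omega
    rw [e4] at h
    exact h
  · -- numerics
    have hd : A.d = (K - 4) * B.T + 1 := rfl
    obtain ⟨D, hD⟩ : ∃ D, D = A.d := ⟨_, rfl⟩
    rw [← hD]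
    have hwL : w L 4 = (L - 6) * L := by unfold w; rw [show L - 2 - 4 = L - 6 by omega]
    have hD1 : x ^ (e + 2) ≤ D := by
      have h1 : x * x ≤ w L 4 + L - 3 := by
        have : x * x ≤ (L - 6) * L := Nat.mul_le_mul (by omega) (by omega)
        omega
      have h2 : x ^ (e - 1) ≤ (K - 4) ^ (e - 1) := Nat.pow_le_pow_left (by omega) _
      have h3 : x ^ (e - 1) * (x * x) ≤ B.T := (Nat.mul_le_mul h2 h1).trans hB
      have h4 : x * (x ^ (e - 1) * (x * x)) ≤ (K - 4) * B.T := Nat.mul_le_mul (by omega) h3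
      have h5 : x ^ (e + 2) = x * (x ^ (e - 1) * (x * x)) := by
        obtain ⟨f, hf⟩ : ∃ f, e = f + 1 := ⟨e - 1, by omega⟩
        rw [hf]
        show x ^ (f + 1 + 2) = x * (x ^ (f + 1 - 1) * (x * x))
        rw [Nat.add_sub_cancel]
        ring
      omega
    have hb1 := pow_bern x c0 (e + 1)
    rw [← hx] at hb1
    -- the product
    obtain ⟨ρ, hρ⟩ : ∃ ρ, ρ = e + μ + 1 := ⟨_, rfl⟩
    obtain ⟨F1, hF1⟩ : ∃ F1, F1 = X.F + 1 := ⟨_, rfl⟩
    rw [← hF1] at hX5 ⊢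
    rw [← hρ] at hX5
    have hj : μ + k - 1 + 1 = μ + k := by omega
    have hDn : x ^ (e + 2) ≤ n ^ (e + 2) := Nat.pow_le_pow_left (by omega) _
    have step1 : ρ * n ^ (μ + k) * x ^ (e + 2) ≤
        q * (F1 * D) + c * n ^ (μ + k - 1) * n ^ (e + 2) := by
      calc ρ * n ^ (μ + k) * x ^ (e + 2)
          ≤ (q * F1 + c * n ^ (μ + k - 1)) * x ^ (e + 2) := Nat.mul_le_mul_right _ hX5
        _ = q * F1 * x ^ (e + 2) + c * n ^ (μ + k - 1) * x ^ (e + 2) := by ring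
        _ ≤ q * F1 * D + c * n ^ (μ + k - 1) * n ^ (e + 2) :=
            Nat.add_le_add (Nat.mul_le_mul_left _ hD1) (Nat.mul_le_mul_left _ hDn)
        _ = q * (F1 * D) + c * n ^ (μ + k - 1) * n ^ (e + 2) := by ring
    have step2 : ρ * n ^ (μ + k) * n ^ (e + 2) ≤
        ρ * n ^ (μ + k) * x ^ (e + 2) + ρ * n ^ (μ + k) * ((e + 2) * c0 * n ^ (e + 1)) := by
      rw [← Nat.mul_add]
      exact Nat.mul_le_mul_left _ hb1
    have p1 : n ^ (e + μ + 2 + k) = n ^ (μ + k) * n ^ (e + 2) := by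
      rw [← pow_add]; congr 1; omega
    have p2 : n ^ (e + μ + 1 + k) = n ^ (μ + k) * n ^ (e + 1) := by
      rw [← pow_add]; congr 1; omega
    have p3 : n ^ (e + μ + 1 + k) = n ^ (μ + k - 1) * n ^ (e + 2) := by
      rw [← pow_add]; congr 1; omega
    have hfin : ρ * n ^ (e + μ + 2 + k) ≤
        q * (F1 * D) + (c + ρ * (e + 2) * c0) * n ^ (e + μ + 1 + k) := by
      calc ρ * n ^ (e + μ + 2 + k) = ρ * n ^ (μ + k) * n ^ (e + 2) := by rw [p1]; ring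
        _ ≤ ρ * n ^ (μ + k) * x ^ (e + 2) + ρ * n ^ (μ + k) * ((e + 2) * c0 * n ^ (e + 1)) := step2
        _ ≤ q * (F1 * D) + c * n ^ (μ + k - 1) * n ^ (e + 2) +
            ρ * n ^ (μ + k) * ((e + 2) * c0 * n ^ (e + 1)) := Nat.add_le_add_right step1 _
        _ = q * (F1 * D) + c * (n ^ (μ + k - 1) * n ^ (e + 2)) +
            ρ * (e + 2) * c0 * (n ^ (μ + k) * n ^ (e + 1)) := by ring
        _ = q * (F1 * D) + c * n ^ (e + μ + 1 + k) +
            ρ * (e + 2) * c0 * n ^ (e + μ + 1 + k) := by rw [← p2, ← p3]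
        _ = _ := by ring
    rw [hρ] at hfin
    refine hfin.trans (Nat.add_le_add_left (Nat.mul_le_mul_right _ ?_) _)
    omega

end Pool.Agent.Helper70.Gen
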